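import Pool.Agent.Q17.DC.Stm4

/-!
# Further statements for project DC: blocks with normal defect groups
-/

set_option autoImplicit false

open scoped BigOperators Classical
open Pool.Agent.H254R3.IN Pool.Agent.Y63.KR Pool.Agent.Q17.TC

noncomputable section

namespace Pool.Agent.Q17.DC

/-- the irreducible characters in `b` with `D` in the kernel -/
def Mb {H : Type} [Group H] (b : Set (H → ℂ)) (D : Subgroup H) : Set (H → ℂ) :=
  {φ | φ ∈ b ∧ ∀ x ∈ D, φ x = φ 1}

/-- NDW. The weights of a block with a normal defect group. Hypotheses of the theorem to be proved: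
`S_DZP`, `S_DZV` (`t_NDW : S_DZP → S_DZV → S_NDW`). Proof. (1) Every `φ ∈ Mb b D` has defect zero as a
character of `H/D`, i.e. `v_p(|H|) = v_p(|D|) + v_p(φ(1))`: let `x` be as in the definition of the
defect group `D`, so `D` is a Sylow `p`-subgroup of `C_H(x)`, and
`omega φ x = |H : C_H(x)| φ(x) / φ(1)` is not in `O.nonunits`; as `φ x ∈ O` this gives
`v_p(φ(1)) ≥ v_p(|H : D|)`; and `φ(1)` divides `|H/D|` (`φ` is an irreducible character of
`H ⧸ D`; the degree divides the order). (2) Let `(Q, φ)` be a weight of `b`, `A = N_H(Q)`. `Q ≤ D`: for
`q ∈ Q`, `φ q = φ 1 ≠ 0`, so `q` is conjugate to an element of `D` by `S_DZP` (`L = A`, `z = q`,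
`s = 1`), and `D` is normal. `D ≤ Q`: let `R = A ∩ QD`, a normal `p`-subgroup of `A`. If `R ≤ Q` then
`N_{QD}(Q) = Q`, so `QD = Q` as `QD` is a `p`-group (normalizer condition), and `D ≤ Q`. Assume
`R` is not in `Q`. By `S_DZV` (for `A`, `z = r`, `s = 1`) `φ r = 0` for `r ∈ R`, `r ∉ Q`. So the operator
`∑_{r ∈ R} ρ r` (`ρ` affords `φ`) has trace `|Q| φ(1) ≠ 0`, its image consists of vectors fixed by `R`;
the space of these is stable under `A` since `R` is normal, so it is everything by irreducibility and
`φ r = φ 1 ≠ 0` for all `r ∈ R`, a contradiction. (3) So the weights of `b` are the pairs `(D, φ)` with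
`φ` a character of `N_H(D) = H` (the type is the normaliser, equal to `⊤`; transport along
`Subgroup.topEquiv` or the equality) which corresponds to an element of `Mb b D`: an irreducible
character induces `b` from `⊤` if and only if it is in `b` (`top_comp`, `mem_iff_ind` in
`Q17.DC.Typ2`, `Typ3`), and the defect condition is (1). Two of them are conjugate only if
they are equal (class functions). -/
def S_NDW : Prop := ∀ (H : Type) [Group H] [Fintype H] (p : ℕ) [Fact p.Prime]
  (O : ValuationSubring ℂ), (p : ℂ) ∈ O.nonunits → ∀ b : Set (H → ℂ), IsBlock O b →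
  ∀ D : Subgroup H, IsDefectGroup p O b D → D.Normal → nW p O b = Nat.card (Mb b D)

/-- NDL. The Brauer characters of a block with a normal defect group. Hypotheses of the theorem to be
proved: `S_SECT`, `S_DZV` (`t_NDL : S_SECT → S_DZV → S_NDL`). Proof. (1) as in `S_NDW`: every
`φ ∈ Mb b D` has `v_p(|H|) = v_p(|D|) + v_p(φ(1))`, so by `S_DZV` (`Q = D`, `A = H`) `φ(z s) = 0` if
`z ∉ D` is the `p`-part, and `φ(z s) = φ s` if `z ∈ D` (kernel). So a linear relation between the
restrictions to the `p`-regular elements of the `φ ∈ Mb b D` is a linear relation between the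
`φ`, and these restrictions are linearly independent. (2) Lemma: let `D` be a normal `p`-subgroup of
`H` and `s`, `t` `p`-regular with `s⁻¹ t ∈ D`; then `e t e⁻¹ = s` for some `e ∈ D`. Induction on the
order of `s`. If the order of `s` is a power of a prime `q ≠ p`: `t` has the same order `n` (if
`s^n = 1` then `t^n ∈ D` is a `p`-element and `p`-regular), the cyclic group of order `n` acts on the
set `D` by `x ↦ s⁻¹ x t`, the number of fixed points is congruent to `|D|` modulo `q`, so there is
one, `x t x⁻¹ = s`. In general let `q` divide the order, `s = s_q s'`, `t = t_q t'` with the `q`-parts;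
`t_q` is conjugate to `s_q` by an element of `D` (case of a prime power, `s_q`, `t_q` are congruent
modulo `D`), so we may assume `t_q = s_q = u`; `s'`, `t'` are in `C_H(u)` and congruent modulo the
normal `p`-subgroup `C_D(u)` of it, and `s'` has smaller order. (3) So every class function of `H`
with support in the `p`-regular elements agrees on the `p`-regular elements with (the inflation of) a
class function of `H ⧸ D`, so it is the restriction to the `p`-regular elements of a linear
combination of irreducible characters `ψ` of `H` with `D` in the kernel. (4) Let `h` be the restriction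
of `χ ∈ b` to the `p`-regular elements (extended by zero); it is a linear combination of such
restrictions `ψ₀` of characters `ψ` as in (3). The restriction `ψ₀` is in the span of the block of `ψ`:
its component for every other block is zero (`S_SECT`; see `(1)` in the proof of `S_SPA`; probably
available as a lemma in the proof of SPA or SPB, `Pool.Agent.Q261.DC.SPA` or `.SPB`, when you start).
Take the component for `b`: `h` is a linear combination of the `ψ₀` with `ψ ∈ b`, i.e.
`ψ ∈ Mb b D`. Together with (1) `lB p b = Nat.card (Mb b D)`. -/
def S_NDL : Prop := ∀ (H : Type) [Group H] [Fintype H] (p : ℕ) [Fact p.Prime]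
  (O : ValuationSubring ℂ), (p : ℂ) ∈ O.nonunits → ∀ b : Set (H → ℂ), IsBlock O b →
  ∀ D : Subgroup H, IsDefectGroup p O b D → D.Normal → lB p b = Nat.card (Mb b D)

end Pool.Agent.Q17.DC
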