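import Pool.Agent.Q17.DC.Stm3

/-!
# Further statements for project DC: sections, Brauer characters, weights
-/

set_option autoImplicit false

open scoped BigOperators Classical
open Pool.Agent.H254R3.IN Pool.Agent.Y63.KR Pool.Agent.Q17.TC

noncomputable section

namespace Pool.Agent.Q17.DC

/-- `x` is in the `p`-section of `u`: its `p`-part is conjugate to `u` -/
def InS {G : Type} [Group G] (p : ℕ) (u x : G) : Prop :=
  ∃ z s : G, x = z * s ∧ Commute z s ∧ (∃ k, orderOf z = p ^ k) ∧ ¬ p ∣ orderOf s ∧ IsConj u z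

/-- the dimension of the space spanned by the restrictions of the characters in `B` to the
`p`-section of `u` (extended by zero) -/
def dS {G : Type} [Group G] (p : ℕ) (u : G) (B : Set (G → ℂ)) : ℕ :=
  Module.finrank ℂ (Submodule.span ℂ
    {f : G → ℂ | ∃ χ ∈ B, ∀ x, f x = if InS p u x then χ x else 0})

/-- `l(B)`: the dimension of the space spanned by the restrictions of the characters in `B` to the
`p`-regular elements (extended by zero) -/
def lB {G : Type} [Group G] (p : ℕ) (B : Set (G → ℂ)) : ℕ :=
  Module.finrank ℂ (Submodule.span ℂ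
    {f : G → ℂ | ∃ χ ∈ B, ∀ x, f x = if p ∣ orderOf x then 0 else χ x})

/-- the blocks of `A` which induce the block `B` of `G`, for a homomorphism `j` from `A` to `G` -/
def Bj {A G : Type} [Group A] [Group G] (O : ValuationSubring ℂ) (j : A →* G)
    (B : Set (G → ℂ)) : Type :=
  {β : Set (A → ℂ) // IsBlock O β ∧ ∀ χ ∈ B, ∀ φ ∈ β, ∀ x : G,
    omega χ x - ∑ᶠ v : {v : A // IsConj x (j v)}, φ v / φ 1 ∈ O.nonunits}

/-- SPA. `k(B)` is the sum of the dimensions for the sections. Hypothesis of the theorem to be proved: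
`S_SECT` (`t_SPA : S_SECT → S_SPA`). Proof. For a class function `h` let
`(E h) g = ∑_t blockCoeff β t * h (g t)` be its component for the block `β`; `E χ = χ` for `χ ∈ β`,
`E χ = 0` for the other irreducible `χ`, and `h` is the sum of its block components (as in `t_PRT`,
`Q111.DC.PRT`). (1) Let `χ ∈ B` and `u` be a `p`-element, `h` the restriction of `χ` to the section of
`u` (`h x = if InS p u x then χ x else 0`). The component of `h` for a block `β ≠ B` is `0` at all
`g = z s` (`z`, `s` the `p`-part and the `p'`-part of `g`): if `z` is not conjugate to `u` then `h`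
vanishes at all `z x`, `x` `p`-regular commuting with `z`, and `S_SECT` applies; if `z` is conjugate to
`u` then this holds for `χ - h`, and the component of `χ` for `β` is `0`. So `h` is its component
for `B`, which is in `span ℂ B` (expand the class function `h` in irreducible characters). (2) Let
`V_u` be the span in the definition of `dS p u B`, contained in `span ℂ B` by (1). The sections of
representatives `u` of the classes of `p`-elements partition `G` (`p_parts` in `Q17.TC.CG`; the
`p`-part is unique), so `span ℂ B` is the direct sum of the `V_u` (`iSupIndep` as the supports are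
disjoint; every `χ ∈ B` is the sum of its restrictions), and `Module.finrank` of `span ℂ B` is
`Nat.card B` by linear independence of the irreducible characters (e.g. `Om`/orthogonality; search the
pool for the linear independence of `IC.Irr`). -/
def S_SPA : Prop := ∀ (G : Type) [Group G] [Fintype G] (p : ℕ) [Fact p.Prime]
  (O : ValuationSubring ℂ), (p : ℂ) ∈ O.nonunits → ∀ B : Set (G → ℂ), IsBlock O B →
  Nat.card B = ∑ᶠ c : Quotient (IsConj.setoid G),
    if ∃ k, orderOf c.out = p ^ k then dS p c.out B else 0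

/-- SPB. The contribution of the section of `j z` is the sum of the `l(β)` over the blocks `β` of the
centraliser `A` (identified by `j`) which induce `B`. Hypotheses of the theorem to be proved: `S_SECT`,
`S_SMT` (`t_SPB : S_SECT → S_SMT → S_SPB`). Proof. Let `u = j z`. For a class function `f` of `G` let
`R f s = f (j (z s))` if `s` is `p`-regular and `0` otherwise, a class function of `A` with support in
the `p`-regular elements; `R` is a bijection from the class functions with support in the section of
`u` onto the class functions of `A` with support in the `p`-regular elements (if `z s`, `z s'` are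
conjugate in `G` by `g` then `g` centralises `u` since `u` is the `p`-part). For a block `β` of `A` let
`W β` be the span in the definition of `lB p β`. (1) As in (1) of the proof of `S_SPA` (with `u = 1`)
the restriction to the `p`-regular elements of `φ ∈ β` is in `span ℂ β`; so `W β ≤ span ℂ β`, and if a
class function `h` of `A` vanishes at all `p`-singular elements then so does its component for `β`
(`S_SECT` for all `z ≠ 1`), and this component is in `W β` (it is in `span ℂ β` and equal to its
own restriction). The `W β` are independent and their sum for all blocks `β` is the space of all class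
functions with support in the `p`-regular elements. (2) Let `χ ∈ B`, `h s = χ (j (z s))` and
`h₀ = R χ`. If `β` does not induce `B` then the component of `h` for `β` vanishes at the `p`-regular
elements by `S_SMT` (there is `x` and a member `φ` of `β` as in its hypothesis; all members of `β` and
of `B` have congruent central characters), the one of `h - h₀` as well (`S_SECT` with `z = 1`), so the
one of `h₀` is `0`. So `h₀` is in the sum of the `W β` over `Bj O j B`. (3) Let `V B` be the span in the
definition of `dS p (j z) B`. By (2) `R` maps `V B` injectively into the sum of the `W β` over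
`β ∈ Bj O j B`, so `dS p (j z) B ≤ ∑ lB p β`. Sum over all blocks `B` of `G`: the `V B` span all class
functions with support in the section of `u`, so
`dim ≤ ∑_B dS p (j z) B ≤ ∑_B ∑_{β ∈ Bj O j B} lB p β ≤ ∑_β lB p β = dim` (a block `β` induces
at most one `B`), so equality holds for every `B`. -/
def S_SPB : Prop := ∀ (A G : Type) [Group A] [Fintype A] [Group G] [Fintype G] (j : A →* G)
  (p : ℕ) [Fact p.Prime] (O : ValuationSubring ℂ), Function.Injective j →
  (p : ℂ) ∈ O.nonunits → ∀ z : A, (∃ k, orderOf z = p ^ k) →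
  (∀ g : G, Commute (j z) g ↔ g ∈ j.range) → ∀ B : Set (G → ℂ), IsBlock O B →
  dS p (j z) B = ∑ᶠ β : Bj O j B, lB p β.1

/-- EXZ. Every block of the centraliser of a `p`-element induces a block. Proof: as in `t_EXI` in
`Q38.DC.EXI` (there for the normaliser of a `p`-subgroup `D`), now for `D` the group generated by `z` and
its centraliser `A`; as `D` is central in `A` the argument is the same (only `C_G(D) ≤ A` and `A`
normalising `D` are used); `j` identifies `A` with `C_G(j z)`. -/
def S_EXZ : Prop := ∀ (A G : Type) [Group A] [Fintype A] [Group G] [Fintype G] (j : A →* G)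
  (p : ℕ) [Fact p.Prime] (O : ValuationSubring ℂ), Function.Injective j →
  (p : ℂ) ∈ O.nonunits → ∀ z : A, (∃ k, orderOf z = p ^ k) →
  (∀ g : G, Commute (j z) g ↔ g ∈ j.range) → ∀ φ : A → ℂ, IsIrr φ → ∃ B : Set (G → ℂ),
  IsBlock O B ∧ ∀ χ ∈ B, ∀ x : G,
    omega χ x - ∑ᶠ v : {v : A // IsConj x (j v)}, φ v / φ 1 ∈ O.nonunits

/-- IBL. A block of `H` with a defect group meeting the coset induces a block of `G`. Hypotheses of the
theorem to be proved: `S_TI`, `S_MMX`, `S_FMT`, `S_EXI`, `S_TRS`. Proof. As in `Q66.DC.UNQ`: let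
`D` be the image of `E` in `G`, `N_G(D) = N_H(D)` (as `E` contains `z` in `KK N y` outside `N`); by
`S_FMT` for `H` there is a Brauer correspondent `β` of `b` in `N_H(E)`; transport it to `N_G(D)`, its
characters induce a block `B` of `G` by `S_EXI`, and `b` induces `B` by `S_TRS` (`β` induces `b`). -/
def S_IBL : Prop := ∀ (G : Type) [Group G] [Fintype G] (p : ℕ) [Fact p.Prime]
  (O : ValuationSubring ℂ), (p : ℂ) ∈ O.nonunits → ∀ (N : Subgroup G) [N.Normal] (y : G)
  (H : Subgroup G) (P : Sylow p G), TD p N y H P → ∀ b : Set (H → ℂ), IsBlock O b →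
  ∀ E : Subgroup H, IsDefectGroup p O b E → (∃ z ∈ E, (z : G) ∈ KK N y ∧ (z : G) ∉ N) →
  ∃ B : Set (G → ℂ), IsBlock O B ∧ ∀ χ ∈ B, ∀ θ ∈ b, ∀ x : G,
    omega χ x - ∑ᶠ y : {y : H // IsConj x (y : G)}, θ y / θ 1 ∈ O.nonunits

/-- DZV. Defect zero characters of `A/Q` vanish on `p`-singular elements of `A/Q`. Proof. `φ` is
constant on the cosets of `Q` (`Q` is in the kernel), `φ'` the character of `A' = A ⧸ Q`; `φ'(1)` and
`|A'|` have the same `p`-part. Let `z'` be the image of `z`; if `z ∉ Q` then `z' ≠ 1`. The character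
`φ'` of defect zero vanishes at `z' s'`: search the pool for this classical fact, or prove it with
`S_SECT` as a hypothesis (`t_DZV : S_SECT → S_DZV`): the coefficients
`c x = |A'|⁻¹ φ'(1) φ'(x⁻¹)` of the idempotent of `φ'` are in `O` as `φ'(1)/|A'|` is in `O` (for any `O`
with `p` in `O.nonunits`, e.g. one exists by `exists_valuationSubring`-type results in the pool), so
if `omega ψ ≡ omega φ'` for an irreducible `ψ ≠ φ'` then `1 = Om c φ' ≡ Om c ψ = 0`; so `{φ'}` is a
block with `blockCoeff = c`, and `S_SECT` for `h = dl` shows that `c` vanishes at `p`-singular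
elements (see the beginning of the proof of `t_MMZ` in `Q95.DC.MMZ`). -/
def S_DZV : Prop := ∀ (A : Type) [Group A] [Fintype A] (p : ℕ) [Fact p.Prime]
  (O : ValuationSubring ℂ), (p : ℂ) ∈ O.nonunits → ∀ Q : Subgroup A,
  Q.Normal → IsPGroup p Q → ∀ φ : A → ℂ, IsIrr φ → (∀ x ∈ Q, φ x = φ 1) →
  (∃ n : ℕ, (n : ℂ) = φ 1 ∧
    (Nat.card A).factorization p = (Nat.card Q).factorization p + n.factorization p) →
  ∀ z s : A, Commute z s → (∃ k, orderOf z = p ^ k) → ¬ p ∣ orderOf s → φ (z * s) ≠ 0 → z ∈ Q

/-- `(Q, φ)` is a weight of the block `B`: `Q` is a `p`-subgroup, `φ` is an irreducible character of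
`N_G(Q)/Q` of defect zero, and the block of `N_G(Q)` which contains `φ` induces `B` -/
structure IsWt {G : Type} [Group G] (p : ℕ) (O : ValuationSubring ℂ) (B : Set (G → ℂ))
    (Q : Subgroup G) (φ : Subgroup.normalizer (Q : Set G) → ℂ) : Prop where
  isp : IsPGroup p Q
  irr : IsIrr φ
  ker : ∀ x : Subgroup.normalizer (Q : Set G), (x : G) ∈ Q → φ x = φ 1
  defect : ∃ n : ℕ, (n : ℂ) = φ 1 ∧ (Nat.card (Subgroup.normalizer (Q : Set G))).factorization p =
    (Nat.card Q).factorization p + n.factorization p
  ind : ∀ χ ∈ B, ∀ x : G, omega χ x -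
    ∑ᶠ y : {y : Subgroup.normalizer (Q : Set G) // IsConj x (y : G)}, φ y / φ 1 ∈ O.nonunits

/-- the weights of `B` -/
def Wt {G : Type} [Group G] (p : ℕ) (O : ValuationSubring ℂ) (B : Set (G → ℂ)) : Type :=
  {w : (Q : Subgroup G) × (Subgroup.normalizer (Q : Set G) → ℂ) // IsWt p O B w.1 w.2}

/-- conjugacy of weights -/
def wtS {G : Type} [Group G] (p : ℕ) (O : ValuationSubring ℂ) (B : Set (G → ℂ)) :
    Setoid (Wt p O B) where
  r w w' := ∃ g : G, w'.1.1 = conjSub g w.1.1 ∧
    ∀ (x : Subgroup.normalizer (w.1.1 : Set G)) (x' : Subgroup.normalizer (w'.1.1 : Set G)),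
      (x' : G) = g * x * g⁻¹ → w'.1.2 x' = w.1.2 x
  iseqv :=
    { refl := fun w => ⟨1, (conjSub_one _).symm, fun x x' h => by
        have h1 : x' = x := Subtype.ext (by rw [h]; group)
        rw [h1]⟩
      symm := by
        rintro w w' ⟨g, hg, h⟩
        refine ⟨g⁻¹, ?_, fun x x' hx => (h x' x ?_).symm⟩
        · rw [hg, ← conjSub_mul, inv_mul_cancel, conjSub_one]
        · rw [hx]
          group
      trans := by
        rintro w w' w'' ⟨g, hg, h⟩ ⟨k, hk, h'⟩
        refine ⟨k * g, ?_, fun x x'' hx => ?_⟩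
        · rw [hk, hg, conjSub_mul]
        · have hm : g * x * g⁻¹ ∈ Subgroup.normalizer (w'.1.1 : Set G) := by
            rw [hg]
            refine conjSub_eq_iff.mp ?_
            rw [← conjSub_mul, inv_mul_cancel_right, conjSub_mul, conjSub_eq_iff.mpr x.2]
          rw [h' ⟨g * x * g⁻¹, hm⟩ x'' (by rw [hx]; group), h x ⟨g * x * g⁻¹, hm⟩ rfl] }

/-- the number of the conjugacy classes of the weights of `B` -/
def nW {G : Type} [Group G] (p : ℕ) (O : ValuationSubring ℂ) (B : Set (G → ℂ)) : ℕ :=
  Nat.card (Quotient (wtS p O B))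

/-- WTS. The weights of `B` and `b`. Hypotheses of the theorem to be proved: `S_TI`, `S_DZV`, `S_EXI`,
`S_TRS` (`t_WTS : S_TI → S_DZV → S_EXI → S_TRS → S_WTS`). Proof. `K = KK N y`. (0) If
`Q ≤ H` contains an element of `K` outside `N` then `N_G(Q) ≤ H` (`S_TI`, see `hNN` in the proof of
`Pool.Agent.Results.MP_7f1e7e_al.RelativeBlocks` or `Q66.DC.UNQ`). (1) Let `(Q, φ)` be a weight of `B`.
By the hypothesis for `L = N_G(Q)`, `θ = φ` there is `x = z s` with `omega φ x ∉ O.nonunits`, `z` a
`p`-element in `K` outside `N`, `s` `p`-regular; so `φ x ≠ 0` and `z ∈ Q` by `S_DZV` (for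
`A = N_G(Q)`; `z`, `s` are powers of `x`, so in `N_G(Q)`). The same for weights of `b`. (2) A weight
`(Q', φ')` of `b` gives a weight of `B`: `Q` the image of `Q'` in `G`, `N_G(Q) = N_H(Q')` by (0), (1),
`φ` the transport of `φ'` (`eN`, `lft` in `Q17.TC`, `tb` etc. in `Q222.TC.TBC`); it induces `B` by
`S_TRS` as `φ'` induces `b`. This respects conjugacy. (3) Injective on classes: if
`Q₂ = g Q₁ g⁻¹`, `Q₁, Q₂ ≤ H`, `z ∈ Q₁` in `K` outside `N` then `g ∈ H` by `S_TI`. (4) Surjective: let
`(Q, φ)` be a weight of `B`; a conjugate of `Q` is in `P ≤ H` (Sylow), so we may assume `Q ≤ H`; then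
`N_G(Q) ≤ H` by (1), (0); by `S_EXI` (`L = H`, `D = Q`) `φ` induces a block `b'` of `H`, which induces
`B` by `S_TRS`, so `b' = b` by the last hypothesis. -/
def S_WTS : Prop := ∀ (G : Type) [Group G] [Fintype G] (p : ℕ) [Fact p.Prime]
  (O : ValuationSubring ℂ), (p : ℂ) ∈ O.nonunits → ∀ (N : Subgroup G) [N.Normal] (y : G)
  (H : Subgroup G) (P : Sylow p G), TD p N y H P → ∀ B : Set (G → ℂ), IsBlock O B →
  ∀ b : Set (H → ℂ), IsBlock O b →
  (∀ χ ∈ B, ∀ θ ∈ b, ∀ x : G,
    omega χ x - ∑ᶠ y : {y : H // IsConj x (y : G)}, θ y / θ 1 ∈ O.nonunits) →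
  (∀ (L : Subgroup G) (θ : L → ℂ), IsIrr θ → (∀ χ ∈ B, ∀ x : G,
      omega χ x - ∑ᶠ y : {y : L // IsConj x (y : G)}, θ y / θ 1 ∈ O.nonunits) →
    ∃ x : L, Sec p N (KK N y) (x : G) ∧ omega θ x ∉ O.nonunits) →
  (∀ (L : Subgroup H) (θ : L → ℂ), IsIrr θ → (∀ χ ∈ b, ∀ x : H,
      omega χ x - ∑ᶠ y : {y : L // IsConj x (y : H)}, θ y / θ 1 ∈ O.nonunits) →
    ∃ x : L, Sec p N (KK N y) ((x : H) : G) ∧ omega θ x ∉ O.nonunits) →
  (∀ b' : Set (H → ℂ), IsBlock O b' → (∀ χ ∈ B, ∀ θ ∈ b', ∀ x : G,
      omega χ x - ∑ᶠ y : {y : H // IsConj x (y : G)}, θ y / θ 1 ∈ O.nonunits) → b' = b) →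
  nW p O B = nW p O b

end Pool.Agent.Q17.DC
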