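import Pool.Agent.Q17.DC.Defs
import Pool.Agent.Q17.TC.Stm

/-!
# Statements of the parts of project DC

Library: `H254R3.IN` (`IsIrr`, `omega`, `IsBlock`, `blockCoeff`, `IsCl`, `Om`, `conv`, `dl`, `ind`,
`Om_conv`, `Om_ind`, `Om_dl`, `eq_of_Om`, `Om_blockCoeff`, `blockCoeff_mem`, `blockCoeff_cl` in `Idem`;
`red_Om` in `PI`; `red`, `red_eq_iff` etc. in `Red`; `class_sum_scalar`, `class_scalar`, `schur`,
`IsIrr.conj`, `IsIrr.isIntegral`, `IsIrr.omega_mem` in `Chars`; `sum_fixed`, `sum_classes`, `rep` in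
`Orbit`; `sum_pred` in `Compare2`); `Q239.TC.TRN` (`ind_finsum`, `ind_classes`, `two_step`); `Q17.TC.CG`
(`nu_iff`, `nu_add`, `nu_mul`, `nu_sum`, `p_parts`); `Y63.KR.Basic` (`orbit_sum`, `toggle`,
`toggle_mem`, `ncard_toggle`, `lower_cases`, `mem_chainStabilizer`, `mem_conjSub`, `conjSub_eq_iff`,
`chainStabilizer_conj`, `ncard_conj`).
-/

set_option autoImplicit false

open scoped BigOperators Classical
open Pool.Agent.H254R3.IN Pool.Agent.Y63.KR Pool.Agent.Q17.TC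

noncomputable section

namespace Pool.Agent.Q17.DC

/-- ALG. An algebraic number divisible by all powers of `p` is zero. Proof: if `α ≠ 0` there is an
integer polynomial `∑ a_i X^i` with `a_0 ≠ 0` and the root `α` (divide the minimal polynomial by a
power of `X`, clear denominators), so `a_0 = -α (a_1 + a_2 α + ...)`; `α` is in `O` (case `n = 0`), so
`a_0 ∈ p^n O` for all `n`; but `a_0 = p^k m` with `p ∤ m`, `m` is a unit of `O`
(`nat_inv_mem`), so `p ∈ O.nonunits` would be a unit for `n = k + 1`. -/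
def S_ALG : Prop := ∀ (p : ℕ) [Fact p.Prime] (O : ValuationSubring ℂ), (p : ℂ) ∈ O.nonunits →
  ∀ α : ℂ, IsAlgebraic ℚ α → (∀ n : ℕ, ∃ c ∈ O, α = (p : ℂ) ^ n * c) → α = 0

/-- POW. Expansion of a power in a noncommutative ring. Proof: induction on `M` (`Fin.consEquiv`,
`List.ofFn_succ`, `Finset.sum_mul_sum`). -/
def S_POW : Prop := ∀ (E Λ : Type) [Ring E] [Fintype Λ] (T : Λ → E) (M : ℕ),
  (∑ l, T l) ^ M = ∑ w : Fin M → Λ, (List.ofFn fun i => T (w i)).prod

/-- WORD. Counting words modulo powers of `p`. `Λ` is the set of letters, `π` their values in the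
group `G`, `a` their weights, `γ` is a permutation of the letters which acts on the values as
conjugation by `g`. The hypothesis says: for a word `w` of length `M` with nonzero contribution,
extended to a sequence `W` by `W (j + M) = γ (W j)`, every period `m` of `W` is divisible by `q`. Then
the total contribution is divisible by `q`. Proof. Let `Ω` be the finite set of the sequences
`W : ℕ → Λ` with `W (j + M) = γ (W j)`; restriction to `{0, ..., M-1}` is a bijection from `Ω` onto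
`Fin M → Λ`. The shift `(τ W) j = W (j + 1)` is a permutation of `Ω`. The contribution
`F W = (∏_{i<M} a (W i)) h(g ∏_{i<M} π (W i))` is invariant under `τ`:
`∏_{0<i≤M} a (W i) = ∏_{i<M} a (W i)` as `a (γ l) = a l`, and
`g π(W 1) ... π(W (M-1)) g π(W 0) g⁻¹` is conjugate to `g π(W 0) π(W 1) ... π(W (M-1))`. So `∑ F` is the
sum over the orbits of `τ` of the size of the orbit times the value; the size of the orbit of `W`
is its minimal period (`Function.minimalPeriod`, `Function.IsPeriodicPt`, or the action of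
`zpowers τ`), if `F W ≠ 0` it is divisible by `q`. -/
def S_WORD : Prop := ∀ (G Λ : Type) [Group G] [Fintype Λ] (O : ValuationSubring ℂ) (π : Λ → G)
  (a : Λ → ℂ) (h : G → ℂ) (g : G) (γ : Equiv.Perm Λ) (M q : ℕ), 0 < M → (∀ l, a l ∈ O) →
  (∀ x, h x ∈ O) → (∀ x y : G, h (y * x * y⁻¹) = h x) → (∀ l, π (γ l) = g * π l * g⁻¹) →
  (∀ l, a (γ l) = a l) →
  (∀ W : ℕ → Λ, (∀ j, W (j + M) = γ (W j)) → (∀ j, a (W j) ≠ 0) →
    h (g * ((List.range M).map fun i => π (W i)).prod) ≠ 0 → ∀ m, 0 < m → (∀ j, W (j + m) = W j) →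
    q ∣ m) →
  ∃ c ∈ O, ∑ w : Fin M → Λ, (∏ i, a (w i)) * h (g * (List.ofFn fun i => π (w i)).prod) = q * c

/-- UNIT. An integral central element whose central character at the block `β` is a unit is invertible
in the block. Proof. By induction on a finite subset `T` of `β` there are class functions `P`, `b` with
values in `O` such that for all irreducible `φ'`: `Om P φ' = ∏_{φ ∈ T} (Om κ φ' - Om κ φ)` and
`Om κ φ' * Om b φ' = Om P φ' - ∏_{φ ∈ T} (- Om κ φ)`: start with `P = dl`, `b = 0`; for a new `φ₁` take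
`P₁ = conv P (κ - c dl)`, `b₁ = conv b (κ - c dl) + ∏_{φ ∈ T} (- Om κ φ) • dl`, `c = Om κ φ₁` (as in
`step2` of `H254R3.IN.Idem`). For `T = β` (finite, `irr_finite`) and `φ' ∈ β`: `Om P φ' = 0`, so
`Om κ φ' * Om b φ' = u` with `u = - ∏_{φ ∈ β} (- Om κ φ)`, a unit of `O`: by `red_Om` all `Om κ φ`,
`φ ∈ β`, have the same residue. Take `f = u⁻¹ • conv b (blockCoeff β)`; `eq_of_Om` and
`Om_blockCoeff` give the claim. -/
def S_UNIT : Prop := ∀ (A : Type) [Group A] [Fintype A] (O : ValuationSubring ℂ)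
  (β : Set (A → ℂ)), IsBlock O β → ∀ κ : A → ℂ, IsCl κ → (∀ t, κ t ∈ O) → ∀ φ ∈ β,
  Om κ φ ∉ O.nonunits → ∃ f : A → ℂ, IsCl f ∧ (∀ t, f t ∈ O) ∧ conv κ f = blockCoeff β

/-- SMT. Brauer's second main theorem. `j` identifies `A` with `C_G(z)`, `β` is a block of `A` which does
not induce the block of `χ`. Hypotheses of the theorem to be proved: `S_ALG`, `S_POW`, `S_WORD`,
`S_UNIT` (as `t_SMT : S_ALG → S_POW → S_WORD → S_UNIT → S_SMT`). Proof. Let `ρ` be a representation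
with character `χ`, `c = omega χ x`, `κ₀ v = 1` if `j v` is conjugate to `x` and `0` otherwise, a class
function of `A`; `Om κ₀ φ` is the sum in the hypothesis, so `κ = c • dl - κ₀` has
`Om κ φ ∉ O.nonunits` and `S_UNIT` gives `f` with `conv κ f = e`, `e = blockCoeff β`. In the
following operators are `E(u) = ∑_t u t • ρ (j t)`. By `class_sum_scalar` `∑_{v ~ x} ρ v = c`, so for
`Δ = ∑ ρ v` over the conjugates `v` of `x` which are not in `j(A)`: `Δ = c - E(κ₀) = E(κ)` and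
`Δ E(f) = E(e)`. `E(e)` is idempotent (`conv e e = e` by `eq_of_Om`), so `(Δ E(f))^M = E(e)` for
`M ≥ 1`. The value in question is `α = tr(ρ(g) E(e))`, `g = j(z s)`. Let `M = p^n`. By `S_POW` with
the letters `(v, t)`, `v` a conjugate of `x` outside `j(A)`, `t ∈ A`, and `T (v, t) = f t • ρ(v j(t))`,
`α = ∑_w ∏ f(t_i) χ(g ∏ v_i j(t_i))`. Apply `S_WORD` with `π(v, t) = v j(t)`, `a(v, t) = f t`, `h = χ`,
`γ(v, t) = (g v g⁻¹, z s t (z s)⁻¹)`, `q = p^(n+1)`. The hypothesis: let `m > 0` be a period of `W`,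
`m = p^i m'`, `p ∤ m'`. If `i ≤ n` then `p^n m'` is a period, so `γ^m'` fixes all letters (`W (j + M) =
γ (W j)`), in particular `v = W(0).1` commutes with `g^m' = j(z)^m' j(s)^m'`, hence with its power
`j(z)` (`p ∤ m'`; take a suitable power), so `v ∈ j(A)`, a contradiction. So `p^(n+1)` divides `m` and
`α ∈ p^(n+1) O` for all `n`. `α` is algebraic (the values of characters are integral,
`IsIrr.isIntegral`, and `blockCoeff` is a rational combination), so `α = 0` by `S_ALG`. -/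
def S_SMT : Prop := ∀ (A G : Type) [Group A] [Fintype A] [Group G] [Fintype G] (j : A →* G)
  (p : ℕ) [Fact p.Prime] (O : ValuationSubring ℂ), Function.Injective j →
  (p : ℂ) ∈ O.nonunits → ∀ z : A, (∃ k, orderOf z = p ^ k) →
  (∀ g : G, Commute (j z) g ↔ g ∈ j.range) → ∀ β : Set (A → ℂ), IsBlock O β → ∀ φ ∈ β,
  ∀ χ : G → ℂ, IsIrr χ → ∀ x : G,
  omega χ x - ∑ᶠ v : {v : A // IsConj x (j v)}, φ v / φ 1 ∉ O.nonunits → ∀ s : A,
  ¬ p ∣ orderOf s → ∑ t : A, blockCoeff β t * χ (j (z * s * t)) = 0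

/-- SECT. Multiplication with a block idempotent respects the `p`-sections: if the class function `h`
vanishes on the elements `z x` with `x` `p`-regular commuting with `z`, so does its block component.
Hypotheses of the theorem to be proved: `S_ALG`, `S_POW`, `S_WORD`
(`t_SECT : S_ALG → S_POW → S_WORD → S_SECT`). Proof. `e = blockCoeff β` is an idempotent of
`MonoidAlgebra ℂ A` (or: `e = e^M` for convolution powers), so with `M = p^n` and `S_POW`
`α = ∑_t e(t) h(z s t) = ∑_w ∏ e(w_i) h(g w_0 ... w_{M-1})`, `g = z s`. Apply `S_WORD` with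
`Λ = A`, `π = id`, `a = e` (a class function with values in `O`), `γ` = conjugation by `g`,
`q = p^(n-r+1)` where `|A|_p` divides `p^r`, `n ≥ r`. The hypothesis: let `m` be a period of `W`,
we may take the minimal one (it divides every period; or argue with the gcd of `m` and `q₀ p^e M`,
which is a period too), `q₀ = orderOf s`, `p^e = orderOf z`. `q₀ p^e M` is a period, so
`m = p^i m'` with `m' ∣ q₀`. Assume `p^(n-r+1) ∤ m`, i.e. `i ≤ n - r`. Then `m ∣ q₀ M`, so `q₀ M` is a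
period and `W j = W(j + q₀ M) = g^q₀ W(j) g^(-q₀) = z^q₀ W(j) z^(-q₀)`; as `p ∤ q₀` all letters
commute with `z`. Let `Q(l) = W 0 W 1 ... W(l-1)`. By induction `Q(q M) = (Q(M) g)^q g^(-q)` for all
`q` and `Q(q₀ M) = Q(m)^(q₀ M / m)`, a `p^(n-i)`-th power with `n - i ≥ r`, hence `p`-regular. The
letters commute with `z`, so `(Q(M) g)^q₀ = (Q(M) s)^q₀ z^q₀`, and
`(Q(M) s)^q₀ = Q(q₀ M) g^q₀ z^(-q₀) = Q(q₀ M)` is `p`-regular; so `Q(M) s` and its conjugate
`x = s Q(M)` are `p`-regular, `x` commutes with `z`, and `h(g Q(M)) = h(z x) = 0`. So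
`α ∈ p^(n-r+1) O` for all `n ≥ r`, and `α` is algebraic, so `α = 0` by `S_ALG`. -/
def S_SECT : Prop := ∀ (A : Type) [Group A] [Fintype A] (p : ℕ) [Fact p.Prime]
  (O : ValuationSubring ℂ), (p : ℂ) ∈ O.nonunits → ∀ β : Set (A → ℂ), IsBlock O β →
  ∀ h : A → ℂ, IsCl h → (∀ x, IsIntegral ℤ (h x)) → ∀ z : A, (∃ k, orderOf z = p ^ k) →
  (∀ x, Commute z x → ¬ p ∣ orderOf x → h (z * x) = 0) → ∀ s : A, Commute z s →
  ¬ p ∣ orderOf s → ∑ t : A, blockCoeff β t * h (z * s * t) = 0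

/-- PRT. Every function is the sum of its block components. Proof: the blocks are finitely many sets
which partition `Irr(A)` (`irr_finite`; two blocks are equal or disjoint), so
`∑_β blockCoeff β = dl` by `Om_blockCoeff`, `Om_dl` and `eq_of_Om`. So
`h g = ∑_β ∑_t blockCoeff β t * h (g t)`. -/
def S_PRT : Prop := ∀ (A : Type) [Group A] [Fintype A] (O : ValuationSubring ℂ) (h : A → ℂ)
  (g : A), h g ≠ 0 → ∃ β : Set (A → ℂ), IsBlock O β ∧ ∑ t : A, blockCoeff β t * h (g * t) ≠ 0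

/-- BLKC. If `χ(z s) = ± ψ(z s)` for the `p`-regular elements of `C_G(z) ≤ H`, not always zero, then the
block of `ψ` induces the block of `χ`. Hypotheses of the theorem to be proved: `S_SMT`, `S_SECT`,
`S_PRT`. Proof. Let `A = C_G(z)` (a subgroup of `G`), `j` its inclusion into `G` and `j'` into `H`. By
`S_PRT` for `h t = χ(j(z t))` there are a block `β` of `A` and `s` with
`∑_t blockCoeff β t * χ(j(z s t)) ≠ 0`. The class function `h' t = χ(j(z t)) - ε ψ(j'(z t))` vanishes on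
`p`-regular elements, so `S_SECT` with `z = 1` gives that `∑_t blockCoeff β t * ψ(j'(z s t)) ≠ 0`. By
`S_SMT` for `G` and for `H` and a member `φ` of `β`: `omega χ x ≡ ∑_{v ∈ A, v ~ x} φ(v)/φ(1)` for all
`x ∈ G` and `omega ψ w ≡ ∑_{v ∈ A, v ~_H w} φ(v)/φ(1)` for all `w ∈ H`. Sum over the classes of `H`
in the class of `x` (`two_step` in `Q239.TC.TRN`, or `sum_pred`). -/
def S_BLKC : Prop := ∀ (G : Type) [Group G] [Fintype G] (H : Subgroup G) (p : ℕ) [Fact p.Prime]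
  (O : ValuationSubring ℂ), (p : ℂ) ∈ O.nonunits → ∀ z : H, (∃ k, orderOf z = p ^ k) →
  (∀ g : G, Commute (z : G) g → g ∈ H) → ∀ (χ : G → ℂ) (ψ : H → ℂ) (ε : ℤ), IsIrr χ →
  IsIrr ψ → (ε = 1 ∨ ε = -1) →
  (∀ s : H, Commute z s → ¬ p ∣ orderOf s → χ (z * s : H) = ε * ψ (z * s)) →
  (∃ s : H, Commute z s ∧ ¬ p ∣ orderOf s ∧ ψ (z * s) ≠ 0) → ∀ x : G,
  omega χ x - ∑ᶠ y : {y : H // IsConj x (y : G)}, ψ y / ψ 1 ∈ O.nonunits

/-- TRS. Induction of blocks in stages: if `χ` is induced from `ψ` then the central characters induced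
to `G` agree. Proof: `∑_{y ∈ L, y ~_G x} χ(y)/χ(1)` is the sum of `omega χ` over the classes of `L` in the
`G`-class of `x` (`sum_pred`), by assumption `omega χ w ≡ ∑_{v ∈ L', v ~_L w} ψ(v)/ψ(1)`. -/
def S_TRS : Prop := ∀ (Γ : Type) [Group Γ] [Fintype Γ] (O : ValuationSubring ℂ)
  (G L L' : Subgroup Γ), L ≤ G → L' ≤ L → ∀ χ : L → ℂ, IsIrr χ → ∀ ψ : L' → ℂ, IsIrr ψ →
  (∀ x : L, omega χ x - indc L L' ψ (x : Γ) ∈ O.nonunits) → ∀ x : Γ,
  indc G L χ x - indc G L' ψ x ∈ O.nonunits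

/-- GDT. Proof: `indc G L χ x` is the sum of `omega χ` over the classes of `L` in the `G`-class of
`x`. -/
def S_GDT : Prop := ∀ (Γ : Type) [Group Γ] [Fintype Γ] (O : ValuationSubring ℂ)
  (G L : Subgroup Γ), L ≤ G → ∀ χ : L → ℂ, IsIrr χ → ∀ x : Γ, indc G L χ x ∉ O.nonunits →
  ∃ y : L, (∃ g ∈ G, g * x * g⁻¹ = y) ∧ omega χ y ∉ O.nonunits

/-- DEF. Defects and residues of corresponding characters. Proof. If `y ∈ H` is conjugate to `x` in
`G` then in `H` (fusion hypothesis), so the sum is `omega ψ x`, and `C_G(x) ≤ H`, so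
`|x^G| |H| = |x^H| |G|`. Let `a = omega χ x`, `b = omega ψ x`, `a ≡ b` units. From `χ x = ε ψ x`:
`a n |H| = ε b m |G|`. Write `n |H| = p^i n'`, `m |G| = p^j m'` with `n'`, `m'` prime to `p`; `a`, `b`,
`n'`, `m'` are units of `O` and `p` is not, so `i = j`; then `a n' = ε b m'` and `n' ≡ ε m'` modulo
`p`. -/
def S_DEF : Prop := ∀ (G : Type) [Group G] [Fintype G] (H : Subgroup G) (p : ℕ) [Fact p.Prime]
  (O : ValuationSubring ℂ), (p : ℂ) ∈ O.nonunits → ∀ x : H,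
  (∀ g : G, g⁻¹ * x * g ∈ H → g ∈ H) → ∀ (χ : G → ℂ) (ψ : H → ℂ) (ε : ℤ), IsIrr χ →
  IsIrr ψ → (ε = 1 ∨ ε = -1) → χ x = ε * ψ x →
  omega χ (x : G) - ∑ᶠ y : {y : H // IsConj (x : G) (y : G)}, ψ y / ψ 1 ∈ O.nonunits →
  omega χ (x : G) ∉ O.nonunits → ∀ n m : ℕ, (n : ℂ) = χ 1 → (m : ℂ) = ψ 1 →
  omega ψ x ∉ O.nonunits ∧
  (Nat.card G).factorization p + m.factorization p =
    (Nat.card H).factorization p + n.factorization p ∧
  ((pPrimePart p (Nat.card G) * pPrimePart p m : ℕ) : ℤ) ≡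
    ε * ((pPrimePart p (Nat.card H) * pPrimePart p n : ℕ) : ℤ) [ZMOD p]

/-- LOC. The data are inherited by all subgroups `L` which contain a `p`-element `z` of
`K ∩ H` outside `N`, `K = N⟨y⟩`. `S_TI` (first part): if `w ∈ H ∩ K`, `w ∉ N` and `g⁻¹ w g ∈ H` then
`g ∈ H`. Proof. A `p`-subgroup `Q` of `G` with `z ∈ Q` is in `H` (`TD.D_le` in `Q17.TC.B1` for `y`; the
same proof with `z`: `Q` is in a Sylow subgroup `g P g⁻¹`, `g⁻¹ z g ∈ P ≤ H`, so `g ∈ H`), and
`N_G(Q) ≤ H` for every subgroup `Q ≤ H` with `z ∈ Q` (`g⁻¹ z g ∈ Q`). Let `P'` be a Sylow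
`p`-subgroup of `L` which contains `z`; its image in `G` is in `H`. `z^p ∈ N` and `[L, z] ≤ N` as in
`TD.sub` (`Q17.TC.B2`). `C_{N ∩ L}(x) ≤ H` for `x ∈ P' ∩ z N`: `n⁻¹ x n = x ∈ H`. `L = (N ∩ L)(H ∩ L)`:
Frattini for the normal subgroup `K ∩ L` of `L` and its Sylow subgroup `P' ∩ K`: for `g ∈ L` there is
`k ∈ K ∩ L` with `k g` normalising `P' ∩ K ∋ z`, so `k g ∈ H`; `K = N⟨z⟩` (`TD.KK_eq`), `k = n z^i` with
`n ∈ N ∩ L`, so `g = k⁻¹ (k g) ∈ (N ∩ L)(H ∩ L)`. -/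
def S_LOC : Prop := S_TI → ∀ (G : Type) [Group G] [Fintype G] (p : ℕ) [Fact p.Prime]
  (N : Subgroup G) [N.Normal] (y : G) (H : Subgroup G) (P : Sylow p G), TD p N y H P →
  ∀ (L : Subgroup G) (z : L), (z : G) ∈ H → (z : G) ∈ KK N y → (z : G) ∉ N →
  (∃ k, orderOf z = p ^ k) → ∃ P' : Sylow p L,
    TD p (N.comap L.subtype) z (H.comap L.subtype) P'

/-- CHI. Chains normalised by elements of the coset. `Has p N K M`: `M` contains a `p`-element of `K`
outside `N`. Proof. (1) `z ∈ Ns G σ`: `P ∩ G` is a Sylow subgroup of `G`, there is `g ∈ G` with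
`z' = g z g⁻¹ ∈ P ≤ H`; `z'` normalises the members `D` of the conjugate chain `g σ`, `D⟨z'⟩` is a
`p`-group which contains `z' ∈ H`, so it is in `H` (as in LOC). (2) the same with `g = 1`.
(3) Let `z ∈ Ns (G ⊓ H) σ`, `z' ∈ Ns (G ⊓ H) (e σ)` be as in `Has`; `e z e⁻¹ ∈ Ns G (e σ)`; let `Q` be a
Sylow subgroup of `Ns G (e σ)` which contains `z'`, `Q ≤ H`; there is `l ∈ Ns G (e σ)` with
`l e z e⁻¹ l⁻¹ ∈ Q ≤ H`, so `l e ∈ H` by `S_TI`, and `l e = e l'` with `l' = e⁻¹ l e ∈ Ns G σ`. (4) `Z` is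
normalised by `z ∈ H ∩ K`, `Z⟨z⟩ ≤ H`. -/
def S_CHI : Prop := S_TI → ∀ (Γ : Type) [Group Γ] [Fintype Γ] (p : ℕ) [Fact p.Prime]
  (N G : Subgroup Γ) [N.Normal] [G.Normal] (y : Γ) (H : Subgroup Γ) (P : Sylow p Γ),
  TD p N y H P → N ≤ G → y ∈ G → ∀ (Z : Subgroup Γ) [Z.Normal], Z ≤ G → IsPGroup p Z →
  (∀ σ, Ch p G Z σ → Has p N (KK N y) (Ns G σ) → ∃ g ∈ G,
    Ch p (G ⊓ H) Z (conjSub g '' σ) ∧ Has p N (KK N y) (Ns (G ⊓ H) (conjSub g '' σ))) ∧
  (∀ σ, Ch p G Z σ → Has p N (KK N y) (Ns (G ⊓ H) σ) → Ch p (G ⊓ H) Z σ) ∧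
  (∀ (σ : Set (Subgroup Γ)) (e : Γ), Has p N (KK N y) (Ns (G ⊓ H) σ) →
    Has p N (KK N y) (Ns (G ⊓ H) (conjSub e '' σ)) → ∃ l ∈ Ns G σ, e * l ∈ H) ∧ Z ≤ H

/-- CHS. Comparison of two alternating sums. `R`, `R'` are the relevant chains. Proof: the map from the
classes under `X'` of chains of `X'` with `R'` to the classes under `X` of chains of `X` with `R` is a
bijection (`finsum_mem_eq_of_bijOn` and `finsum_mem_support`/`finsum_mem_univ`; or both sums as sums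
over `Finset.univ.filter` with `Finset.sum_bij`); the lengths are invariant (`ncard_conj`), `w`, `w'` are
invariant and vanish on the other classes. `Quotient.mk (Quotient.out c) = c`. -/
def S_CHS : Prop := ∀ (Γ : Type) [Group Γ] [Fintype Γ] (p : ℕ) (X X' Z : Subgroup Γ)
  (w w' : Set (Subgroup Γ) → ℤ) (R R' : Set (Subgroup Γ) → Prop), X' ≤ X →
  (∀ σ, Ch p X Z σ → ∀ g ∈ X, w (conjSub g '' σ) = w σ) →
  (∀ σ, Ch p X' Z σ → ∀ g ∈ X', w' (conjSub g '' σ) = w' σ) →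
  (∀ σ, Ch p X Z σ → w σ ≠ 0 → R σ) → (∀ σ, Ch p X' Z σ → w' σ ≠ 0 → R' σ) →
  (∀ σ, Ch p X Z σ → R σ → ∃ g ∈ X, Ch p X' Z (conjSub g '' σ) ∧ R' (conjSub g '' σ)) →
  (∀ σ, Ch p X' Z σ → R' σ → Ch p X Z σ ∧ R σ ∧ w σ = w' σ) →
  (∀ σ, Ch p X' Z σ → R' σ → ∀ g ∈ X, Ch p X' Z (conjSub g '' σ) → R' (conjSub g '' σ) →
    ∃ h ∈ X', conjSub h '' σ = conjSub g '' σ) →
  altX p X Z w = altX p X' Z w'

/-- CON. Contractibility. `M ≥ X` normalises `Z` and the `p`-subgroup `Q` of `X` which is not contained in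
`Z`. Proof. `|X| altX = ∑_σ (-1)^|σ| |Ns X σ| W (Ns X σ) (Ns M σ)` over all chains (`orbit_sum` for the
action of `X` on the chains, as in `card_mul_gen` in `Q18.K.Cls`; the stabiliser of `σ` as a set fixes
the members since they are a chain). The involution `σ ↦ toggle (Z ⊔ Q) σ` (`toggle_toggle`,
`ncard_toggle` of `Y63.KR.Basic`; see `tog_facts` in `Q18.K.Chain`, there `Q` fixes the members, here
the members are in `X` and so normalise `Z ⊔ Q`) maps chains in `X` to chains in `X` and does not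
change `Ns X σ` and `Ns M σ`: `toggled (Z ⊔ Q) σ = lower (Z ⊔ Q) σ ⊔ (Z ⊔ Q)` is a `p`-subgroup of
`X`, it strictly contains `Z` as it contains `Q`, and it is normalised by every element of `M` which
normalises the members of `σ`; conversely use that `lower` is `⊥` or a member of both chains. -/
def S_CON : Prop := ∀ (Γ : Type) [Group Γ] [Fintype Γ] (p : ℕ) [Fact p.Prime]
  (X M Z Q : Subgroup Γ) (W : Subgroup Γ → Subgroup Γ → ℤ), X ≤ M →
  M ≤ Subgroup.normalizer (Z : Set Γ) → M ≤ Subgroup.normalizer (Q : Set Γ) → Z ≤ X → Q ≤ X →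
  IsPGroup p Z → IsPGroup p Q → ¬ Q ≤ Z →
  (∀ σ, Ch p X Z σ → ∀ g ∈ X, W (conjSub g (Ns X σ)) (conjSub g (Ns M σ)) = W (Ns X σ) (Ns M σ)) →
  altX p X Z (fun σ => W (Ns X σ) (Ns M σ)) = 0

/-- BRD. The Brauer homomorphism of a `p`-subgroup `D`. Proof. Let `C = C_G(D)`, `r(u)` the
restriction to `C` of a class function `u` of `G` with values in `O`. (1) `r(conv u v) ≡ conv (r u) (r v)`
pointwise modulo `O.nonunits`: `D` acts by conjugation on `G`, the function `x ↦ u x * v (x⁻¹ c)` is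
invariant for `c ∈ C`, the fixed points are `C` (`sum_fixed` in `Orbit`). (2) `e = r(blockCoeff B)`
satisfies `conv e e ≡ e`, `e x ∉ O.nonunits`. There is an irreducible `φ` of `C` with
`Om e φ ∉ O.nonunits`: otherwise by induction on a nonempty finite set `T` of irreducible characters of
`C` there is a class function `P_T` with values in `O`, `Om P_T φ' = ∏_{φ ∈ T} (Om e φ' - Om e φ)` for
all `φ'` and `P_T ≡ e` pointwise (`P_{T ∪ φ₁} = conv P_T (e - Om e φ₁ • dl)`); for `T = Irr(C)`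
all `Om P_T φ' = 0`, so `P_T = 0` (`eq_of_Om`) and `e x ∈ O.nonunits`. (3) Let `χ ∈ B`, `x ∈ G`,
`k = ind x`. By induction on a finite `T ⊆ B` there is a class function `P_T` of `G` with values in
`O`, `Om P_T χ' = ∏_{ψ ∈ T} (omega χ' x - omega ψ x)` for all irreducible `χ'` and
`Om (r P_T) φ ≡ ∏_{ψ ∈ T} (Om (r k) φ - omega ψ x)` (by (1) and `red_Om`, `Om_conv`). For `T = B`:
`conv P_B (blockCoeff B) = 0` (`eq_of_Om`), so `Om (r P_B) φ * Om e φ ≡ 0` by (1), and as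
`Om e φ` is a unit some factor `Om (r k) φ - omega ψ x` is in `O.nonunits`; all `omega ψ x`, `ψ ∈ B`,
are congruent, and `Om (r k) φ` is the sum in the claim. -/
def S_BRD : Prop := ∀ (G : Type) [Group G] [Fintype G] (p : ℕ) [Fact p.Prime]
  (O : ValuationSubring ℂ), (p : ℂ) ∈ O.nonunits → ∀ B : Set (G → ℂ), IsBlock O B →
  ∀ D : Subgroup G, IsPGroup p D → ∀ x ∈ Subgroup.centralizer (D : Set G),
  blockCoeff B x ∉ O.nonunits → ∃ φ : Subgroup.centralizer (D : Set G) → ℂ, IsIrr φ ∧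
    ∀ χ ∈ B, ∀ w : G, omega χ w -
      ∑ᶠ y : {y : Subgroup.centralizer (D : Set G) // IsConj w (y : G)}, φ y / φ 1 ∈ O.nonunits

/-- MMZ. A block with defect group `D` and `z ∈ Z(D)` sees the section of `z`. Hypotheses of the
theorem to be proved: `S_SECT`, `S_BRD`. Proof. Let `x` be as in `IsDefectGroup`. `x` is `p`-regular:
otherwise `x⁻¹ = z₁ s₁` with `z₁ ≠ 1` (`p_parts`), and `S_SECT` with `h = dl`, `z₁`, `s₁`
gives `blockCoeff B x = 0` (`dl(z₁ u) = 0` for `p`-regular `u`). Let `C = C_G(D)`, `φ` as in `S_BRD`,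
`R = N_G(D)`. (a) If `y ∈ C` is conjugate to `x` in `G` then in `R`: `D` is a Sylow subgroup of
`C_G(y)`, and so is `g D g⁻¹` if `y = g x g⁻¹`. (b) If `y ∈ C` is conjugate to `z x` in `G`,
`y = g z x g⁻¹ = z₁ x₁`, `z₁ = g z g⁻¹`, `x₁ = g x g⁻¹` powers of `y`, then `x₁ = n x n⁻¹` with
`n ∈ R` and `z₁ ∈ D` since `D` is a Sylow subgroup of `C_G(x₁)` and `D⟨z₁⟩` is a `p`-subgroup of it; so
`z₁ ∈ Z(D)`; `z` and `n⁻¹ z₁ n` in `Z(D)` are conjugate in `C_G(x)`, hence in `C_G(x) ∩ R` (Burnside: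
`D` and its conjugate are Sylow subgroups of the centraliser of `n⁻¹ z₁ n` in `C_G(x)`). So the
elements `y` are the `R`-conjugates of `z x`, and `y ↦ x₁` maps them onto the `R`-conjugates of
`x`, all fibres have the same number `m = |C_R(x) : C_R(x) ∩ C(z)|` of elements, prime to `p` as
`D ≤ C_R(x) ∩ C(z)` is a Sylow subgroup of `C_G(x)`. (c) `φ(z₁ u) = ν(z₁) φ(u)` for `z₁ ∈ Z(D)`,
`u ∈ C`, with `ν(z₁)` a root of unity of `p`-power order, so `ν(z₁) ≡ 1`. For fixed `z₁` the set of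
the `x₁` with `z₁ x₁` conjugate to `z x` is closed under conjugation in `C`, so `∑ φ(x₁)/φ(1)` over it
is in `O` (`sum_pred`). So `∑_y φ(y)/φ(1) ≡ m ∑_{x₁} φ(x₁)/φ(1)`, that is
`omega χ (z x) ≡ m omega χ x`, a unit. -/
def S_MMZ : Prop := ∀ (G : Type) [Group G] [Fintype G] (p : ℕ) [Fact p.Prime]
  (O : ValuationSubring ℂ), (p : ℂ) ∈ O.nonunits → ∀ B : Set (G → ℂ), IsBlock O B →
  ∀ D : Subgroup G, IsDefectGroup p O B D → ∀ z ∈ D, (∀ d ∈ D, Commute z d) → ∃ x : G,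
  Commute z x ∧ ¬ p ∣ orderOf x ∧ ∀ χ ∈ B, omega χ (z * x) ∉ O.nonunits

end Pool.Agent.Q17.DC
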