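import Pool.Agent.Q17.DC.Typ
import Pool.Agent.Q239.DC.CHS
import Pool.Agent.Q239.DC.CHI
import Pool.Agent.Q239.DC.LOC
import Pool.Agent.Q111.DC.ALG
import Pool.Agent.Q111.DC.POW
import Pool.Agent.Q111.DC.UNIT
import Pool.Agent.Q111.DC.PRT
import Pool.Agent.Q111.DC.TRS
import Pool.Agent.Q111.DC.GDT
import Pool.Agent.Q111.DC.DEF
import Pool.Agent.Q223.DC.WORD
import Pool.Agent.Q223.DC.CONT
import Pool.Agent.Q95.DC.SMT
import Pool.Agent.Q176.DC.SECT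
import Pool.Agent.Q154.DC.BLKC
import Pool.Agent.Q176.DC.BRD
import Pool.Agent.Q38.DC.EXI
import Pool.Agent.Q38.DC.DEC
import Pool.Agent.Q38.DC.TRP
import Pool.Agent.Q95.DC.MMZ

/-!
# All parts of project DC
-/

set_option autoImplicit false

namespace Pool.Agent.Q17.DC

theorem s_sect : S_SECT := Q176.DC.t_SECT Q111.DC.t_ALG Q111.DC.t_POW Q223.DC.t_WORD

theorem s_smt : S_SMT := Q95.DC.t_SMT Q111.DC.t_ALG Q111.DC.t_POW Q223.DC.t_WORD Q111.DC.t_UNIT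

theorem s_blkc : S_BLKC := Q154.DC.t_BLKC s_smt s_sect Q111.DC.t_PRT

theorem s_exc : S_EXC := Q38.DC.t_EXC Q38.DC.t_EXI Q111.DC.t_TRS

theorem s_dec : S_DEC := Q38.DC.t_DEC Q111.DC.t_TRS

theorem s_mmz : S_MMZ := Q95.DC.t_MMZ s_sect Q176.DC.t_BRD

/-- all parts -/
theorem prt : Prt where
  lo := Q239.DC.t_LOC
  bl := s_blkc
  ts := Q111.DC.t_TRS
  df := Q111.DC.t_DEF
  chi := Q239.DC.t_CHI
  chs := Q239.DC.t_CHS
  cnj := Q239.DC.t_CNJ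
  con := Q223.DC.t_CON
  gdt := Q111.DC.t_GDT
  exc := s_exc
  dec := s_dec
  trp := Q38.DC.t_TRP
  mmz := s_mmz

end Pool.Agent.Q17.DC
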