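import Pool.Agent.Q17.DC.E7
import Pool.Agent.Q239.DC.CNJ

/-!
# The comparison for groups (as types)
-/

set_option autoImplicit false

open scoped BigOperators Classical
open Pool.Agent.Helper884 Representation Pool.Agent.H254R3.IN Pool.Agent.Q17.TC Pool.Agent.Y63.KR
  Pool.Agent.Y62

noncomputable section

namespace Pool.Agent.Q17.DC

/-- the data: a prime, a valuation ring, subgroups `N`, `K`, `Z₁`, a function `mu` on `Z₁`,
propositions `a`, `b`, a property `T` of pairs (order, degree) and a property `U` of sets of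
automorphisms of `ℂ` -/
structure Pt (A : Type) [Group A] where
  p : ℕ
  O : ValuationSubring ℂ
  N : Subgroup A
  K : Subgroup A
  Z₁ : Subgroup A
  mu : A → ℂ
  a : Prop
  b : Prop
  T : ℕ → ℕ → Prop
  U : Set (ℂ ≃+* ℂ) → Prop

variable {A : Type} [Group A]

/-- restriction to a subgroup -/
def Pt.res (Q : Pt A) (X : Subgroup A) : Pt X :=
  ⟨Q.p, Q.O, Q.N.subgroupOf X, Q.K.subgroupOf X, Q.Z₁.subgroupOf X, fun x => Q.mu x, Q.a, Q.b,
    Q.T, Q.U⟩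

/-- the character `θ` of `L` is counted for the block `B` -/
structure Ct (Q : Pt A) (B : Set (A → ℂ)) (L : Subgroup A) (θ : L → ℂ) : Prop where
  irr : IsIrr θ
  ind : ∀ ψ ∈ B, ∀ x : A,
    omega ψ x - ∑ᶠ y : {y : L // IsConj x (y : A)}, θ y / θ 1 ∈ Q.O.nonunits
  god : Q.a → ∃ x : L, Sec Q.p Q.N Q.K (x : A) ∧ omega θ x ∉ Q.O.nonunits
  nvn : Q.b → ∃ x : L, Sec Q.p Q.N Q.K (x : A) ∧ θ x ≠ 0
  cen : ∀ c : L, (c : A) ∈ Q.Z₁ → θ c = θ 1 * Q.mu c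
  deg : ∃ n : ℕ, (n : ℂ) = θ 1 ∧ Q.T (Nat.card L) n
  gal : Q.U {τ | ∀ x, τ (θ x) = θ x}

/-- the number of these characters -/
def ct (Q : Pt A) (B : Set (A → ℂ)) (L : Subgroup A) : ℤ :=
  (Nat.card {θ : L → ℂ // Ct Q B L θ} : ℤ)

/-- the block `b` of the subgroup `X` induces the block `B` -/
def IndB (O : ValuationSubring ℂ) (B : Set (A → ℂ)) {X : Subgroup A} (b : Set (X → ℂ)) : Prop :=
  ∀ χ ∈ B, ∀ ψ ∈ b, ∀ x : A,
    omega χ x - ∑ᶠ y : {y : X // IsConj x (y : A)}, ψ y / ψ 1 ∈ O.nonunits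

lemma indc_top {L : Subgroup A} (θ : L → ℂ) (x : A) : indc ⊤ L θ x =
    ∑ᶠ y : {y : L // IsConj x (y : A)}, θ y / θ 1 := by
  unfold indc
  refine finsum_eq_of_bijective (fun y => ⟨y.1, by
    obtain ⟨g, -, hg⟩ := y.2
    exact isConj_iff.mpr ⟨g, hg⟩⟩) ⟨?_, ?_⟩ fun _ => rfl
  · intro y y' h
    have h1 := Subtype.ext_iff.mp h
    exact Subtype.ext h1
  · rintro ⟨y, hy⟩
    obtain ⟨g, hg⟩ := isConj_iff.mp hy
    exact ⟨⟨y, g, Subgroup.mem_top g, hg⟩, rfl⟩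

/-- the data in the other form -/
def toD (Q : Pt A) (χ₀ : A → ℂ) : Dt A :=
  ⟨Q.p, Q.O, ⊤, Q.N, Q.K, Q.Z₁, omega χ₀, Q.mu, Q.a, Q.b, Q.T,
    fun S => Q.U {τ | ((1 : A), τ) ∈ S}⟩

lemma stb_one {L : Subgroup A} {θ : L → ℂ} (hθ : IsIrr θ) :
    {τ | ((1 : A), τ) ∈ stb ⊤ L L θ} = {τ | ∀ x, τ (θ x) = θ x} := by
  ext τ
  constructor
  · rintro ⟨g, -, e, he, -, h⟩ x
    have h1 := h x (⟨e, he⟩ * x * (⟨e, he⟩ : L)⁻¹) rfl
    rw [hθ.conj] at h1
    exact h1.symm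
  · intro h
    refine ⟨1, Subgroup.mem_top _, 1, L.one_mem, (one_mul _).symm, fun x x' hx => ?_⟩
    have h1 : x' = x := Subtype.ext (by
      rw [hx]
      group)
    rw [h1]
    exact (h x).symm

lemma blk_iff {O : ValuationSubring ℂ} {B : Set (A → ℂ)} (hB : IsBlock O B) {χ₀ : A → ℂ}
    (h₀ : χ₀ ∈ B) (x : A) (c : ℂ) :
    (∀ ψ ∈ B, omega ψ x - c ∈ O.nonunits) ↔ omega χ₀ x - c ∈ O.nonunits := by
  refine ⟨fun h => h χ₀ h₀, fun h ψ hψ => ?_⟩
  obtain ⟨χ₁, h1, rfl⟩ := hB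
  have h2 := h₀.2 x
  have h3 := hψ.2 x
  have h4 : -(omega χ₀ x - omega χ₁ x) ∈ O.nonunits := by
    have := nu_mul (O.neg_mem _ O.one_mem) h2
    rwa [neg_one_mul] at this
  have h5 := nu_add (nu_add h3 h4) h
  have e1 : omega ψ x - omega χ₁ x + -(omega χ₀ x - omega χ₁ x) + (omega χ₀ x - c) =
      omega ψ x - c := by ring
  rwa [e1] at h5

lemma cn_iff_ct {Q : Pt A} {B : Set (A → ℂ)} (hB : IsBlock Q.O B) {χ₀ : A → ℂ} (h₀ : χ₀ ∈ B)
    {L : Subgroup A} {θ : L → ℂ} : Cn (toD Q χ₀) L L θ ↔ Ct Q B L θ := by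
  constructor
  · rintro ⟨h1, h2, h3, h4, h5, h6, h7⟩
    refine ⟨h1, fun ψ hψ x => ?_, h3, h4, h5, h6, ?_⟩
    · have h8 := h2 x (Subgroup.mem_top x)
      change omega χ₀ x - indc ⊤ L θ x ∈ Q.O.nonunits at h8
      rw [indc_top] at h8
      exact (blk_iff hB h₀ x _).mpr h8 ψ hψ
    · change Q.U {τ | ((1 : A), τ) ∈ stb ⊤ L L θ} at h7
      rwa [stb_one h1] at h7
  · rintro ⟨h1, h2, h3, h4, h5, h6, h7⟩
    refine ⟨h1, fun x _ => ?_, h3, h4, h5, h6, ?_⟩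
    · change omega χ₀ x - indc ⊤ L θ x ∈ Q.O.nonunits
      rw [indc_top]
      exact h2 χ₀ h₀ x
    · change Q.U {τ | ((1 : A), τ) ∈ stb ⊤ L L θ}
      rw [stb_one h1]
      exact h7

lemma kn_eq_ct {Q : Pt A} {B : Set (A → ℂ)} (hB : IsBlock Q.O B) {χ₀ : A → ℂ} (h₀ : χ₀ ∈ B)
    (L : Subgroup A) : kn (toD Q χ₀) L L = ct Q B L := by
  unfold kn ct
  congr 1
  exact Nat.card_congr (Equiv.subtypeEquivRight fun θ => cn_iff_ct hB h₀)

/-- invariance under conjugation -/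
lemma ct_conj [Fintype A] (cnj : S_CNJ) {Q : Pt A} {B : Set (A → ℂ)} (hB : IsBlock Q.O B)
    (hN : Q.N.Normal) (hK : Q.K.Normal) (hZ : ∀ c ∈ Q.Z₁, ∀ g : A, c * g = g * c)
    (L : Subgroup A) (g : A) : ct Q B (conjSub g L) = ct Q B L := by
  obtain ⟨χ₀, h₀⟩ := hB.nonempty
  rw [← kn_eq_ct hB h₀, ← kn_eq_ct hB h₀]
  exact cnj A (toD Q χ₀) (inferInstanceAs (⊤ : Subgroup A).Normal) hN hK
    (fun c hc g _ => hZ c hc g) L L le_top g (Subgroup.mem_top g)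

section transport

variable {X : Subgroup A}

lemma sec_res {p : ℕ} [hp : Fact p.Prime] {N K : Subgroup A} {x : X} :
    Sec p (N.subgroupOf X) (K.subgroupOf X) x ↔ Sec p N K (x : A) := by
  constructor
  · rintro ⟨z, s, rfl, hc, hz, hzN, ⟨k, hk⟩, hs⟩
    refine ⟨z, s, rfl, congrArg Subtype.val hc.eq, hz, hzN, ⟨k, ?_⟩, ?_⟩
    · rw [Subgroup.orderOf_coe, hk]
    · rw [Subgroup.orderOf_coe]
      exact hs
  · intro h
    obtain ⟨z, s, h1, h2, h3, h4, h5, h6⟩ := h.parts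
    exact ⟨z, s, h1, h2, h3, h4, h5, h6⟩

variable {L : Subgroup X} {L₀ : Subgroup A} (e : L ≃* L₀) (he : ∀ l, ((e l : L₀) : A) = (l : X))

include he

lemma indc_res (θ : L₀ → ℂ) (x : X) : indc X L₀ θ (x : A) =
    ∑ᶠ y : {y : L // IsConj x (y : X)}, θ (e y) / θ (e 1) := by
  unfold indc
  rw [map_one]
  symm
  refine finsum_eq_of_bijective (fun y => ⟨e y.1, by
    obtain ⟨g, hg⟩ := isConj_iff.mp y.2
    refine ⟨g, g.2, ?_⟩
    rw [he]
    exact congrArg Subtype.val hg⟩) ⟨?_, ?_⟩ fun _ => rfl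
  · intro y y' h
    exact Subtype.ext (e.injective (congrArg Subtype.val h))
  · rintro ⟨y, g, hg, hy⟩
    refine ⟨⟨e.symm y, isConj_iff.mpr ⟨⟨g, hg⟩, Subtype.ext ?_⟩⟩, Subtype.ext ?_⟩
    · change g * (x : A) * g⁻¹ = ((e.symm y : L) : X)
      rw [hy, ← he, e.apply_symm_apply]
    · exact e.apply_symm_apply y

lemma ct_res {Q : Pt A} (hp : Fact Q.p.Prime) {χ₀ : A → ℂ} {b : Set (X → ℂ)} (θ : L₀ → ℂ) :
    (IsIrr θ ∧ (∀ ψ ∈ b, ∀ x : X, omega ψ x - indc X L₀ θ (x : A) ∈ (toD Q χ₀).O.nonunits) ∧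
      Rst (toD Q χ₀) L₀ L₀ θ) ↔ Ct (Q.res X) b L fun l => θ (e l) := by
  have hom : ∀ l : L, omega (fun l => θ (e l)) l = omega θ (e l) := fun l =>
    Pool.Agent.Q239.DC.omega_equiv e θ l
  have hcard : Nat.card L₀ = Nat.card L := (Nat.card_congr e.toEquiv).symm
  have hsec : ∀ l : L, Sec (Q.res X).p (Q.res X).N (Q.res X).K (l : X) ↔
      Sec Q.p Q.N Q.K ((e l : L₀) : A) := by
    intro l
    rw [he]
    exact @sec_res _ _ X Q.p hp Q.N Q.K _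
  have hes : ∀ x : L₀, ((e.symm x : L) : A) = x := by
    intro x
    rw [← he, e.apply_symm_apply]
  constructor
  · rintro ⟨h1, h2, h3, h4, h5, h6, h7⟩
    refine ⟨irr_comp h1 e, fun ψ hψ x => ?_, fun ha => ?_, fun hb => ?_, fun c hc => ?_, ?_, ?_⟩
    · have h8 := h2 ψ hψ x
      rw [indc_res e he] at h8
      exact h8
    · obtain ⟨x, hx, hx'⟩ := h3 ha
      refine ⟨e.symm x, (hsec _).mpr ?_, ?_⟩
      · rw [e.apply_symm_apply]
        exact hx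
      · rw [hom, e.apply_symm_apply]
        exact hx'
    · obtain ⟨x, hx, hx'⟩ := h4 hb
      refine ⟨e.symm x, (hsec _).mpr ?_, ?_⟩
      · rw [e.apply_symm_apply]
        exact hx
      · rw [e.apply_symm_apply]
        exact hx'
    · have h8 := h5 (e c) (by
        rw [he]
        exact hc)
      rw [he] at h8
      rw [h8, map_one]
      rfl
    · obtain ⟨n, hn, hT⟩ := h6
      refine ⟨n, by rw [map_one, hn], ?_⟩
      rw [hcard] at hT
      exact hT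
    · change Q.U {τ | ((1 : A), τ) ∈ stb ⊤ L₀ L₀ θ} at h7
      rw [stb_one h1] at h7
      have h8 : {τ : ℂ ≃+* ℂ | ∀ x, τ (θ (e x)) = θ (e x)} = {τ | ∀ x, τ (θ x) = θ x} := by
        ext τ
        constructor
        · intro h x
          have := h (e.symm x)
          rwa [e.apply_symm_apply] at this
        · intro h x
          exact h _
      change Q.U {τ : ℂ ≃+* ℂ | ∀ x, τ (θ (e x)) = θ (e x)}
      rw [h8]
      exact h7
  · rintro ⟨h1, h2, h3, h4, h5, h6, h7⟩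
    have hirr : IsIrr θ := by
      have h8 := irr_comp h1 e.symm
      have h9 : (fun h => θ (e (e.symm h))) = θ := by
        funext x
        rw [e.apply_symm_apply]
      rwa [h9] at h8
    refine ⟨hirr, fun ψ hψ x => ?_, fun ha => ?_, fun hb => ?_, fun c hc => ?_, ?_, ?_⟩
    · rw [indc_res e he]
      exact h2 ψ hψ x
    · obtain ⟨x, hx, hx'⟩ := h3 ha
      rw [hom] at hx'
      exact ⟨e x, (hsec _).mp hx, hx'⟩
    · obtain ⟨x, hx, hx'⟩ := h4 hb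
      exact ⟨e x, (hsec _).mp hx, hx'⟩
    · have h8 := h5 (e.symm c) (by
        change ((e.symm c : L) : A) ∈ Q.Z₁
        rw [hes]
        exact hc)
      rw [e.apply_symm_apply, map_one] at h8
      rw [h8]
      change θ 1 * Q.mu ((e.symm c : L) : A) = θ 1 * Q.mu c
      rw [hes]
    · obtain ⟨n, hn, hT⟩ := h6
      rw [map_one] at hn
      refine ⟨n, hn, ?_⟩
      rw [hcard]
      exact hT
    · change Q.U {τ | ((1 : A), τ) ∈ stb ⊤ L₀ L₀ θ}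
      rw [stb_one hirr]
      have h8 : {τ : ℂ ≃+* ℂ | ∀ x, τ (θ (e x)) = θ (e x)} = {τ | ∀ x, τ (θ x) = θ x} := by
        ext τ
        constructor
        · intro h x
          have := h (e.symm x)
          rwa [e.apply_symm_apply] at this
        · intro h x
          exact h _
      rw [← h8]
      exact h7

lemma kb_res {Q : Pt A} (hp : Fact Q.p.Prime) {χ₀ : A → ℂ} {b : Set (X → ℂ)} :
    kb (toD Q χ₀) b L₀ L₀ = ct (Q.res X) b L := by
  unfold kb ct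
  congr 1
  refine Nat.card_congr (Equiv.subtypeEquiv (Equiv.arrowCongr e.symm.toEquiv (Equiv.refl ℂ)) ?_)
  intro θ
  exact ct_res e he hp θ

end transport

lemma conj_map {X : Subgroup A} (g : X) (P : Subgroup X) :
    conjSub (g : A) (P.map X.subtype) = (conjSub g P).map X.subtype := by
  ext w
  rw [mem_conjSub, Subgroup.mem_map, Subgroup.mem_map]
  constructor
  · rintro ⟨v, hv, hvw⟩
    refine ⟨g * v * g⁻¹, ?_, ?_⟩
    · rw [mem_conjSub]
      have e1 : g⁻¹ * (g * v * g⁻¹) * g = v := by group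
      rw [e1]
      exact hv
    · change (g : A) * (v : A) * (g : A)⁻¹ = w
      have h3 : (v : A) = (g : A)⁻¹ * w * g := hvw
      rw [h3]
      group
  · rintro ⟨v, hv, rfl⟩
    rw [mem_conjSub] at hv
    exact ⟨_, hv, rfl⟩

lemma conj_map' {X : Subgroup A} (g : X) (σ : Set (Subgroup X)) :
    conjSub (g : A) '' (Subgroup.map X.subtype '' σ) =
      Subgroup.map X.subtype '' (conjSub g '' σ) := by
  rw [← Set.image_comp, ← Set.image_comp]
  congr 1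
  exact funext fun P => conj_map g P

lemma Ns_map {X : Subgroup A} (σ : Set (Subgroup X)) :
    Ns X (Subgroup.map X.subtype '' σ) = (Ns ⊤ σ).map X.subtype := by
  ext x
  unfold Ns
  rw [Subgroup.mem_inf, Subgroup.mem_map]
  constructor
  · rintro ⟨hx, h⟩
    rw [mem_chainStabilizer] at h
    refine ⟨⟨x, hx⟩, ⟨Subgroup.mem_top _, ?_⟩, rfl⟩
    change (⟨x, hx⟩ : X) ∈ chainStabilizer σ
    rw [mem_chainStabilizer]
    intro P hP
    have h1 := h _ ⟨P, hP, rfl⟩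
    have h2 := conj_map (⟨x, hx⟩ : X) P
    change conjSub x (P.map X.subtype) = _ at h2
    rw [h2] at h1
    exact Subgroup.map_injective X.subtype_injective h1
  · rintro ⟨w, ⟨-, hw⟩, rfl⟩
    refine ⟨w.2, ?_⟩
    change w ∈ chainStabilizer σ at hw
    rw [mem_chainStabilizer] at hw ⊢
    rintro _ ⟨P, hP, rfl⟩
    have h1 := hw P hP
    change conjSub (w : A) (P.map X.subtype) = _
    rw [conj_map, h1]

lemma chain_map {p : ℕ} {X Z : Subgroup A} {σ : Set (Subgroup A)} (h : Ch p X Z σ) :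
    ∃ τ : Set (Subgroup X), σ = Subgroup.map X.subtype '' τ := by
  refine ⟨{P | P.map X.subtype ∈ σ}, ?_⟩
  ext P
  constructor
  · intro hP
    have h1 : (P.subgroupOf X).map X.subtype = P := Subgroup.map_subgroupOf_eq_of_le (h.le P hP)
    refine ⟨P.subgroupOf X, ?_, h1⟩
    change (P.subgroupOf X).map X.subtype ∈ σ
    rw [h1]
    exact hP
  · rintro ⟨Q, hQ, rfl⟩
    exact hQ

/-- all parts -/
structure Prt : Prop where
  lo : S_LOC
  bl : S_BLKC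
  ts : S_TRS
  df : S_DEF
  chi : S_CHI
  chs : S_CHS
  cnj : S_CNJ
  con : S_CON
  gdt : S_GDT
  exc : S_EXC
  dec : S_DEC
  trp : S_TRP
  mmz : S_MMZ

/-- the hypotheses, for a group -/
structure Pl (Q : Pt A) [Fintype A] [Q.N.Normal] (y : A) (H : Subgroup A) (P : Sylow Q.p A)
    (Z : Subgroup A) : Prop where
  d : TD Q.p Q.N y H P
  hK : Q.K = KK Q.N y
  hO : (Q.p : ℂ) ∈ Q.O.nonunits
  hZn : Z.Normal
  hZp : IsPGroup Q.p Z
  hZ : ∀ c ∈ Q.Z₁, ∀ g : A, c * g = g * c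

/-- conditions on the characters -/
structure Pc (Q : Pt A) : Prop where
  hab : Q.a ∨ Q.b
  hT : Q.a ∨ ∀ m n, Q.T m n
  hT' : ∀ k n l m : ℕ, k ≠ 0 → n ≠ 0 → l ≠ 0 → m ≠ 0 →
    k.factorization Q.p + m.factorization Q.p =
    l.factorization Q.p + n.factorization Q.p → (∃ δ : ℤ, (δ = 1 ∨ δ = -1) ∧
      ((pPrimePart Q.p k * pPrimePart Q.p m : ℕ) : ℤ) ≡
        δ * ((pPrimePart Q.p l * pPrimePart Q.p n : ℕ) : ℤ) [ZMOD Q.p]) → (Q.T k n ↔ Q.T l m)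

variable [Fintype A] {Q : Pt A} [hN : Q.N.Normal] [hp : Fact Q.p.Prime] {y : A}
  {H : Subgroup A} {P : Sylow Q.p A} {Z : Subgroup A}

omit hp in
/-- the hypotheses in the other form -/
lemma Pl.gl (h : Pl Q y H P Z) (c : Pc Q) (χ₀ : A → ℂ) :
    @Gl A _ _ (toD Q χ₀) hN y H P Z :=
  have hN' : (toD Q χ₀).N.Normal := hN
  { d := h.d
    hK := h.hK
    hO := h.hO
    hNG := le_top
    hyG := Subgroup.mem_top _
    hG := inferInstanceAs (⊤ : Subgroup A).Normal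
    hZn := h.hZn
    hZG := le_top
    hZp := h.hZp
    hZ := fun c hc g _ => h.hZ c hc g
    hab := c.hab
    hT := c.hT
    hT' := c.hT' }

lemma Pl.Z_le (h : Pl Q y H P Z) (r : Prt) : Z ≤ H := by
  have hZn := h.hZn
  exact (r.chi parts2.ti A Q.p Q.N ⊤ y H P h.d le_top (Subgroup.mem_top _) Z le_top h.hZp).2.2.2

/-- **comparison of the alternating sums for groups** -/
theorem Pl.main (h : Pl Q y H P Z) (c : Pc Q) (r : Prt) {B : Set (A → ℂ)}
    (hB : IsBlock Q.O B) : altX Q.p ⊤ Z (fun σ => ct Q B (Ns ⊤ σ)) =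
      ∑ᶠ b : {b : Set (H → ℂ) // IsBlock Q.O b ∧ IndB Q.O B b},
        altX Q.p (⊤ : Subgroup H) (Z.subgroupOf H) (fun σ => ct (Q.res H) b.1 (Ns ⊤ σ)) := by
  obtain ⟨χ₀, h₀⟩ := hB.nonempty
  have hgl := h.gl c χ₀
  have hKn : Q.K.Normal := by
    rw [h.hK]
    exact h.d.nK
  have hZn := h.hZn
  have hZH := h.Z_le r
  have h1 := @Gl.alt_dec A _ _ (toD Q χ₀) hN hp y H P Z hgl r.lo r.bl r.ts r.df r.chi r.chs
    r.cnj r.exc r.dec H (top_inf_eq H).symm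
  have h2 : altX Q.p ⊤ Z (fun σ => ct Q B (Ns ⊤ σ)) =
      altX (toD Q χ₀).p (toD Q χ₀).G Z (wn (toD Q χ₀) (toD Q χ₀).G ⊤) :=
    altX_congr fun σ _ => (kn_eq_ct hB h₀ _).symm
  rw [h2, h1]
  -- the two forms of the sum for one block
  have key : ∀ (b : Set (H → ℂ)) (σ : Set (Subgroup H)),
      kb (toD Q χ₀) b (Ns H (Subgroup.map H.subtype '' σ)) (Ns H (Subgroup.map H.subtype '' σ)) =
        ct (Q.res H) b (Ns ⊤ σ) := by
    intro b σ
    rw [Ns_map]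
    exact kb_res ((Ns ⊤ σ).equivMapOfInjective H.subtype H.subtype_injective) (fun _ => rfl) hp
  have h3 : ∀ b : Bs (toD Q χ₀) H,
      altX (toD Q χ₀).p H Z (fun σ => kb (toD Q χ₀) b.1 (Ns H σ) (Ns H σ)) =
        altX Q.p (⊤ : Subgroup H) (Z.subgroupOf H) (fun σ => ct (Q.res H) b.1 (Ns ⊤ σ)) := by
    intro b
    refine (r.trp A Q.p H Z hZH (fun σ => kb (toD Q χ₀) b.1 (Ns H σ) (Ns H σ)) ?_).trans ?_
    · intro σ hσ g hg
      obtain ⟨τ, rfl⟩ := chain_map hσ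
      have h4 := conj_map' (⟨g, hg⟩ : H) τ
      change conjSub g '' (Subgroup.map H.subtype '' τ) = _ at h4
      change kb (toD Q χ₀) b.1 (Ns H (conjSub g '' (Subgroup.map H.subtype '' τ)))
        (Ns H (conjSub g '' (Subgroup.map H.subtype '' τ))) = kb (toD Q χ₀) b.1
        (Ns H (Subgroup.map H.subtype '' τ)) (Ns H (Subgroup.map H.subtype '' τ))
      rw [h4, key, key, Ns_conj (Subgroup.le_normalizer (Subgroup.mem_top _))]
      exact ct_conj r.cnj (Q := Q.res H) b.2.1 (hN.subgroupOf H) (hKn.subgroupOf H)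
        (fun c hc g => Subtype.ext (h.hZ c hc g)) _ _
    · exact altX_congr fun σ _ => key b.1 σ
  rw [finsum_congr h3]
  -- the index sets
  have h5 : ∀ b : Set (H → ℂ), (IsBlock (toD Q χ₀).O b ∧ ∀ ψ ∈ b, ∀ x ∈ (toD Q χ₀).G,
      (toD Q χ₀).lam x - indc (toD Q χ₀).G H ψ x ∈ (toD Q χ₀).O.nonunits) ↔
      IsBlock Q.O b ∧ IndB Q.O B b := by
    intro b
    refine and_congr_right fun _ => ?_
    constructor
    · intro h6 χ hχ ψ hψ x
      have h7 := h6 ψ hψ x (Subgroup.mem_top x)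
      change omega χ₀ x - indc ⊤ H ψ x ∈ Q.O.nonunits at h7
      rw [indc_top] at h7
      exact (blk_iff hB h₀ x _).mpr h7 χ hχ
    · intro h6 ψ hψ x _
      change omega χ₀ x - indc ⊤ H ψ x ∈ Q.O.nonunits
      rw [indc_top]
      exact h6 χ₀ h₀ ψ hψ x
  exact finsum_comp_equiv (Equiv.subtypeEquivRight h5) (f := fun
    b : {b : Set (H → ℂ) // IsBlock Q.O b ∧ IndB Q.O B b} =>
      altX Q.p (⊤ : Subgroup H) (Z.subgroupOf H) (fun σ => ct (Q.res H) b.1 (Ns ⊤ σ)))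

/-- the sum vanishes if `H` has a normal `p`-subgroup not contained in `Z` -/
theorem Pl.zero (h : Pl Q y H P Z) (c : Pc Q) (r : Prt) {B : Set (A → ℂ)}
    (hB : IsBlock Q.O B) {E : Subgroup H} (hE : E.Normal) (hEp : IsPGroup Q.p E)
    (hEZ : ¬ E ≤ Z.subgroupOf H) : altX Q.p ⊤ Z (fun σ => ct Q B (Ns ⊤ σ)) = 0 := by
  obtain ⟨χ₀, h₀⟩ := hB.nonempty
  have hgl := h.gl c χ₀
  have h2 : altX Q.p ⊤ Z (fun σ => ct Q B (Ns ⊤ σ)) =
      altX (toD Q χ₀).p (toD Q χ₀).G Z (wn (toD Q χ₀) (toD Q χ₀).G ⊤) :=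
    altX_congr fun σ _ => (kn_eq_ct hB h₀ _).symm
  rw [h2]
  refine @Gl.alt_zero' A _ _ (toD Q χ₀) hN hp y H P Z hgl r.lo r.bl r.ts r.df r.chi r.chs
    r.cnj r.con (E.map H.subtype) (hEp.map _) le_top ?_ ?_ ?_
  · rintro _ ⟨x, -, rfl⟩
    exact x.2
  · intro x hx
    rw [Subgroup.mem_normalizer_iff]
    intro w
    constructor
    · rintro ⟨v, hv, rfl⟩
      exact ⟨⟨x, hx⟩ * v * (⟨x, hx⟩ : H)⁻¹, hE.conj_mem v hv _, rfl⟩
    · rintro ⟨v, hv, hvw⟩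
      refine ⟨(⟨x, hx⟩ : H)⁻¹ * v * ⟨x, hx⟩, ?_, ?_⟩
      · have := hE.conj_mem v hv (⟨x, hx⟩ : H)⁻¹
        rwa [inv_inv] at this
      · change x⁻¹ * (v : A) * x = w
        have h3 : (v : A) = x * w * x⁻¹ := hvw
        rw [h3]
        group
  · intro h3
    apply hEZ
    intro x hx
    exact h3 ⟨x, hx, rfl⟩

/-- the block `B` sees the sections -/
def good (Q : Pt A) (B : Set (A → ℂ)) : Prop :=
  ∃ x, Sec Q.p Q.N Q.K x ∧ ∀ χ ∈ B, omega χ x ∉ Q.O.nonunits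

lemma good_god (gdt : S_GDT) (hKn : Q.K.Normal) {B : Set (A → ℂ)} (hB : IsBlock Q.O B)
    (hg : good Q B) {L : Subgroup A} {θ : L → ℂ} (hθ : IsIrr θ)
    (hi : ∀ ψ ∈ B, ∀ x : A,
      omega ψ x - ∑ᶠ y : {y : L // IsConj x (y : A)}, θ y / θ 1 ∈ Q.O.nonunits) :
    ∃ x : L, Sec Q.p Q.N Q.K (x : A) ∧ omega θ x ∉ Q.O.nonunits := by
  obtain ⟨χ₀, h₀⟩ := hB.nonempty
  obtain ⟨x, hx, hx'⟩ := hg
  refine @good_cn A _ _ (toD Q χ₀) hp gdt hN hKn x (Subgroup.mem_top x) hx (hx' χ₀ h₀) L le_top θ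
    hθ fun v _ => ?_
  change omega χ₀ v - indc ⊤ L θ v ∈ Q.O.nonunits
  rw [indc_top]
  exact hi χ₀ h₀ v

lemma good_res (gdt : S_GDT) (hKn : Q.K.Normal) {B : Set (A → ℂ)} (hB : IsBlock Q.O B)
    (hg : good Q B) {X : Subgroup A} {b : Set (X → ℂ)} (hb : IsBlock Q.O b)
    (hi : IndB Q.O B b) : good (Q.res X) b := by
  obtain ⟨ψ₀, h₀⟩ := hb.nonempty
  obtain ⟨x, hx, hx'⟩ := good_god gdt hKn hB hg (hb.irr ψ₀ h₀) (fun χ hχ v => hi χ hχ ψ₀ h₀ v)
  refine ⟨x, (@sec_res _ _ X Q.p hp Q.N Q.K _).mpr hx, fun ψ hψ => ?_⟩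
  intro h1
  apply hx'
  have h2 := (blk_iff hb h₀ x 0).mp (fun φ hφ => ?_)
  · rwa [sub_zero] at h2
  · have h3 := (blk_iff hb hψ x 0).mpr (by rwa [sub_zero]) φ hφ
    exact h3

omit hN in
/-- a block with a defect group whose centre meets the coset sees the sections -/
lemma good_of_defect (mmz : S_MMZ) (hO : (Q.p : ℂ) ∈ Q.O.nonunits) {B : Set (A → ℂ)}
    (hB : IsBlock Q.O B) {D : Subgroup A} (hD : IsDefectGroup Q.p Q.O B D) {z : A} (hz : z ∈ D)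
    (hzc : ∀ d ∈ D, Commute z d) (hzK : z ∈ Q.K) (hzN : z ∉ Q.N) : good Q B := by
  obtain ⟨x, h1, h2, h3⟩ := mmz A Q.p Q.O hO B hB D hD z hz hzc
  refine ⟨z * x, ⟨z, x, rfl, h1, hzK, hzN, ?_, h2⟩, h3⟩
  obtain ⟨w, ⟨P', hP'⟩, -⟩ := hD
  have hDp : IsPGroup Q.p D := by
    rw [hP']
    exact P'.isPGroup'.map _
  obtain ⟨k, hk⟩ := hDp ⟨z, hz⟩
  have hk' : z ^ Q.p ^ k = 1 := congrArg Subtype.val hk
  obtain ⟨j, -, hj⟩ := (Nat.dvd_prime_pow hp.out).mp (orderOf_dvd_of_pow_eq_one hk')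
  exact ⟨j, hj⟩

end Pool.Agent.Q17.DC
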