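import Pool.Agent.Q17.DC.Num
import Pool.Agent.Q229.DC.MMX
import Pool.Agent.Q261.DC.BRX
import Pool.Agent.Q261.DC.FMT
import Pool.Agent.Q229.DC.DZP
import Pool.Agent.Q66.DC.UNQ

/-!
# All parts of project DC, second group
-/

set_option autoImplicit false

namespace Pool.Agent.Q17.DC

theorem s_mmx : S_MMX := Q229.DC.t_MMX Q111.DC.t_UNIT

theorem s_brx : S_BRX := Q261.DC.t_BRX

theorem s_dzp : S_DZP := Q229.DC.t_DZP s_smt Q111.DC.t_PRT Q111.DC.t_TRS s_mmx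

theorem s_fmt : S_FMT := Q261.DC.t_FMT s_mmx s_brx s_sect

theorem s_unq : S_UNQ := Q66.DC.t_UNQ Q17.TC.parts.ti s_mmx s_fmt Q38.DC.t_EXI Q111.DC.t_TRS

/-- all parts -/
theorem prt2 : Prt2 where
  mmx := s_mmx
  dzp := s_dzp
  unq := s_unq

end Pool.Agent.Q17.DC
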