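import Pool.Agent.Q17.DC.All2

/-!
# The block of `H`
-/

set_option autoImplicit false

open scoped BigOperators Classical
open Pool.Agent.Helper884 Representation Pool.Agent.H254R3.IN Pool.Agent.Q17.TC Pool.Agent.Y63.KR
  Pool.Agent.Y62

noncomputable section

namespace Pool.Agent.Q17.DC

variable {A : Type} [Group A] [Fintype A] {Q : Pt A} [hN : Q.N.Normal] [hp : Fact Q.p.Prime]
  {y : A} {H : Subgroup A} {P : Sylow Q.p A} {Z : Subgroup A}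

/-- no character is counted if no defect group meets the coset -/
theorem ct_zero_of_not (hO : (Q.p : ℂ) ∈ Q.O.nonunits) (hK : Q.K.Normal) (c : Pc Q)
    {B : Set (A → ℂ)} (hB : IsBlock Q.O B) (hm : ¬ Mts Q B) (L : Subgroup A) :
    ct Q B L = 0 := by
  unfold ct
  have : IsEmpty {θ : L → ℂ // Ct Q B L θ} := by
    refine ⟨fun ⟨θ, hθ⟩ => hm ?_⟩
    have h1 : ∃ x : L, Sec Q.p Q.N Q.K (x : A) ∧ θ x ≠ 0 := by
      rcases c.hab with ha | hb
      · obtain ⟨x, hx, ho⟩ := hθ.god ha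
        refine ⟨x, hx, fun h0 => ho ?_⟩
        unfold omega
        rw [h0, mul_zero, zero_div]
        exact Q.O.nonunits.zero_mem
      · exact hθ.nvn hb
    obtain ⟨x, hx, hne⟩ := h1
    exact mts_of prt2 hO hN hK hB hθ.irr hθ.ind hx hne
  rw [Nat.card_of_isEmpty]
  rfl

omit [Fintype A] hN hp in
theorem altX_zero_of {Z : Subgroup A} {w : Set (Subgroup A) → ℤ} (h : ∀ σ, w σ = 0) (p : ℕ) :
    altX p ⊤ Z w = 0 := by
  unfold altX
  simp only [h, mul_zero, finsum_zero]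

/-- **the block of `H`** -/
theorem Pl.pack (h : Pl Q y H P Z) {B : Set (A → ℂ)} (hB : IsBlock Q.O B) (hm : Mts Q B) :
    ∃ b : Set (H → ℂ), IsBlock Q.O b ∧ IndB Q.O B b ∧
      (∃ E : Subgroup H, IsDefectGroup Q.p Q.O b E ∧ IsDefectGroup Q.p Q.O B (E.map H.subtype) ∧
        ∃ z ∈ E, (z : A) ∈ Q.K ∧ (z : A) ∉ Q.N) ∧
      ∀ b' : Set (H → ℂ), IsBlock Q.O b' → IndB Q.O B b' →
        (∃ E : Subgroup H, IsDefectGroup Q.p Q.O b' E ∧
          ∃ z ∈ E, (z : A) ∈ Q.K ∧ (z : A) ∉ Q.N) → b' = b := by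
  obtain ⟨b, hb, hi, hm'⟩ := h.exists_block prt2 hB hm
  refine ⟨b, hb, hi, ?_, fun b' hb' hi' hm'' => h.unique_block prt2 hB hb' hi' hm'' hb hi hm'⟩
  obtain ⟨E, hE, z, hz, hzK, hzN⟩ := hm'
  refine ⟨E, hE, ?_, z, hz, hzK, hzN⟩
  refine (prt2.unq A Q.p Q.O h.hO Q.N y H P h.d B hB).2.2 ⟨b, hb, fun χ hχ ψ hψ x =>
    hi χ hχ ψ hψ x⟩ E hE ⟨z, hz, ?_, hzN⟩
  rw [← h.hK]
  exact hzK

end Pool.Agent.Q17.DC
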