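import Pool.Agent.Q17.DC.Stm2

/-!
# Further statements for project DC: defect groups and Brauer's first main theorem
-/

set_option autoImplicit false

open scoped BigOperators Classical
open Pool.Agent.H254R3.IN Pool.Agent.Y63.KR Pool.Agent.Q17.TC

noncomputable section

namespace Pool.Agent.Q17.DC

/-- the blocks of the subgroup `L` of `A` which induce the block `B` of `A` -/
def Blw {A : Type} [Group A] (O : ValuationSubring ℂ) (B : Set (A → ℂ)) (L : Subgroup A) : Type :=
  {β : Set (L → ℂ) // IsBlock O β ∧ ∀ χ ∈ B, ∀ θ ∈ β, ∀ x : A,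
    omega χ x - ∑ᶠ y : {y : L // IsConj x (y : A)}, θ y / θ 1 ∈ O.nonunits}

/-- MMX. Existence of defect groups and the min-max theorem. Hypothesis of the theorem to be proved:
`S_UNIT` (`t_MMX : S_UNIT → S_MMX`). Proof. For a subgroup `Q` let `J Q` be the set of the class
functions `u` with values in `O` such that `u y ∉ O.nonunits` implies that all `p`-subgroups `R` with
`∀ r ∈ R, Commute r y` are conjugate into `Q`. (1) If `u ∈ J Q` and `w` is a class function with values
in `O` then `conv w u ∈ J Q`: let `conv w u v ∉ O.nonunits` and let `R` centralise `v`; `R` acts on `G`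
by conjugation, `x ↦ red (w x * u (x⁻¹ v))` is invariant, so (`sum_fixed`, as in `rs_conv` of
`Q176.DC.BRD`) there is `x ∈ C_G(R)` with `u (x⁻¹ v) ∉ O.nonunits`, and `R` centralises `x⁻¹ v`.
(2) Let `omega χ x ∉ O.nonunits` for a `χ ∈ B` (then for all, `IsBlock.red_eq`) and let `D` be a Sylow
`p`-subgroup of `C_G(x)`. Then `blockCoeff B ∈ J D`: `ind x ∈ J D` by Sylow's theorem in `C_G(x)`, and
`S_UNIT` with `κ = ind x` (`Om_ind`) gives `f` with `conv (ind x) f = blockCoeff B`; class functions
commute for `conv` (`eq_of_Om`, `Om_conv`). (3) Existence: `Om (blockCoeff B) χ = 1` for `χ ∈ B`, so by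
`red_Om` there is `x` with `blockCoeff B x ∉ O.nonunits` and `omega χ x ∉ O.nonunits`; take a Sylow
`p`-subgroup of `C_G(x)`. (4) The first property of `D` is (2). Second property: by (2) for `y`,
`blockCoeff B ∈ J D'` for a Sylow `p`-subgroup `D'` of `C_G(y)`; `D` centralises the element `x` of the
definition of a defect group and `blockCoeff B x ∉ O.nonunits`, so `D` is conjugate into `D'`. -/
def S_MMX : Prop := ∀ (G : Type) [Group G] [Fintype G] (p : ℕ) [Fact p.Prime]
  (O : ValuationSubring ℂ), (p : ℂ) ∈ O.nonunits → ∀ B : Set (G → ℂ), IsBlock O B →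
  (∃ D : Subgroup G, IsDefectGroup p O B D) ∧
  ∀ D : Subgroup G, IsDefectGroup p O B D →
    (∀ y : G, blockCoeff B y ∉ O.nonunits → ∀ R : Subgroup G, IsPGroup p R →
      (∀ r ∈ R, Commute r y) → ∃ g : G, ∀ r ∈ R, g * r * g⁻¹ ∈ D) ∧
    ∀ y : G, ∀ χ ∈ B, omega χ y ∉ O.nonunits → ∃ g : G, ∀ d ∈ D, Commute (g * d * g⁻¹) y

/-- BRX. The Brauer homomorphism of a block idempotent. Let `N = N_G(D)`, `C = C_G(D) ≤ N`. Proof.
(1) For a class function `u` of `G` with values in `O` and `θ ∈ Irr(N)` let `h_θ u = Om (rs N u) θ`.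
As in `t_EXI` (`Q38.DC.EXI`) `red O (h_θ u)` depends only on the residues of `u` on `C`, it is
multiplicative in `u`, and if `θ` is in a block which induces the block `B'` of `G` then
`red O (h_θ (blockCoeff B'))= 1` and `red O (h_θ (blockCoeff B)) = 0` for all other blocks `B`
(`h_θ (ind x) ≡ omega χ x` for `χ ∈ B'` and `blockCoeff B = ∑_x blockCoeff B x * ind x` over
representatives of classes, so `red O (h_θ (blockCoeff B)) = red O (Om (blockCoeff B) χ)`); by `S_EXI`
every `θ` lies in such a block. (2) If `u`, `v` are class functions of `N` with values in `O`, both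
idempotent modulo `O.nonunits` (`red O (conv u u x) = red O (u x)`), and
`red O (Om u θ) = red O (Om v θ)` for all `θ ∈ Irr(N)`, then `red O (u x) = red O (v x)` for all `x`:
`conv u (dl - v)` is idempotent modulo `O.nonunits` with all `red O (Om _ θ) = 0`, so it is zero
modulo `O.nonunits` by `exists_char` in `Q176.DC.BRD`; the same for `conv v (dl - u)`. (3) Let
`u x = blockCoeff B x` for `x ∈ C` and `0` for the other `x ∈ N`; it is idempotent modulo
`O.nonunits` by `rs_conv`, and `red O (Om u θ) = red O (h_θ (blockCoeff B))`. Let `v` be the sum of the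
`blockCoeff β` over the blocks `β` of `N` which induce `B`. (2) gives the first claim. (4) Second claim:
(2) for `v = blockCoeff β` and `u` = its restriction to `C`, extended by zero (idempotent modulo
`O.nonunits` by `rs_conv` in the group `N`; same `red O (Om _ θ)` by `lam_zero`). Hypothesis of the
theorem to be proved: `S_EXI` (`t_BRX : S_EXI → S_BRX`) or none. -/
def S_BRX : Prop := ∀ (G : Type) [Group G] [Fintype G] (p : ℕ) [Fact p.Prime]
  (O : ValuationSubring ℂ), (p : ℂ) ∈ O.nonunits → ∀ D : Subgroup G, IsPGroup p D →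
  (∀ B : Set (G → ℂ), IsBlock O B → ∀ x : Subgroup.normalizer (D : Set G),
    (∀ d ∈ D, Commute d (x : G)) →
    blockCoeff B (x : G) - ∑ᶠ β : Blw O B (Subgroup.normalizer (D : Set G)),
      blockCoeff β.1 x ∈ O.nonunits) ∧
  ∀ β : Set (Subgroup.normalizer (D : Set G) → ℂ), IsBlock O β →
    ∀ x : Subgroup.normalizer (D : Set G), blockCoeff β x ∉ O.nonunits →
    ∀ d ∈ D, Commute d (x : G)

/-- FMT. Brauer's first main theorem. Hypotheses of the theorem to be proved: `S_MMX`, `S_BRX`,
`S_SECT` (`t_FMT : S_MMX → S_BRX → S_SECT → S_FMT`). Proof. Let `N = N_G(D)`; write `β → B` if `β`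
induces `B`. (0) `blockCoeff B x ∉ O.nonunits` implies that `x` is `p`-regular (`S_SECT` with
`h = dl`, as at the beginning of the proof of `t_MMZ` in `Q95.DC.MMZ`), and the same for `N`.
(1) Let `β → B`, `x ∈ C_G(D)` `p`-regular and `D` a Sylow `p`-subgroup of `C_G(x)`; then
`omega χ x ≡ omega θ x` for `χ ∈ B`, `θ ∈ β` (`lam_eq` in `H254R3.IN.Compare2`; `kk D x` is the index of
`D` in `C_G(x)`). (2) Existence: let `x` be as in the definition of the defect group `D` of `B`. By
`S_BRX` there is `β → B` with `blockCoeff β x ∉ O.nonunits`; `omega θ x ≡ omega χ x`, and `D` is a Sylow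
`p`-subgroup of `C_N(x)`, so `D` (as a subgroup of `N`) is a defect group of `β`. (3) Uniqueness: let
`β → B`, `β' → B` have the defect group `D`. If `blockCoeff β y ∉ O.nonunits` then `D` centralises `y`
(`S_BRX`) and every `p`-subgroup of `C_N(y)` is conjugate in `N` into `D` (`S_MMX`), so it is in `D`;
so `D` is a Sylow `p`-subgroup of `C_N(y)`, and of `C_G(y)` (if `D` is properly contained in a
`p`-subgroup `R` of `C_G(y)` then `D < N_R(D) ≤ C_N(y)`). By (1) `omega θ y ≡ omega χ y ≡ omega θ' y`.
So `Om (blockCoeff β) θ' ≡ Om (blockCoeff β) θ = 1` (`red_Om`), and `θ' ∈ β` by `Om_blockCoeff`; blocks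
with a common member are equal. (4) The second claim: let `β → B` have the defect group `D`, `x ∈ N` as
in the definition; as in (3) `D` is a Sylow `p`-subgroup of `C_G(x)`, and
`omega χ x ≡ omega θ x ∉ O.nonunits`. If `β' → B` and `blockCoeff β' x ∉ O.nonunits` then
`omega θ' x ≡ omega χ x`, so `β'` has the defect group `D` and `β' = β` by (3). So by `S_BRX`
`blockCoeff B x ≡ blockCoeff β x ∉ O.nonunits`. -/
def S_FMT : Prop := ∀ (G : Type) [Group G] [Fintype G] (p : ℕ) [Fact p.Prime]
  (O : ValuationSubring ℂ), (p : ℂ) ∈ O.nonunits → ∀ D : Subgroup G, IsPGroup p D →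
  ∀ B : Set (G → ℂ), IsBlock O B →
  (IsDefectGroup p O B D → ∃ β, IsBrauerCorrespondent p O D B β) ∧
  (∀ β, IsBrauerCorrespondent p O D B β → IsDefectGroup p O B D) ∧
  ∀ β β', IsBrauerCorrespondent p O D B β → IsBrauerCorrespondent p O D B β' → β = β'

/-- DZP. A block which is induced from a character not vanishing at an element with `p`-part `z` has `z`
in its defect groups, up to conjugation. Hypotheses of the theorem to be proved: `S_SMT`, `S_PRT`,
`S_TRS`, `S_MMX` (`t_DZP : S_SMT → S_PRT → S_TRS → S_MMX → S_DZP`). Proof. Let `C = C_L(z)`, a subgroup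
of the group `L`, `j` its inclusion. By `S_PRT` for `h t = θ(j (z t))` there is a block `β` of `C` with
`∑_t blockCoeff β t * θ(j (z s t)) ≠ 0`; let `φ ∈ β`. By `S_SMT` (for `C` and `L`)
`omega θ x ≡ ∑_{v ∈ C, v ~ x} φ v / φ 1` for all `x ∈ L`, so by `S_TRS` (for `A`, `L` and the image of
`C` in `A`), or directly, for `χ ∈ B` and all `x ∈ A`
`omega χ x ≡ ∑_{v ∈ C, v ~ x} φ v / φ 1`. As `Om (blockCoeff B) χ = 1`, that is
`∑_x blockCoeff B x * omega χ x = 1` (sum over the classes of `A`), the sum
`∑_{v ∈ C} blockCoeff B v * φ v / φ 1` is `1` modulo `O.nonunits`; it is `Om` of a class function of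
`C`, so by `red_Om` there is `v ∈ C` with `blockCoeff B v ∉ O.nonunits`. The subgroup generated by `z`
is a `p`-group and centralises `v`; use the first property in `S_MMX`. -/
def S_DZP : Prop := ∀ (A : Type) [Group A] [Fintype A] (p : ℕ) [Fact p.Prime]
  (O : ValuationSubring ℂ), (p : ℂ) ∈ O.nonunits → ∀ (L : Subgroup A) (θ : L → ℂ), IsIrr θ →
  ∀ z s : L, Commute z s → (∃ k, orderOf z = p ^ k) → ¬ p ∣ orderOf s → θ (z * s) ≠ 0 →
  ∀ B : Set (A → ℂ), IsBlock O B → (∀ χ ∈ B, ∀ x : A,
    omega χ x - ∑ᶠ y : {y : L // IsConj x (y : A)}, θ y / θ 1 ∈ O.nonunits) →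
  ∀ D : Subgroup A, IsDefectGroup p O B D → ∃ g : A, g * z * g⁻¹ ∈ D

/-- UNQ. The blocks of `H` with a defect group meeting the coset, and the blocks of `G`. Hypotheses of
the theorem to be proved: `S_TI`, `S_MMX`, `S_FMT`, `S_EXI`, `S_TRS`
(`t_UNQ : S_TI → S_MMX → S_FMT → S_EXI → S_TRS → S_UNQ`). `b → B`: `b` induces `B`. Proof. (0) If
`D ≤ H` is a subgroup of `G` with an element `z ∈ KK N y`, `z ∉ N`, then `N_G(D) ≤ H` (`S_TI`; see
`hNN` in the proof of `Pool.Agent.Results.MP_7f1e7e_al.RelativeBlocks`); then `N_H(D)` and `N_G(D)`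
are isomorphic (`eN`, `lft` in `Q17.TC`), blocks, their defect groups and the property to induce a given
block are transported (`tb`, `tb_block` etc. in `Q222.TC.TBC`); for a block `b₀` of `N_G(D)` and
`b → B`: if `b₀` induces `b` then it induces `B` (`S_TRS`, or see `induced` statements in
`Q17.TC`). (1) Third claim: let `b → B` have the defect group `D ≤ H` with `z` as above. By `S_FMT` for
`H` there is a Brauer correspondent `β` of `b` in `N_H(D) = N_G(D)`; it induces `B`, so `S_FMT` for `G`
shows that `D` is a defect group of `B`. (2) First claim: by `S_FMT` for `G` there is a Brauer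
correspondent `β` of `B` in `N_G(D) = N_H(D)`; by `S_EXI` (for `H`, `D`) its characters induce a block
`b` of `H`, `b → B` by `S_TRS`, and `S_FMT` for `H` shows that `D` is a defect group of `b`. (3) Second
claim: by (1) `D` and `D'` (as subgroups of `G`) are defect groups of `B`, so conjugate in `G`: by
`S_MMX` each is conjugate into the other (let `x` be as in the definition for `D`;
`blockCoeff B x ∉ O.nonunits` and `D` centralises `x`). `D' = g D g⁻¹` and `g z g⁻¹ ∈ D' ≤ H` with
`z ∈ D ≤ H`, so `g ∈ H` by `S_TI`. So `D` is a defect group of `b'` too (conjugate the element `x` of the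
definition). The Brauer correspondents of `b` and `b'` in `N_H(D) = N_G(D)` are both Brauer
correspondents of `B`, so they are equal by `S_FMT` for `G`, and the block of `H` induced by a given
character is unique: `b = b'`. -/
def S_UNQ : Prop := ∀ (G : Type) [Group G] [Fintype G] (p : ℕ) [Fact p.Prime]
  (O : ValuationSubring ℂ), (p : ℂ) ∈ O.nonunits → ∀ (N : Subgroup G) [N.Normal] (y : G)
  (H : Subgroup G) (P : Sylow p G), TD p N y H P → ∀ B : Set (G → ℂ), IsBlock O B →
  (∀ D : Subgroup G, D ≤ H → IsDefectGroup p O B D → (∃ z ∈ D, z ∈ KK N y ∧ z ∉ N) →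
    ∃ b : Blw O B H, IsDefectGroup p O b.1 (D.subgroupOf H)) ∧
  (∀ (b b' : Blw O B H) (D D' : Subgroup H), IsDefectGroup p O b.1 D →
    IsDefectGroup p O b'.1 D' → (∃ z ∈ D, (z : G) ∈ KK N y ∧ (z : G) ∉ N) →
    (∃ z ∈ D', (z : G) ∈ KK N y ∧ (z : G) ∉ N) → b = b') ∧
  ∀ (b : Blw O B H) (D : Subgroup H), IsDefectGroup p O b.1 D →
    (∃ z ∈ D, (z : G) ∈ KK N y ∧ (z : G) ∉ N) → IsDefectGroup p O B (D.map H.subtype)

end Pool.Agent.Q17.DC
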