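import Pool.Agent.Q17.DC.LB5
import Pool.Agent.Q176.DC.EXZ
import Pool.Agent.Q176.DC.IBL
import Pool.Agent.Q261.DC.SPA
import Pool.Agent.Q261.DC.SPB

/-!
# All parts of project DC, third group
-/

set_option autoImplicit false

open scoped Classical
open Pool.Agent.H254R3.IN Pool.Agent.Q17.TC

namespace Pool.Agent.Q17.DC

theorem s_exz : S_EXZ := Q176.DC.EXZ.t_EXZ

theorem s_ibl : S_IBL := Q176.DC.IBL.t_IBL Q17.TC.parts.ti s_mmx s_fmt Q38.DC.t_EXI Q111.DC.t_TRS

theorem s_spa : S_SPA := Q261.DC.t_SPA s_sect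

theorem s_spb : S_SPB := Q261.DC.t_SPB s_sect s_smt

theorem leq (A : Type) [Group A] [Fintype A] : LEQ A :=
  leq_all s_spa s_spb s_exz s_ibl _ A rfl

end Pool.Agent.Q17.DC
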