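import Pool.Agent.Q17.DC.All3
import Pool.Agent.Q17.DC.Stm5
import Pool.Agent.Q176.DC.DZV
import Pool.Agent.Q261.DC.WTS
import Pool.Agent.Q14.DC.NDW
import Pool.Agent.Q14.DC.NDL

/-!
# All parts of project DC, fourth group
-/

set_option autoImplicit false

open scoped Classical
open Pool.Agent.H254R3.IN Pool.Agent.Q17.TC

namespace Pool.Agent.Q17.DC

theorem s_dzv : S_DZV := Q176.DC.DZV.t_DZV s_sect

theorem s_wts : S_WTS := Q261.DC.t_WTS Q17.TC.parts.ti s_dzv Q38.DC.t_EXI Q111.DC.t_TRS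

theorem s_ndw : S_NDW := Q14.DC.t_NDW s_dzp s_dzv

theorem s_ndl : S_NDL := Q14.DC.t_NDL s_sect s_dzv

/-- the weights -/
theorem weq {A : Type} [Group A] [Fintype A] {p : ℕ} [hp : Fact p.Prime]
    {O : ValuationSubring ℂ} {N : Subgroup A} [hN : N.Normal] {y : A} {H : Subgroup A}
    {P : Sylow p A} (d : TD p N y H P) (hO : (p : ℂ) ∈ O.nonunits) {B : Set (A → ℂ)}
    (hB : IsBlock O B) (hg : Gd p O N (KK N y) B) {b : Set (H → ℂ)} (hb : IsBlock O b)
    (hi : IndB O B b) : nW p O B = nW p O b := by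
  have hgb := gd_res d hB hg hb hi
  have hKn : (KK N y).Normal := d.nK
  refine s_wts A p O hO N y H P d B hB b hb hi ?_ ?_ fun b' hb' hi' =>
    uniq d hO hB hg hb' hi' hb hi
  · intro L θ hθ h
    obtain ⟨χ₀, hχ₀⟩ := hB.nonempty
    exact has_of_ind L.subtype hN hKn hg hχ₀ hθ (h χ₀ hχ₀)
  · intro L θ hθ h
    obtain ⟨χ₀, hχ₀⟩ := hb.nonempty
    obtain ⟨x, hx, hx'⟩ := has_of_ind L.subtype (hN.subgroupOf H) (hKn.subgroupOf H) hgb hχ₀ hθ
      (h χ₀ hχ₀)
    exact ⟨x, (@sec_res _ _ H p hp N (KK N y) _).mp hx, hx'⟩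

/-- the weight conjecture for blocks with a normal defect group -/
theorem awc_normal (H : Type) [Group H] [Fintype H] (p : ℕ) [Fact p.Prime]
    (O : ValuationSubring ℂ) (hO : (p : ℂ) ∈ O.nonunits) (b : Set (H → ℂ)) (hb : IsBlock O b)
    (D : Subgroup H) (hD : IsDefectGroup p O b D) (hn : D.Normal) : lB p b = nW p O b := by
  rw [s_ndl H p O hO b hb D hD hn, s_ndw H p O hO b hb D hD hn]

end Pool.Agent.Q17.DC
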