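import Pool.Agent.Q17.DC.Defs

/-!
# The characters which are counted
-/

set_option autoImplicit false

open scoped BigOperators Classical
open Pool.Agent.H254R3.IN Pool.Agent.Y63.KR

noncomputable section

namespace Pool.Agent.Q17.DC

/-- the data: a prime `p`, a valuation ring, subgroups `G`, `N ≤ K`, a subgroup `Z₁` (of the centre of
`G`), functions `lam` (central character of a block of `G`) and `mu` (character of `Z₁`), propositions
`a`, `b`, a property `T` of pairs (order, degree), a property `S` of stabilisers -/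
structure Dt (Γ : Type) [Group Γ] where
  p : ℕ
  O : ValuationSubring ℂ
  G : Subgroup Γ
  N : Subgroup Γ
  K : Subgroup Γ
  Z₁ : Subgroup Γ
  lam : Γ → ℂ
  mu : Γ → ℂ
  a : Prop
  b : Prop
  T : ℕ → ℕ → Prop
  S : Set (Γ × (ℂ ≃+* ℂ)) → Prop

variable {Γ : Type} [Group Γ]

/-- the stabiliser of `χ` in `R × Aut(ℂ)`, up to `G` -/
def stb (G R L : Subgroup Γ) (χ : L → ℂ) : Set (Γ × (ℂ ≃+* ℂ)) :=
  {w | ∃ g ∈ G, ∃ e ∈ R, w.1 = g * e ∧
    ∀ x x' : L, (x' : Γ) = e * x * e⁻¹ → χ x' = w.2 (χ x)}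

/-- the character `χ` of `L` is counted -/
structure Cn (D : Dt Γ) (L R : Subgroup Γ) (χ : L → ℂ) : Prop where
  irr : IsIrr χ
  blk : ∀ x ∈ D.G, D.lam x - indc D.G L χ x ∈ D.O.nonunits
  god : D.a → ∃ x : L, Sec D.p D.N D.K (x : Γ) ∧ omega χ x ∉ D.O.nonunits
  nvn : D.b → ∃ x : L, Sec D.p D.N D.K (x : Γ) ∧ χ x ≠ 0
  cen : ∀ c : L, (c : Γ) ∈ D.Z₁ → χ c = χ 1 * D.mu c
  deg : ∃ n : ℕ, (n : ℂ) = χ 1 ∧ D.T (Nat.card L) n
  stb : D.S (stb D.G R L χ)

/-- the number of the characters which are counted -/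
def kn (D : Dt Γ) (L R : Subgroup Γ) : ℤ := (Nat.card {χ : L → ℂ // Cn D L R χ} : ℤ)

/-- CNJ. The number is invariant under conjugation. Proof. `L ≤ G`. The isomorphism
`c : conjSub g L ≃* L`, `c x = g⁻¹ x g`, gives a bijection `χ ↦ χ ∘ c` of the characters which are
counted. `irr`: `irr_comp` (`Q17.TC`) or directly. `blk`: `indc G (conjSub g L) (χ ∘ c) x =
indc G L χ x` since `g ∈ G` (`finsum_eq_of_bijective`). `god`, `nvn`: the conjugate of an element with
`Sec` has `Sec` (`N`, `K` are normal), `omega (χ ∘ c) x = omega χ (c x)`. `cen`: elements of `Z₁`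
commute with `g`. `deg`: the orders of `L` and `conjSub g L` are equal. `stb`: the sets
`stb G (conjSub g R) (conjSub g L) (χ ∘ c)` and `stb G R L χ` are equal: the elements of `conjSub g R`
are `g e g⁻¹`, `e ∈ R`, and `u (g e g⁻¹) = (u g (e g⁻¹ e⁻¹)) e` with `u g (e g⁻¹ e⁻¹) ∈ G` if
`u ∈ G`, as `G` is normal; the condition on `χ ∘ c` for `g e g⁻¹` is the condition on `χ` for
`e`. -/
def S_CNJ : Prop := ∀ (Γ : Type) [Group Γ] [Fintype Γ] (D : Dt Γ), D.G.Normal → D.N.Normal →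
  D.K.Normal → (∀ c ∈ D.Z₁, ∀ g ∈ D.G, c * g = g * c) → ∀ L R : Subgroup Γ, L ≤ D.G →
  ∀ g ∈ D.G, kn D (conjSub g L) (conjSub g R) = kn D L R

end Pool.Agent.Q17.DC
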