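import Pool.Agent.Q17.TC.B3
import Pool.Agent.Y63.KR.Basic

/-!
# Definitions for project DC (alternating sums over chains, relative to a normal subgroup)
-/

set_option autoImplicit false

open scoped BigOperators Classical
open Pool.Agent.H254R3.IN Pool.Agent.Y63.KR

noncomputable section

namespace Pool.Agent.Q17.DC

variable {Γ : Type} [Group Γ]

/-- the `p`-part of `g` is in `K` outside `N` -/
def Sec (p : ℕ) (N K : Subgroup Γ) (g : Γ) : Prop :=
  ∃ z s : Γ, g = z * s ∧ Commute z s ∧ z ∈ K ∧ z ∉ N ∧ (∃ k, orderOf z = p ^ k) ∧ ¬ p ∣ orderOf s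

/-- `M` contains a `p`-element of `K` outside `N` -/
def Has (p : ℕ) (N K M : Subgroup Γ) : Prop :=
  ∃ z ∈ M, z ∈ K ∧ z ∉ N ∧ ∃ k, orderOf z = p ^ k

/-- the value at the class sum of `x` in `G` of the central character induced from the one of the
character `χ` of the subgroup `L` of `G` -/
def indc (G L : Subgroup Γ) (χ : L → ℂ) (x : Γ) : ℂ :=
  ∑ᶠ y : {y : L // ∃ g ∈ G, g * x * g⁻¹ = y}, χ y / χ 1

/-- `σ` is (the set of the members of) a chain of `p`-subgroups of `X` which strictly contain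
`Z` -/
structure Ch (p : ℕ) (X Z : Subgroup Γ) (σ : Set (Subgroup Γ)) : Prop where
  chain : IsChain (· ≤ ·) σ
  isp : ∀ P ∈ σ, IsPGroup p P
  le : ∀ P ∈ σ, P ≤ X
  lt : ∀ P ∈ σ, Z < P

/-- the stabiliser in `X` -/
def Ns (X : Subgroup Γ) (σ : Set (Subgroup Γ)) : Subgroup Γ := X ⊓ chainStabilizer σ

/-- conjugacy of chains under `X` -/
def chX (p : ℕ) (X Z : Subgroup Γ) : Setoid {σ : Set (Subgroup Γ) // Ch p X Z σ} where
  r σ τ := ∃ g ∈ X, τ.1 = conjSub g '' σ.1
  iseqv :=
    { refl := fun σ => ⟨1, X.one_mem, by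
        have : (conjSub (1 : Γ)) = id := funext conjSub_one
        rw [this, Set.image_id]⟩
      symm := by
        rintro σ τ ⟨g, hX, hg⟩
        refine ⟨g⁻¹, X.inv_mem hX, ?_⟩
        rw [hg, ← Set.image_comp]
        have : conjSub g⁻¹ ∘ conjSub g = id := by
          funext P
          change conjSub g⁻¹ (conjSub g P) = P
          rw [← conjSub_mul, inv_mul_cancel, conjSub_one]
        rw [this, Set.image_id]
      trans := by
        rintro σ τ ρ ⟨g, hX, hg⟩ ⟨h, hX', hh⟩
        refine ⟨h * g, X.mul_mem hX' hX, ?_⟩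
        rw [hh, hg, ← Set.image_comp]
        congr 1
        exact (funext fun P => conjSub_mul h g P).symm }

/-- the alternating sum over representatives of the conjugacy classes under `X` of the chains -/
def altX (p : ℕ) (X Z : Subgroup Γ) (w : Set (Subgroup Γ) → ℤ) : ℤ :=
  ∑ᶠ c : Quotient (chX p X Z), (-1) ^ (Quotient.out c).1.ncard * w (Quotient.out c).1

end Pool.Agent.Q17.DC
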