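import Pool.Agent.Q17.TC.CG
import Pool.Agent.Q17.DC.Defs

/-!
# Exact equality of the values on the elements `z s`, `z ∈ K` outside `N`, `s` `p`-regular
-/

set_option autoImplicit false

open scoped BigOperators Classical
open Pool.Agent.Helper884 Representation Pool.Agent.H254R3.IN Pool.Agent.Y62 Pool.Agent.Q21.CO
open Pool.Agent.Q17.TC
open Pool.Agent.Q239.TC (op op_apply dT_eq dT_mul dT_smul dT_one dT_ne)

noncomputable section

namespace Pool.Agent.Q17.DC

section core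

variable {A A' : Type} [Group A] [Group A'] {W W' : Type}
  [AddCommGroup W] [Module ℂ W] [AddCommGroup W'] [Module ℂ W']
  {p : ℕ} {j : A' →* A} {B : Subgroup A} {R : Representation ℂ A W}
  {R' : Representation ℂ A' W'} {ε : ℤ}

lemma dT_scalar (V : Submodule ℂ (W' →ₗ[ℂ] W)) (u : W ≃ₗ[ℂ] W) (u' : W' ≃ₗ[ℂ] W') (c : ℂ)
    (h : ∀ v ∈ V, op u u' v = c • v) : dT V u u' = c ^ Module.finrank ℂ V := by
  have h' : ∀ v ∈ V, op u u' v ∈ V := fun v hv => by
    rw [h v hv]
    exact V.smul_mem c hv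
  rw [dT_eq V _ _ h']
  have h1 : (op u u').restrict h' = c • LinearMap.id := by
    ext v : 2
    exact h v v.2
  rw [h1, LinearMap.det_smul, LinearMap.det_id, mul_one]

variable [Fintype A'] [FiniteDimensional ℂ W] [FiniteDimensional ℂ W']

/-- inner pairs of lifts are canonical up to a sign -/
lemma inner (d : AD p j B R R' ε) (hom : S_HOM) : ∃ δ : ℤ, (δ = 1 ∨ δ = -1) ∧
    ∀ x : A', j x ∉ B → ∀ (a : MulAut A) (a' : MulAut A'), (∀ z, a z = j x * z * (j x)⁻¹) →
      (∀ z, a' z = x * z * x⁻¹) → ∀ (u : W ≃ₗ[ℂ] W) (u' : W' ≃ₗ[ℂ] W'),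
      (∀ w, u w = (δ : ℂ) • R (j x) w) → (∀ w, u' w = R' x w) → CP p j B R R' a a' u u' := by
  obtain ⟨hfin, hcard⟩ := d.card_Ln
  obtain ⟨t, ht⟩ := d.dim hom
  have hp := d.hp
  have : Fact p.Prime := ⟨hp⟩
  have hB := d.nB
  have : Fintype (Ln j B) := Fintype.ofFinite _
  -- `t` is a natural number
  obtain ⟨l₀⟩ : Nonempty (Ln j B) := by
    rw [← Finite.card_pos_iff, hcard]
    have := hp.two_le
    omega
  obtain ⟨m, hm⟩ : ∃ m : ℕ, ∀ l : Ln j B, Module.finrank ℂ (Va j R R' l.1) = m := by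
    refine ⟨Module.finrank ℂ (Va j R R' l₀.1), fun l => ?_⟩
    have h1 := ht l.1 l.2.1
    have h2 := ht l₀.1 l₀.2.1
    rw [if_neg l.2.2] at h1
    rw [if_neg l₀.2.2] at h2
    omega
  have hm1 : (Module.finrank ℂ (Va j R R' 1) : ℤ) = m + ε := by
    have h1 := ht 1 (fun _ _ => rfl)
    have h2 := ht l₀.1 l₀.2.1
    rw [if_pos rfl] at h1
    rw [if_neg l₀.2.2, hm l₀] at h2
    omega
  -- the values of the linear characters
  have hlp : ∀ (l : Ln j B) (x : A'), ((l.1 x : ℂˣ) : ℂ) ^ p = 1 := by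
    intro l x
    have h1 : j (x ^ p) ∈ B := by
      rw [map_pow, ← d.hidx]
      exact Subgroup.pow_index_mem _ _
    have h2 := l.2.1 _ h1
    rw [map_pow] at h2
    have h3 := congrArg Units.val h2
    rw [Units.val_pow_eq_pow_val, Units.val_one] at h3
    exact h3
  refine ⟨if p = 2 then (-1) ^ m else 1, ?_, ?_⟩
  · split_ifs
    · exact neg_one_pow_eq_or ℤ m
    · exact Or.inl rfl
  intro x hx a a' ha ha' u u' hu hu'
  have hne : ∀ l : Ln j B, l.1 x ≠ 1 := by
    intro l hl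
    have h1 : B.comap j ≤ l.1.ker := fun k hk => l.2.1 k hk
    have h2 := Subgroup.relIndex_mul_index h1
    rw [d.idx'] at h2
    have h3 : (B.comap j).relIndex l.1.ker ≠ 1 := by
      intro h4
      exact hx (Subgroup.relIndex_eq_one.mp h4 hl)
    have h4 : (B.comap j).relIndex l.1.ker = p := by
      rcases (Nat.dvd_prime hp).mp (Dvd.intro _ h2) with h | h
      · exact absurd h h3
      · exact h
    rw [h4] at h2
    have h5 : l.1.ker.index = 1 := Nat.eq_of_mul_eq_mul_left hp.pos (by rw [h2, mul_one])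
    rw [Subgroup.index_eq_one] at h5
    apply l.2.2
    ext k
    have h6 : k ∈ l.1.ker := by
      rw [h5]
      exact Subgroup.mem_top k
    rw [MonoidHom.mem_ker.mp h6]
    rfl
  set δ : ℤ := if p = 2 then (-1) ^ m else 1 with hδ
  have hδ1 : δ = 1 ∨ δ = -1 := by
    rw [hδ]
    split_ifs
    · exact neg_one_pow_eq_or ℤ m
    · exact Or.inl rfl
  have hδ2 : (δ : ℂ) * δ = 1 := by
    rcases hδ1 with h | h <;> rw [h] <;> norm_num
  have hop : ∀ l : A' →* ℂˣ, ∀ v ∈ Va j R R' l, op u u' v = ((δ : ℂ) * (l x : ℂˣ)) • v := by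
    intro l v hv
    rw [op_apply]
    ext w
    simp only [LinearMap.comp_apply, LinearEquiv.coe_coe, LinearMap.smul_apply]
    obtain ⟨z, rfl⟩ := u'.surjective w
    rw [u'.symm_apply_apply, hu, hu', hv x z, smul_smul]
  have hq : ∀ l : Ln j B, qD j R R' l.1 u u' = (δ : ℂ) ^ ε * ((l.1 x : ℂˣ) : ℂ)⁻¹ ^ m := by
    intro l
    unfold qD
    rw [dT_scalar _ _ _ _ (hop 1), dT_scalar _ _ _ _ (hop l.1), hm l, MonoidHom.one_apply,
      Units.val_one, mul_one, mul_pow, ← div_div, ← zpow_natCast (δ : ℂ) (Module.finrank ℂ _),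
      ← zpow_natCast (δ : ℂ) m, ← zpow_sub₀ (by
        intro h
        rw [h] at hδ2
        norm_num at hδ2), hm1, inv_pow, div_eq_mul_inv]
    congr 2
    omega
  have hδε : (δ : ℂ) ^ ε = δ := by
    rcases d.eps' with h | h
    · rw [h, zpow_one]
    · rw [h, zpow_neg, zpow_one]
      exact inv_eq_of_mul_eq_one_left hδ2
  refine ⟨⟨fun z _ w => ?_, fun z _ w => ?_⟩, fun l => ?_, ?_⟩
  · rw [hu, hu, ha, map_smul, ← Module.End.mul_apply, ← Module.End.mul_apply, ← map_mul,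
      ← map_mul]
    congr 3
    group
  · rw [hu', hu', ha', ← Module.End.mul_apply, ← Module.End.mul_apply, ← map_mul, ← map_mul]
    congr 2
    group
  · rw [hq, hδε]
    by_cases h2 : p = 2
    · refine ⟨1, ?_⟩
      rw [pow_one]
      have h3 := hlp l x
      rw [h2] at h3 ⊢
      rw [mul_pow, ← pow_mul, mul_comm m 2, pow_mul, inv_pow, h3, inv_one, one_pow, mul_one, sq,
        hδ2]
    · refine ⟨1, ?_⟩
      have h4 : δ = 1 := by rw [hδ, if_neg h2]
      rw [pow_one, h4, Int.cast_one, one_mul, ← pow_mul, mul_comm m p, pow_mul, inv_pow, hlp,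
        inv_one, one_pow]
  · rw [finprod_eq_prod_of_fintype, Finset.prod_congr rfl fun l _ => hq l]
    by_cases h2 : p = 2
    · have h5 : ∀ l : Ln j B, ((l.1 x : ℂˣ) : ℂ) = -1 := by
        intro l
        have h3 := hlp l x
        rw [h2, sq, mul_self_eq_one_iff] at h3
        rcases h3 with h3 | h3
        · exfalso
          exact hne l (Units.ext h3)
        · exact h3
      have h6 : ∀ l ∈ (Finset.univ : Finset (Ln j B)),
          (δ : ℂ) ^ ε * ((l.1 x : ℂˣ) : ℂ)⁻¹ ^ m = 1 := by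
        intro l _
        rw [hδε, h5, hδ, if_pos h2]
        push_cast
        rw [inv_neg, inv_one, ← mul_pow]
        norm_num
      exact Finset.prod_eq_one h6
    · have h4 : δ = 1 := by rw [hδ, if_neg h2]
      have h5 : ∏ l : Ln j B, ((l.1 x : ℂˣ) : ℂ) = 1 := by
        refine Finset.prod_involution (fun l _ => ⟨l.1⁻¹, ?_, ?_⟩) ?_ ?_ ?_ ?_
        · intro k hk
          rw [MonoidHom.inv_apply, l.2.1 k hk, inv_one]
        · intro h
          apply l.2.2
          ext k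
          have h7 := DFunLike.congr_fun h k
          rw [MonoidHom.inv_apply, MonoidHom.one_apply, inv_eq_one] at h7
          rw [h7]
          rfl
        · intro l _
          change ((l.1 x : ℂˣ) : ℂ) * ((l.1⁻¹ x : ℂˣ) : ℂ) = 1
          rw [← Units.val_mul, MonoidHom.inv_apply, mul_inv_cancel, Units.val_one]
        · intro l _ _ h
          have h6 : l.1⁻¹ = l.1 := congrArg Subtype.val h
          apply l.2.2
          ext k
          have h7 := DFunLike.congr_fun h6 k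
          rw [MonoidHom.inv_apply, inv_eq_iff_mul_eq_one, ← sq] at h7
          have h8 := hlp l k
          have h9 : (l.1 k) ^ p = 1 := Units.ext (by rw [Units.val_pow_eq_pow_val, h8, Units.val_one])
          have h10 : orderOf (l.1 k) ∣ 2 := orderOf_dvd_of_pow_eq_one h7
          have h11 : orderOf (l.1 k) ∣ p := orderOf_dvd_of_pow_eq_one h9
          have h12 : Nat.Coprime 2 p := (Nat.coprime_primes Nat.prime_two hp).mpr (Ne.symm h2)
          have h13 := Nat.eq_one_of_dvd_coprimes h12 h10 h11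
          rw [orderOf_eq_one_iff.mp h13]
          rfl
        · intro l _
          exact Finset.mem_univ _
        · intro l _
          exact Subtype.ext (MonoidHom.ext fun k => inv_inv (l.1 k))
      rw [Finset.prod_mul_distrib, hδε, h4, Int.cast_one, Finset.prod_const_one, one_mul,
        Finset.prod_pow, Finset.prod_inv_distrib, h5, inv_one, one_pow]

end core

section

variable {G : Type} [Group G] [Fintype G] {N : Subgroup G} [N.Normal] {y : G}
  [(KK N y).Normal] {H : Subgroup G} {p : ℕ} [hp : Fact p.Prime] {P : Sylow p G}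
  {W W' : Type} [AddCommGroup W] [Module ℂ W] [FiniteDimensional ℂ W]
  [AddCommGroup W'] [Module ℂ W'] [FiniteDimensional ℂ W']
  {R : Representation ℂ (KK N y) W} {R' : Representation ℂ ((KK N y).comap H.subtype) W'} {ε : ℤ}

/-- exact equality for the Clifford correspondents -/
lemma exact_xi (d : TD p N y H P) (q : Parts2) {χ : G → ℂ} {ψ : H → ℂ} {ξ : G → ℂ} {ξ' : H → ℂ}
    (g : GD p N y H R R' ε χ ψ ξ ξ') : ∃ δ : ℤ, (δ = 1 ∨ δ = -1) ∧
    ∀ z s : H, (s : G) ∈ St (rN R) → ¬ p ∣ orderOf s → (z : G) ∈ KK N y → (z : G) ∉ N →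
      ξ (z * s : H) = δ * ε * ξ' (z * s) := by
  obtain ⟨δ, hδ, key⟩ := inner (d.toAD q.ext g.sd) q.hom
  refine ⟨δ, hδ, fun z s hT hreg hz hzN => ?_⟩
  have iN := d.irrN q.toParts g.sd
  have hi : (rsN R).IsIrreducible := irr_of_char q.hom _ iN
  obtain ⟨u, hu⟩ := q.lft G W N (rsN R) hi s hT
  obtain ⟨v, v', -, hcp, -, hv, hv', hex, hex', htr⟩ := d.preg q.hom q.ext q.kc q.rp q.trp q.kh
    q.nor g.sd hreg (u := u) (fun x hx w => hu ⟨x, hx⟩ w)
  -- the inner pair
  have hδ2 : (δ : ℂ) * δ = 1 := by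
    rcases hδ with h | h <;> rw [h] <;> norm_num
  let u₁ : W ≃ₗ[ℂ] W := LinearEquiv.ofLinearMap ((δ : ℂ) • R ⟨z, hz⟩) ((δ : ℂ) • R (⟨z, hz⟩)⁻¹)
    (by
      rw [LinearMap.smul_comp, LinearMap.comp_smul, smul_smul, hδ2, one_smul]
      change R ⟨z, hz⟩ * R (⟨z, hz⟩)⁻¹ = 1
      rw [← map_mul, mul_inv_cancel, map_one])
    (by
      rw [LinearMap.smul_comp, LinearMap.comp_smul, smul_smul, hδ2, one_smul]
      change R (⟨z, hz⟩)⁻¹ * R ⟨z, hz⟩ = 1
      rw [← map_mul, inv_mul_cancel, map_one])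
  let u₁' : W' ≃ₗ[ℂ] W' := LinearEquiv.ofLinearMap (R' ⟨z, hz⟩) (R' (⟨z, hz⟩)⁻¹)
    (by
      change R' ⟨z, hz⟩ * R' (⟨z, hz⟩)⁻¹ = 1
      rw [← map_mul, mul_inv_cancel, map_one])
    (by
      change R' (⟨z, hz⟩)⁻¹ * R' ⟨z, hz⟩ = 1
      rw [← map_mul, inv_mul_cancel, map_one])
  have hc1 : CH p R R' z u₁ u₁' := by
    refine key ⟨z, hz⟩ hzN _ _ (fun k => ?_) (fun k => ?_) u₁ u₁' (fun w => rfl) (fun w => rfl)
    · exact Subtype.ext rfl
    · exact Subtype.ext rfl
  have hc2 := CP.mul (d.toAD q.ext g.sd) q.hom (d.au z) (d.au s) hc1 hcp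
  have hc3 : CH p R R' (z * s) (v.trans u₁) (v'.trans u₁') := by
    have e1 : (MulAut.conjNormal ((z * s : H) : G) : MulAut (KK N y)) =
        MulAut.conjNormal (z : G) * MulAut.conjNormal (s : G) := by
      rw [← map_mul]
      rfl
    have e2 : (MulAut.conjNormal (z * s) : MulAut ((KK N y).comap H.subtype)) =
        MulAut.conjNormal z * MulAut.conjNormal s := map_mul _ _ _
    unfold CH
    rw [e1, e2]
    exact hc2
  obtain ⟨s₀, h1, h2⟩ := g.cc (z * s) _ _ hc3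
  have h3 : ξ (z * s : H) = s₀ * (δ * LinearMap.trace ℂ W (R ⟨z, hz⟩ ∘ₗ (v : W →ₗ[ℂ] W))) := by
    have h4 := h1 1
    have e1 : ((1 : N) : G) * ((z * s : H) : G) = (z * s : H) := one_mul _
    have e2 : R ⟨((1 : N) : G), le_KK (1 : N).2⟩ = 1 := map_one R
    rw [e1, e2] at h4
    rw [h4]
    congr 1
    have e3 : (1 : W →ₗ[ℂ] W) ∘ₗ ((v.trans u₁ : W ≃ₗ[ℂ] W) : W →ₗ[ℂ] W) =
        (δ : ℂ) • (R ⟨z, hz⟩ ∘ₗ (v : W →ₗ[ℂ] W)) := by
      ext w
      rfl
    rw [e3, map_smul, smul_eq_mul]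
  have h4 : ξ' (z * s) = s₀ * LinearMap.trace ℂ W' (R' ⟨z, hz⟩ ∘ₗ (v' : W' →ₗ[ℂ] W')) := by
    have h4 := h2 1
    have e1 : ((1 : N.comap H.subtype) : H) * (z * s) = z * s := one_mul _
    have e2 : R' ⟨((1 : N.comap H.subtype) : H), le_KK (1 : N.comap H.subtype).2⟩ = 1 :=
      map_one R'
    rw [e1, e2] at h4
    rw [h4]
    congr 1
  rw [h3, h4, htr z hz hzN]
  ring

omit [FiniteDimensional ℂ W'] in
/-- the values of corresponding characters as sums over the same representatives in `H` -/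
lemma coset_form (d : TD p N y H P) (q : Parts2) {χ : G → ℂ} {ψ : H → ℂ} {ξ : G → ℂ} {ξ' : H → ℂ}
    (g : GD p N y H R R' ε χ ψ ξ ξ') (hst : ∀ h : H, (h : G) ∈ St (rN R) ↔ h ∈ St (rM R'))
    (w : H) : χ w = ∑ c : H ⧸ St (rM R'), ξ ((c.out : G)⁻¹ * w * c.out) ∧
      ψ w = ∑ c : H ⧸ St (rM R'), ξ' (c.out⁻¹ * w * c.out) := by
  have iN := d.irrN q.toParts g.sd
  set T := St (rN R) with hT
  have hNT : N ≤ T := by
    intro n hn m
    rw [← iN.conj m ⟨n, hn⟩]
    congr 1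
  have hξ : ∀ x t : G, t ∈ T → ξ (t⁻¹ * x * t) = ξ x := by
    intro x t ht
    by_cases hx : x ∈ T
    · have h1 := g.cf.irr.conj ⟨x, hx⟩ (⟨t, ht⟩⁻¹)
      rw [inv_inv] at h1
      exact h1
    · rw [g.cf.zero _ hx, g.cf.zero]
      intro h
      apply hx
      have h2 := T.mul_mem (T.mul_mem ht h) (T.inv_mem ht)
      have e1 : t * (t⁻¹ * x * t) * t⁻¹ = x := by group
      rwa [e1] at h2
  have hξ' : ∀ x t : H, t ∈ St (rM R') → ξ' (t⁻¹ * x * t) = ξ' x := by
    intro x t ht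
    by_cases hx : x ∈ St (rM R')
    · have h1 := g.cf'.irr.conj ⟨x, hx⟩ (⟨t, ht⟩⁻¹)
      rw [inv_inv] at h1
      exact h1
    · rw [g.cf'.zero _ hx, g.cf'.zero]
      intro h
      apply hx
      have h2 := (St (rM R')).mul_mem ((St (rM R')).mul_mem ht h) ((St (rM R')).inv_mem ht)
      have e1 : t * (t⁻¹ * x * t) * t⁻¹ = x := by group
      rwa [e1] at h2
  let F : G ⧸ T → ℂ := fun c => Quotient.liftOn' c (fun x => ξ (x⁻¹ * w * x)) (by
    intro a b hab
    rw [QuotientGroup.leftRel_apply] at hab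
    have h1 := hξ (a⁻¹ * w * a) (a⁻¹ * b) hab
    rw [← h1]
    congr 1
    group)
  let F' : H ⧸ St (rM R') → ℂ := fun c => Quotient.liftOn' c (fun x => ξ' (x⁻¹ * w * x)) (by
    intro a b hab
    rw [QuotientGroup.leftRel_apply] at hab
    have h1 := hξ' (a⁻¹ * w * a) (a⁻¹ * b) hab
    rw [← h1]
    congr 1
    group)
  have hχ : χ w = ∑ c : G ⧸ T, F c := by
    rw [g.cf.ind]
    have h1 := sum_cosets T F
    have h2 : ∑ x : G, F (QuotientGroup.mk x) = ∑ x : G, ξ (x⁻¹ * w * x) := rfl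
    rw [h2] at h1
    rw [h1, inv_mul_cancel_left₀ (IC.cardG_ne (G := T))]
  have hψ : ψ w = ∑ c : H ⧸ St (rM R'), F' c := by
    rw [g.cf'.ind]
    have h1 := sum_cosets (St (rM R')) F'
    have h2 : ∑ x : H, F' (QuotientGroup.mk x) = ∑ x : H, ξ' (x⁻¹ * w * x) := rfl
    rw [h2] at h1
    rw [h1, inv_mul_cancel_left₀ (IC.cardG_ne (G := St (rM R')))]
  -- the cosets
  let ι : H ⧸ St (rM R') → G ⧸ T := fun c => (QuotientGroup.mk (c.out : G) : G ⧸ T)
  have hι : Function.Bijective ι := by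
    constructor
    · intro a b hab
      have h1 : (QuotientGroup.mk (a.out : G) : G ⧸ T) = QuotientGroup.mk (b.out : G) := hab
      rw [QuotientGroup.eq] at h1
      have h2 : (QuotientGroup.mk a.out : H ⧸ St (rM R')) = QuotientGroup.mk b.out := by
        rw [QuotientGroup.eq]
        exact (hst (a.out⁻¹ * b.out)).mp h1
      rwa [QuotientGroup.out_eq', QuotientGroup.out_eq'] at h2
    · intro c
      obtain ⟨x, rfl⟩ := QuotientGroup.mk_surjective c
      obtain ⟨n, hn, h, hh, rfl⟩ := d.hNH x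
      refine ⟨QuotientGroup.mk ⟨h, hh⟩, ?_⟩
      have h3 : (QuotientGroup.mk (QuotientGroup.mk ⟨h, hh⟩ : H ⧸ St (rM R')).out :
          H ⧸ St (rM R')) = QuotientGroup.mk ⟨h, hh⟩ := QuotientGroup.out_eq' _
      rw [QuotientGroup.eq] at h3
      have h4 := (hst _).mpr h3
      change (QuotientGroup.mk ((QuotientGroup.mk ⟨h, hh⟩ : H ⧸ St (rM R')).out : G) : G ⧸ T) =
        QuotientGroup.mk (n * h)
      have h5 : (QuotientGroup.mk ((QuotientGroup.mk ⟨h, hh⟩ : H ⧸ St (rM R')).out : G) :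
          G ⧸ T) = QuotientGroup.mk h := by
        rw [QuotientGroup.eq]
        exact h4
      rw [h5, QuotientGroup.eq, ← mul_assoc]
      have h1 := hNT ((inferInstance : N.Normal).conj_mem _ hn h⁻¹)
      rwa [inv_inv] at h1
  have h1 : ∑ c : G ⧸ T, F c = ∑ c : H ⧸ St (rM R'), F (ι c) :=
    (Fintype.sum_bijective ι hι _ _ (fun _ => rfl)).symm
  refine ⟨?_, ?_⟩
  · rw [hχ, h1]
    rfl
  · rw [hψ]
    refine Finset.sum_congr rfl fun c _ => ?_
    conv_lhs => rw [← QuotientGroup.out_eq' c]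
    rfl

/-- **exact equality** -/
theorem exact_val (d : TD p N y H P) (q : Parts2) {χ : G → ℂ} {ψ : H → ℂ}
    (g : GR p N y H χ ψ ε) : ∃ δ : ℤ, (δ = 1 ∨ δ = -1) ∧ ∀ z s : H, ¬ p ∣ orderOf s →
      (z : G) ∈ KK N y → (z : G) ∉ N → χ (z * s : H) = δ * ψ (z * s) := by
  obtain ⟨W, _, _, _, W', _, _, _, R, R', ξ, ξ', g⟩ := g
  have hst := d.sd_stab q.toParts g.sd
  obtain ⟨δ, hδ, key⟩ := exact_xi d q g
  have iN := d.irrN q.toParts g.sd
  have hKT : KK N y ≤ St (rN R) := by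
    refine inv_KK iN ?_
    intro n
    have h1 : IsIrr R.character := ⟨W, _, _, inferInstance, R, g.sd.irr, rfl⟩
    have h2 := h1.conj ⟨n, le_KK n.2⟩ ⟨y, y_mem⟩
    exact h2
  refine ⟨δ * ε, ?_, ?_⟩
  · rcases hδ with h | h <;> rcases g.sd.eps with h' | h' <;> simp [h, h']
  intro z s hreg hz hzN
  obtain ⟨h1, h2⟩ := coset_form d q g hst (z * s)
  rw [h1, h2, Finset.mul_sum]
  refine Finset.sum_congr rfl fun c _ => ?_
  set x : H := c.out with hx
  have e1 : x⁻¹ * (z * s) * x = (x⁻¹ * z * x) * (x⁻¹ * s * x) := by group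
  have hzK : ((x⁻¹ * z * x : H) : G) ∈ KK N y := by
    have := (inferInstance : (KK N y).Normal).conj_mem _ hz (x : G)⁻¹
    rwa [inv_inv] at this
  have hzN' : ((x⁻¹ * z * x : H) : G) ∉ N := by
    intro h3
    apply hzN
    have h4 := (inferInstance : N.Normal).conj_mem _ h3 (x : G)
    have e2 : (x : G) * ((x⁻¹ * z * x : H) : G) * (x : G)⁻¹ = z := by
      change (x : G) * ((x : G)⁻¹ * z * x) * (x : G)⁻¹ = z
      group
    rwa [e2] at h4
  by_cases hT : ((x⁻¹ * s * x : H) : G) ∈ St (rN R)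
  · have h3 := key (x⁻¹ * z * x) (x⁻¹ * s * x) hT (by
      have h4 : IsConj s (x⁻¹ * s * x) := isConj_iff.mpr ⟨x⁻¹, by rw [inv_inv]⟩
      rw [← orderOf_isConj h4]
      exact hreg) hzK hzN'
    have e2 : (x : G)⁻¹ * ((z * s : H) : G) * (x : G) =
        ((x⁻¹ * z * x * (x⁻¹ * s * x) : H) : G) := by
      rw [← e1]
      rfl
    rw [e2, h3, e1]
    push_cast
    ring
  · have hT' : ((x⁻¹ * z * x * (x⁻¹ * s * x) : H) : G) ∉ St (rN R) := by
      intro h3
      apply hT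
      have h4 := (St (rN R)).mul_mem ((St (rN R)).inv_mem (hKT hzK)) h3
      have e3 : ((x⁻¹ * z * x : H) : G)⁻¹ * ((x⁻¹ * z * x * (x⁻¹ * s * x) : H) : G) =
          ((x⁻¹ * s * x : H) : G) := by
        rw [show ((x⁻¹ * z * x * (x⁻¹ * s * x) : H) : G) = ((x⁻¹ * z * x : H) : G) *
          ((x⁻¹ * s * x : H) : G) from rfl, inv_mul_cancel_left]
      rwa [e3] at h4
    have e2 : (x : G)⁻¹ * ((z * s : H) : G) * (x : G) =
        ((x⁻¹ * z * x * (x⁻¹ * s * x) : H) : G) := by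
      rw [← e1]
      rfl
    rw [e2, g.cf.zero _ hT', e1, g.cf'.zero _ (fun h3 => hT' ((hst _).mpr h3)), mul_zero]

end

end Pool.Agent.Q17.DC
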