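import Pool.Agent.Q17.DC.E1
import Pool.Agent.Q17.DC.Stm

/-!
# Central characters of corresponding characters
-/

set_option autoImplicit false

open scoped BigOperators Classical
open Pool.Agent.Helper884 Representation Pool.Agent.H254R3.IN Pool.Agent.Y62 Pool.Agent.Q21.CO
open Pool.Agent.Q17.TC

noncomputable section

namespace Pool.Agent.Q17.DC

variable {G : Type} [Group G] [Fintype G] {N : Subgroup G} [N.Normal] {y : G}
  [(KK N y).Normal] {H : Subgroup G} {p : ℕ} [hp : Fact p.Prime] {P : Sylow p G}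

omit [N.Normal] [(KK N y).Normal] in
lemma cen_mem (ti : S_TI) (d : TD p N y H P) {c : G} (hc : Commute c y) : c ∈ H := by
  refine d.ty ti ?_
  rw [mul_assoc, ← hc.eq, inv_mul_cancel_left]
  exact d.hyH

theorem cen_val (d : TD p N y H P) (q : Parts2) {χ : G → ℂ} {ψ : H → ℂ} {ε : ℤ}
    (g : GR p N y H χ ψ ε) {c : H} (hc : ∀ x : G, (c : G) * x = x * c) :
    χ c * ψ 1 = χ 1 * ψ c := by
  obtain ⟨W, _, _, _, W', _, _, _, R, R', ξ, ξ', g⟩ := g
  have hst := d.sd_stab q.toParts g.sd
  have key : ∀ c : H, (∀ x : G, (c : G) * x = x * c) → ∃ s : ℂ,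
      ξ c = s * LinearMap.trace ℂ W LinearMap.id ∧ ξ' c = s * LinearMap.trace ℂ W' LinearMap.id := by
    intro c hc
    have h1 : CH p R R' c (LinearEquiv.refl ℂ W) (LinearEquiv.refl ℂ W') := by
      refine CP.triv (x := 1) (by
        rw [map_one]
        exact Subgroup.one_mem _) (fun w => ?_) (fun w => ?_) (fun z => ?_) (fun z => ?_)
      · rw [map_one, map_one]
        rfl
      · rw [map_one]
        rfl
      · rw [map_one, one_mul, inv_one, mul_one]
        apply Subtype.ext
        change (c : G) * z * (c : G)⁻¹ = z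
        rw [hc, mul_inv_cancel_right]
      · rw [one_mul, inv_one, mul_one]
        apply Subtype.ext
        apply Subtype.ext
        change (c : G) * (z : H) * (c : G)⁻¹ = (z : H)
        rw [hc, mul_inv_cancel_right]
    obtain ⟨s, h2, h3⟩ := g.cc c _ _ h1
    refine ⟨s, ?_, ?_⟩
    · have h4 := h2 1
      have e1 : ((1 : N) : G) * (c : G) = c := one_mul _
      have e2 : R ⟨((1 : N) : G), le_KK (1 : N).2⟩ = 1 := map_one R
      rw [e1, e2] at h4
      exact h4
    · have h4 := h3 1
      have e1 : ((1 : N.comap H.subtype) : H) * c = c := one_mul _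
      have e2 : R' ⟨((1 : N.comap H.subtype) : H), le_KK (1 : N.comap H.subtype).2⟩ = 1 :=
        map_one R'
      rw [e1, e2] at h4
      exact h4
  have hsum : ∀ c : H, (∀ x : G, (c : G) * x = x * c) →
      χ c = (Fintype.card (H ⧸ St (rM R')) : ℂ) * ξ c ∧
      ψ c = (Fintype.card (H ⧸ St (rM R')) : ℂ) * ξ' c := by
    intro c hc
    obtain ⟨h1, h2⟩ := coset_form d q g hst c
    rw [h1, h2]
    constructor
    · rw [Finset.sum_congr rfl (g := fun _ => ξ c) (fun a _ => by
        rw [mul_assoc, hc, inv_mul_cancel_left]), Finset.sum_const, Finset.card_univ, nsmul_eq_mul]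
    · have e1 : ∀ a : H, a⁻¹ * c * a = c := by
        intro a
        have e2 : c * a = a * c := Subtype.ext (hc a)
        rw [mul_assoc, e2, inv_mul_cancel_left]
      rw [Finset.sum_congr rfl (g := fun _ => ξ' c) (fun a _ => by rw [e1]), Finset.sum_const,
        Finset.card_univ, nsmul_eq_mul]
  have h1 : ∀ x : G, ((1 : H) : G) * x = x * (1 : H) := fun x => by
    rw [Subgroup.coe_one, one_mul, mul_one]
  obtain ⟨s, h2, h3⟩ := key c hc
  obtain ⟨t, h4, h5⟩ := key 1 h1
  obtain ⟨h6, h7⟩ := hsum c hc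
  obtain ⟨h8, h9⟩ := hsum 1 h1
  rw [Subgroup.coe_one] at h8 h4
  rw [h6, h7, h8, h9, h2, h3, h4, h5]
  ring

end Pool.Agent.Q17.DC
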