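import Pool.Agent.Q17.DC.E2
import Pool.Agent.Q17.TC.All2
import Pool.Agent.Q239.TC.AB

/-!
# The canonical relation for characters which do not vanish on the sections
-/

set_option autoImplicit false

open scoped BigOperators Classical
open Pool.Agent.Helper884 Representation Pool.Agent.H254R3.IN Pool.Agent.Y62 Pool.Agent.Q21.CO
open Pool.Agent.Q17.TC

noncomputable section

namespace Pool.Agent.Q17.DC

section sec

variable {G : Type} [Group G]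

lemma pow_parts {p : ℕ} [hp : Fact p.Prime] {z s : G} (hc : Commute z s)
    (hz : ∃ k, orderOf z = p ^ k) (hs : ¬ p ∣ orderOf s) :
    (∃ n : ℕ, (z * s) ^ n = z) ∧ ∃ n : ℕ, (z * s) ^ n = s := by
  obtain ⟨k, hk⟩ := hz
  have hcop : Nat.Coprime (orderOf z) (orderOf s) := by
    rw [hk]
    exact Nat.Coprime.pow_left _ ((Nat.Prime.coprime_iff_not_dvd hp.out).mpr hs)
  constructor
  · obtain ⟨n, h1, h2⟩ := Nat.chineseRemainder hcop 1 0
    refine ⟨n, ?_⟩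
    rw [hc.mul_pow]
    have h3 : z ^ n = z ^ 1 := pow_eq_pow_iff_modEq.mpr h1
    have h4 : s ^ n = s ^ 0 := pow_eq_pow_iff_modEq.mpr h2
    rw [h3, h4, pow_one, pow_zero, mul_one]
  · obtain ⟨n, h1, h2⟩ := Nat.chineseRemainder hcop 0 1
    refine ⟨n, ?_⟩
    rw [hc.mul_pow]
    have h3 : z ^ n = z ^ 0 := pow_eq_pow_iff_modEq.mpr h1
    have h4 : s ^ n = s ^ 1 := pow_eq_pow_iff_modEq.mpr h2
    rw [h3, h4, pow_one, pow_zero, one_mul]

lemma ord_conj (z g : G) : orderOf (g⁻¹ * z * g) = orderOf z := by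
  have h := (MulAut.conj g⁻¹).orderOf_eq z
  rw [MulAut.conj_apply, inv_inv] at h
  exact h

lemma Sec.conj {p : ℕ} {N K : Subgroup G} (hN : N.Normal) (hK : K.Normal) {x : G}
    (h : Sec p N K x) (g : G) : Sec p N K (g⁻¹ * x * g) := by
  obtain ⟨z, s, rfl, hc, hz, hzN, ⟨k, hk⟩, hs⟩ := h
  refine ⟨g⁻¹ * z * g, g⁻¹ * s * g, by group, ?_, ?_, ?_, ⟨k, ?_⟩, ?_⟩
  · change g⁻¹ * z * g * (g⁻¹ * s * g) = g⁻¹ * s * g * (g⁻¹ * z * g)
    have e1 : g⁻¹ * z * g * (g⁻¹ * s * g) = g⁻¹ * (z * s) * g := by group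
    have e2 : g⁻¹ * s * g * (g⁻¹ * z * g) = g⁻¹ * (s * z) * g := by group
    rw [e1, e2, hc.eq]
  · have := hK.conj_mem _ hz g⁻¹
    rwa [inv_inv] at this
  · intro h
    apply hzN
    have := hN.conj_mem _ h g
    have e1 : g * (g⁻¹ * z * g) * g⁻¹ = z := by group
    rwa [e1] at this
  · rw [ord_conj, hk]
  · rw [ord_conj]
    exact hs

end sec

variable {G : Type} [Group G] [Fintype G] {N : Subgroup G} [N.Normal] {y : G}
  [(KK N y).Normal] {H : Subgroup G} {p : ℕ} [hp : Fact p.Prime] {P : Sylow p G}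

omit [Fintype G] [N.Normal] [(KK N y).Normal] in
/-- the parts of an element of `H` are in `H` -/
lemma Sec.parts {K : Subgroup G} {x : H} (h : Sec p N K (x : G)) : ∃ z s : H, x = z * s ∧
    Commute z s ∧ (z : G) ∈ K ∧ (z : G) ∉ N ∧ (∃ k, orderOf z = p ^ k) ∧ ¬ p ∣ orderOf s := by
  obtain ⟨z, s, h1, hc, hz, hzN, hk, hs⟩ := h
  obtain ⟨⟨n, hn⟩, ⟨m, hm⟩⟩ := pow_parts hc hk hs
  rw [← h1] at hn hm
  have hzH : z ∈ H := by
    rw [← hn]
    exact H.pow_mem x.2 n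
  have hsH : s ∈ H := by
    rw [← hm]
    exact H.pow_mem x.2 m
  obtain ⟨k, hk⟩ := hk
  refine ⟨⟨z, hzH⟩, ⟨s, hsH⟩, Subtype.ext h1, Subtype.ext hc.eq, hz, hzN, ⟨k, ?_⟩, ?_⟩
  · rw [Subgroup.orderOf_mk, hk]
  · rw [Subgroup.orderOf_mk]
    exact hs

omit [N.Normal] [(KK N y).Normal] in
/-- fusion of the elements of the sections -/
lemma sec_fus (ti : S_TI) (d : TD p N y H P) {x : H} (h : Sec p N (KK N y) (x : G)) {g : G}
    (hg : g⁻¹ * x * g ∈ H) : g ∈ H := by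
  obtain ⟨z, s, h1, hc, hz, hzN, ⟨k, hk⟩, hs⟩ := h.parts
  have hcG : Commute (z : G) (s : G) := congrArg Subtype.val hc.eq
  obtain ⟨⟨n, hn⟩, -⟩ := pow_parts hcG ⟨k, by rw [Subgroup.orderOf_coe, hk]⟩
    (by rwa [Subgroup.orderOf_coe])
  have e1 : (z : G) * s = x := congrArg Subtype.val h1.symm
  rw [e1] at hn
  refine (ti G p N y H P d).1 g z z.2 hz hzN ?_
  have e2 : g⁻¹ * (z : G) * g = (g⁻¹ * x * g) ^ n := by
    rw [← hn]
    have := conj_pow (i := n) (a := g⁻¹) (b := (x : G))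
    rw [inv_inv] at this
    exact this.symm
  rw [e2]
  exact H.pow_mem hg n

omit [(KK N y).Normal] in
/-- every element of the sections is conjugate to an element of `H` -/
lemma sec_mem (ti : S_TI) (d : TD p N y H P) {x : G} (h : Sec p N (KK N y) x) :
    ∃ g : G, g⁻¹ * x * g ∈ H := by
  obtain ⟨z, s, rfl, hc, hz, hzN, hk, hs⟩ := h
  obtain ⟨n, -, hn⟩ := (ti G p N y H P d).2 z hz hzN
  refine ⟨n, ?_⟩
  have e1 : n⁻¹ * (z * s) * n = (n⁻¹ * z * n) * (n⁻¹ * s * n) := by group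
  rw [e1]
  refine H.mul_mem hn ?_
  have hK := d.nK
  refine (ti G p N y H P d).1 _ _ hn ?_ ?_ ?_
  · have := hK.conj_mem _ hz n⁻¹
    rwa [inv_inv] at this
  · intro h
    apply hzN
    have := (inferInstance : N.Normal).conj_mem _ h n
    have e1 : n * (n⁻¹ * z * n) * n⁻¹ = z := by group
    rwa [e1] at this
  · have e2 : (n⁻¹ * s * n)⁻¹ * (n⁻¹ * z * n) * (n⁻¹ * s * n) = n⁻¹ * (s⁻¹ * (z * s)) * n := by
      group
    rw [e2, hc.eq, inv_mul_cancel_left]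
    exact hn

omit [(KK N y).Normal] in
/-- existence, left -/
lemma gr_of_sec [(KK N y).Normal] (d : TD p N y H P) {χ : G → ℂ} (hχ : IsIrr χ) {x : G}
    (h : Sec p N (KK N y) x) (hx : χ x ≠ 0) : ∃ (ψ : H → ℂ) (ε : ℤ), GR p N y H χ ψ ε := by
  obtain ⟨z, s, rfl, hc, hz, hzN, ⟨k, hk⟩, hs⟩ := h
  obtain ⟨θ, hθ⟩ := Pool.Agent.Q239.TC.t_AB parts2.cl G p N z s k hk hs hc χ hχ hx
  obtain ⟨θ', hθ'⟩ := θ.tr (d.KK_eq hz hzN)
  refine d.gr_ex parts2 gdx hχ θ' ?_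
  rw [hθ']
  exact hθ

omit [(KK N y).Normal] in
/-- existence, right -/
lemma gr_of_sec' [(KK N y).Normal] (d : TD p N y H P) {ψ : H → ℂ} (hψ : IsIrr ψ) {x : H}
    (h : Sec p N (KK N y) (x : G)) (hx : ψ x ≠ 0) :
    ∃ (χ : G → ℂ) (ε : ℤ), GR p N y H χ ψ ε := by
  obtain ⟨z, s, rfl, hc, hz, hzN, ⟨k, hk⟩, hs⟩ := h.parts
  obtain ⟨η, hη⟩ := Pool.Agent.Q239.TC.t_AB parts2.cl H p (N.comap H.subtype) z s k hk hs hc ψ hψ
    hx
  have hzp : IsPGroup p (Subgroup.zpowers (z : G)) := by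
    apply IsPGroup.of_card (n := k)
    rw [Nat.card_zpowers, Subgroup.orderOf_coe, hk]
  obtain ⟨P', d'⟩ := d.sub parts2.ti hzp (Subgroup.zpowers_le.mpr z.2)
    (Subgroup.mem_zpowers (z : G)) hz hzN
  have h7 := d'.stH η.2.1 η.2.2
  rw [d.KK_eq hz hzN] at h7
  have h8 : (⟨y, d.hyH⟩ : H) ∈ St η.1 := h7 (Subgroup.mem_sup_right (Subgroup.mem_zpowers y))
  exact d.gr_ex' parts2 gdx hψ ⟨η.1, η.2.1, h8⟩ hη

/-- values on the sections -/
lemma gr_val (d : TD p N y H P) {χ : G → ℂ} {ψ : H → ℂ} {ε : ℤ} (g : GR p N y H χ ψ ε) :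
    ∃ δ : ℤ, (δ = 1 ∨ δ = -1) ∧ ∀ z s : H, ¬ p ∣ orderOf s →
      (z : G) ∈ KK N y → (z : G) ∉ N → χ (z * s : H) = δ * ψ (z * s) :=
  exact_val d parts2 g

/-- the block of `ψ` induces the block of `χ` -/
lemma gr_blk (bl : S_BLKC) (d : TD p N y H P) {χ : G → ℂ} {ψ : H → ℂ} {ε : ℤ}
    (g : GR p N y H χ ψ ε) {x : H} (h : Sec p N (KK N y) (x : G)) (hx : ψ x ≠ 0)
    {O : ValuationSubring ℂ} (hO : (p : ℂ) ∈ O.nonunits) (w : G) :
    omega χ w - ∑ᶠ y : {y : H // IsConj w (y : G)}, ψ y / ψ 1 ∈ O.nonunits := by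
  obtain ⟨z, s, rfl, hc, hz, hzN, hk, hs⟩ := h.parts
  obtain ⟨δ, hδ, key⟩ := gr_val d g
  obtain ⟨i1, i2, -⟩ := d.gr_ab parts2 g
  refine bl G H p O hO z hk (fun g hg => ?_) χ ψ δ i1 i2 hδ (fun s _ hs => key z s hs hz hzN)
    ⟨s, hc, hs, hx⟩ w
  refine (parts2.ti G p N y H P d).1 g z z.2 hz hzN ?_
  rw [mul_assoc, hg.eq, inv_mul_cancel_left]
  exact z.2

/-- the relation respects nonvanishing -/
lemma gr_nv (d : TD p N y H P) {χ : G → ℂ} {ψ : H → ℂ} {ε : ℤ} (g : GR p N y H χ ψ ε) :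
    (∃ x : G, Sec p N (KK N y) x ∧ χ x ≠ 0) ↔ ∃ x : H, Sec p N (KK N y) (x : G) ∧ ψ x ≠ 0 := by
  obtain ⟨δ, hδ, key⟩ := gr_val d g
  have hδ0 : (δ : ℂ) ≠ 0 := by rcases hδ with h | h <;> simp [h]
  obtain ⟨i1, i2, -⟩ := d.gr_ab parts2 g
  constructor
  · rintro ⟨x, hx, hne⟩
    obtain ⟨g, hg⟩ := sec_mem parts2.ti d hx
    have h1 := hx.conj inferInstance d.nK g
    have h2 : χ (g⁻¹ * x * g) = χ x := by
      have := i1.conj x g⁻¹
      rwa [inv_inv] at this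
    refine ⟨⟨_, hg⟩, h1, fun h0 => hne ?_⟩
    have h3 : Sec p N (KK N y) (((⟨_, hg⟩ : H)) : G) := h1
    obtain ⟨z, s, e, hc, hz, hzN, hk, hs⟩ := h3.parts
    have h4 := key z s hs hz hzN
    rw [← e, h0, mul_zero] at h4
    rw [← h2]
    exact h4
  · rintro ⟨x, hx, hne⟩
    refine ⟨x, hx, fun h0 => hne ?_⟩
    obtain ⟨z, s, e, hc, hz, hzN, hk, hs⟩ := hx.parts
    have h4 := key z s hs hz hzN
    rw [← e, h0] at h4
    rcases mul_eq_zero.mp h4.symm with h5 | h5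
    · exact absurd h5 hδ0
    · exact h5

end Pool.Agent.Q17.DC
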