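import Pool.Agent.Q17.DC.E3

/-!
# The relation for the subgroups of a group
-/

set_option autoImplicit false

open scoped BigOperators Classical
open Pool.Agent.Helper884 Representation Pool.Agent.H254R3.IN Pool.Agent.Y62 Pool.Agent.Q21.CO
open Pool.Agent.Q17.TC

noncomputable section

namespace Pool.Agent.Q17.DC

variable {Γ : Type} [Group Γ] [Fintype Γ] {N : Subgroup Γ} [hN : N.Normal] {y : Γ}
  {H : Subgroup Γ} {p : ℕ} [hp : Fact p.Prime] {P : Sylow p Γ} {L L' : Subgroup Γ}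

/-- the isomorphism of `L' = L ∩ H` with the preimage of `H` in `L` -/
def eL (hL : ∀ x, x ∈ L' ↔ x ∈ L ∧ x ∈ H) : L' ≃* H.comap L.subtype where
  toFun x := ⟨⟨x, ((hL x).mp x.2).1⟩, ((hL x).mp x.2).2⟩
  invFun x := ⟨x.1.1, (hL _).mpr ⟨x.1.2, x.2⟩⟩
  left_inv _ := rfl
  right_inv _ := rfl
  map_mul' _ _ := rfl

/-- the hypotheses on the subgroup -/
structure Cx (p : ℕ) (N : Subgroup Γ) (y : Γ) (H : Subgroup Γ) (P : Sylow p Γ)
    (L L' : Subgroup Γ) (z : L) : Prop where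
  d : TD p N y H P
  hL : ∀ x, x ∈ L' ↔ x ∈ L ∧ x ∈ H
  hz : (z : Γ) ∈ H
  hzK : (z : Γ) ∈ KK N y
  hzN : (z : Γ) ∉ N
  hzp : ∃ k, orderOf z = p ^ k

variable {z : L}

namespace Cx

omit [Fintype Γ] hN hp in
lemma KK_mem {k : L} : k ∈ KK (N.comap L.subtype) z → (k : Γ) ∈ KK N (z : Γ) := by
  have h1 : KK (N.comap L.subtype) z ≤ (KK N (z : Γ)).comap L.subtype := by
    refine sup_le (Subgroup.comap_mono le_KK) ?_
    rw [Subgroup.zpowers_le]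
    exact y_mem
  exact fun h => h1 h

lemma KK_eq (c : Cx p N y H P L L' z) :
    KK (N.comap L.subtype) z = (KK N y).comap L.subtype := by
  have h0 := c.d.KK_eq c.hzK c.hzN
  ext k
  constructor
  · intro h
    have h1 := KK_mem h
    rw [h0] at h1
    exact h1
  · intro h
    have h1 : (k : Γ) ∈ KK N y := h
    rw [← h0] at h1
    have h2 : (k : Γ) ∈ ((N ⊔ Subgroup.zpowers (z : Γ) : Subgroup Γ) : Set Γ) := h1
    rw [Subgroup.normal_mul] at h2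
    obtain ⟨n, hn, w, hw, e⟩ := Set.mem_mul.mp h2
    obtain ⟨i, rfl⟩ := Subgroup.mem_zpowers_iff.mp hw
    have h3 : k * (z ^ i)⁻¹ ∈ N.comap L.subtype := by
      change ((k * (z ^ i)⁻¹ : L) : Γ) ∈ N
      have e1 : ((k * (z ^ i)⁻¹ : L) : Γ) = n := by
        push_cast
        rw [← e, mul_inv_cancel_right]
      rw [e1]
      exact hn
    have h4 : k = k * (z ^ i)⁻¹ * z ^ i := by group
    rw [h4]
    exact Subgroup.mul_mem_sup h3 (Subgroup.zpow_mem _ (Subgroup.mem_zpowers z) i)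

omit [Fintype Γ] hN in
lemma sec_iff {K : Subgroup Γ} {x : L} :
    Sec p (N.comap L.subtype) (K.comap L.subtype) x ↔ Sec p N K (x : Γ) := by
  constructor
  · rintro ⟨w, s, h1, hc, hw, hwN, ⟨k, hk⟩, hs⟩
    refine ⟨w, s, congrArg Subtype.val h1, congrArg Subtype.val hc.eq, hw, hwN, ⟨k, ?_⟩, ?_⟩
    · rw [Subgroup.orderOf_coe, hk]
    · rw [Subgroup.orderOf_coe]
      exact hs
  · rintro ⟨w, s, h1, hc, hw, hwN, ⟨k, hk⟩, hs⟩
    obtain ⟨⟨n, hn⟩, ⟨m, hm⟩⟩ := pow_parts hc ⟨k, hk⟩ hs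
    rw [← h1] at hn hm
    have hwL : w ∈ L := by
      rw [← hn]
      exact L.pow_mem x.2 n
    have hsL : s ∈ L := by
      rw [← hm]
      exact L.pow_mem x.2 m
    refine ⟨⟨w, hwL⟩, ⟨s, hsL⟩, Subtype.ext h1, Subtype.ext hc.eq, hw, hwN, ⟨k, ?_⟩, ?_⟩
    · rw [Subgroup.orderOf_mk, hk]
    · rw [Subgroup.orderOf_mk]
      exact hs

/-- the relation -/
def RL (p : ℕ) (N H L L' : Subgroup Γ) [N.Normal] (hL : ∀ x, x ∈ L' ↔ x ∈ L ∧ x ∈ H) (z : L)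
    (χ : L → ℂ) (ψ : L' → ℂ) : Prop :=
  ∃ (_ : (KK (N.comap L.subtype) z).Normal) (ε : ℤ),
    GR p (N.comap L.subtype) z (H.comap L.subtype) χ (fun h => ψ ((eL hL).symm h)) ε

variable (c : Cx p N y H P L L' z)

include c

lemma loc (lo : S_LOC) : ∃ P' : Sylow p L, TD p (N.comap L.subtype) z (H.comap L.subtype) P' :=
  lo parts2.ti Γ p N y H P c.d L z c.hz c.hzK c.hzN c.hzp

lemma sec_L {x : L} : Sec p (N.comap L.subtype) (KK (N.comap L.subtype) z) x ↔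
    Sec p N (KK N y) (x : Γ) := by
  rw [c.KK_eq]
  exact sec_iff

omit hN hp in
lemma le : L' ≤ L := fun x hx => ((c.hL x).mp hx).1

theorem ex (lo : S_LOC) {χ : L → ℂ} (hχ : IsIrr χ) {x : L} (h : Sec p N (KK N y) (x : Γ))
    (hx : χ x ≠ 0) : ∃ ψ : L' → ℂ, RL p N H L L' c.hL z χ ψ := by
  obtain ⟨P', d⟩ := c.loc lo
  have := d.nK
  obtain ⟨ψ, ε, g⟩ := gr_of_sec d hχ (c.sec_L.mpr h) hx
  refine ⟨fun w => ψ (eL c.hL w), this, ε, ?_⟩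
  have e1 : (fun h => (fun w => ψ (eL c.hL w)) ((eL c.hL).symm h)) = ψ := by
    funext h
    change ψ (eL c.hL ((eL c.hL).symm h)) = ψ h
    rw [MulEquiv.apply_symm_apply]
  rw [e1]
  exact g

theorem ex' (lo : S_LOC) {ψ : L' → ℂ} (hψ : IsIrr ψ) {x : L'} (h : Sec p N (KK N y) (x : Γ))
    (hx : ψ x ≠ 0) : ∃ χ : L → ℂ, RL p N H L L' c.hL z χ ψ := by
  obtain ⟨P', d⟩ := c.loc lo
  have := d.nK
  have h1 : IsIrr (fun h => ψ ((eL c.hL).symm h)) := irr_comp hψ (eL c.hL).symm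
  obtain ⟨χ, ε, g⟩ := gr_of_sec' d h1 (x := eL c.hL x) (c.sec_L.mpr h) (by
    change ψ ((eL c.hL).symm (eL c.hL x)) ≠ 0
    rw [MulEquiv.symm_apply_apply]
    exact hx)
  exact ⟨χ, this, ε, g⟩

theorem right (lo : S_LOC) {χ : L → ℂ} {ψ₁ ψ₂ : L' → ℂ} (g₁ : RL p N H L L' c.hL z χ ψ₁)
    (g₂ : RL p N H L L' c.hL z χ ψ₂) : ψ₁ = ψ₂ := by
  obtain ⟨P', d⟩ := c.loc lo
  obtain ⟨_, ε₁, g₁⟩ := g₁
  obtain ⟨_, ε₂, g₂⟩ := g₂
  have h := (d.gr_right parts2 g₁ g₂).1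
  funext w
  have h1 := congrFun h (eL c.hL w)
  exact h1

theorem left (lo : S_LOC) {χ₁ χ₂ : L → ℂ} {ψ : L' → ℂ} (g₁ : RL p N H L L' c.hL z χ₁ ψ)
    (g₂ : RL p N H L L' c.hL z χ₂ ψ) : χ₁ = χ₂ := by
  obtain ⟨P', d⟩ := c.loc lo
  obtain ⟨_, ε₁, g₁⟩ := g₁
  obtain ⟨_, ε₂, g₂⟩ := g₂
  exact (d.gr_left parts2 g₁ g₂).1

theorem irr (lo : S_LOC) {χ : L → ℂ} {ψ : L' → ℂ} (g : RL p N H L L' c.hL z χ ψ) :
    IsIrr χ ∧ IsIrr ψ := by
  obtain ⟨P', d⟩ := c.loc lo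
  obtain ⟨_, ε, g⟩ := g
  obtain ⟨h1, h2, -⟩ := d.gr_ab parts2 g
  exact ⟨h1, irr_comp h2 (eL c.hL)⟩

theorem val (lo : S_LOC) {χ : L → ℂ} {ψ : L' → ℂ} (g : RL p N H L L' c.hL z χ ψ) :
    ∃ δ : ℤ, (δ = 1 ∨ δ = -1) ∧ ∀ (x : L) (x' : L'), (x : Γ) = x' → Sec p N (KK N y) (x : Γ) →
      χ x = δ * ψ x' := by
  obtain ⟨P', d⟩ := c.loc lo
  obtain ⟨_, ε, g⟩ := g
  obtain ⟨δ, hδ, key⟩ := gr_val d g
  refine ⟨δ, hδ, fun x x' e hx => ?_⟩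
  have h1 : Sec p (N.comap L.subtype) (KK (N.comap L.subtype) z) ((eL c.hL x' : _) : L) := by
    rw [c.sec_L]
    change Sec p N (KK N y) (x' : Γ)
    rw [← e]
    exact hx
  obtain ⟨w, s, h2, hc, hw, hwN, hk, hs⟩ := h1.parts
  have h3 := key w s hs hw hwN
  rw [← h2] at h3
  have h4 : ((eL c.hL x' : _) : L) = x := Subtype.ext e.symm
  rw [h4] at h3
  exact h3

theorem nv (lo : S_LOC) {χ : L → ℂ} {ψ : L' → ℂ} (g : RL p N H L L' c.hL z χ ψ) :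
    (∃ x : L, Sec p N (KK N y) (x : Γ) ∧ χ x ≠ 0) ↔
      ∃ x : L', Sec p N (KK N y) (x : Γ) ∧ ψ x ≠ 0 := by
  obtain ⟨P', d⟩ := c.loc lo
  obtain ⟨_, ε, g⟩ := g
  have h := gr_nv d g
  constructor
  · rintro ⟨x, hx, hne⟩
    obtain ⟨w, hw, hne'⟩ := h.mp ⟨x, c.sec_L.mpr hx, hne⟩
    exact ⟨(eL c.hL).symm w, c.sec_L.mp hw, hne'⟩
  · rintro ⟨x, hx, hne⟩
    obtain ⟨w, hw, hne'⟩ := h.mpr ⟨eL c.hL x, c.sec_L.mpr hx, hne⟩
    exact ⟨w, c.sec_L.mp hw, hne'⟩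

theorem cen (lo : S_LOC) {χ : L → ℂ} {ψ : L' → ℂ} (g : RL p N H L L' c.hL z χ ψ) {w : L}
    (hw : ∀ x : L, w * x = x * w) : ∃ hw' : (w : Γ) ∈ L', χ w * ψ 1 = χ 1 * ψ ⟨w, hw'⟩ := by
  obtain ⟨P', d⟩ := c.loc lo
  obtain ⟨_, ε, g⟩ := g
  have h1 : w ∈ H.comap L.subtype := cen_mem parts2.ti d (show Commute w z from hw z)
  refine ⟨(c.hL _).mpr ⟨w.2, h1⟩, ?_⟩
  have h2 := cen_val d parts2 g (c := ⟨w, h1⟩) hw
  exact h2

theorem blk (lo : S_LOC) (bl : S_BLKC) {χ : L → ℂ} {ψ : L' → ℂ}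
    (g : RL p N H L L' c.hL z χ ψ) {x : L'} (h : Sec p N (KK N y) (x : Γ)) (hx : ψ x ≠ 0)
    {O : ValuationSubring ℂ} (hO : (p : ℂ) ∈ O.nonunits) (w : L) :
    omega χ w - indc L L' ψ (w : Γ) ∈ O.nonunits := by
  obtain ⟨P', d⟩ := c.loc lo
  obtain ⟨_, ε, g⟩ := g
  have h1 := gr_blk bl d g (x := eL c.hL x) (c.sec_L.mpr h) (by
    change ψ ((eL c.hL).symm (eL c.hL x)) ≠ 0
    rw [MulEquiv.symm_apply_apply]
    exact hx) hO w
  have h2 : indc L L' ψ (w : Γ) = ∑ᶠ y : {y : H.comap L.subtype // IsConj w (y : L)},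
      (fun h => ψ ((eL c.hL).symm h)) y / (fun h => ψ ((eL c.hL).symm h)) 1 := by
    unfold indc
    refine finsum_eq_of_bijective (fun v => ⟨eL c.hL v.1, ?_⟩) ⟨?_, ?_⟩ ?_
    · obtain ⟨g, hg, hv⟩ := v.2
      refine isConj_iff.mpr ⟨⟨g, hg⟩, Subtype.ext hv⟩
    · intro a b hab
      apply Subtype.ext
      exact (eL c.hL).injective (congrArg Subtype.val hab)
    · rintro ⟨b, hb⟩
      obtain ⟨g, hg⟩ := isConj_iff.mp hb
      refine ⟨⟨(eL c.hL).symm b, g, g.2, ?_⟩, Subtype.ext ((eL c.hL).apply_symm_apply b)⟩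
      exact congrArg Subtype.val hg
    · intro v
      change ψ v.1 / ψ 1 = ψ ((eL c.hL).symm (eL c.hL v.1)) / ψ ((eL c.hL).symm 1)
      rw [MulEquiv.symm_apply_apply, map_one]
  rw [h2]
  exact h1

/-- the automorphism of `L` given by conjugation with `e` -/
def cjL (e : Γ) (he : ∀ x, x ∈ L ↔ e * x * e⁻¹ ∈ L) : L ≃* L where
  toFun x := ⟨e * x * e⁻¹, (he x).mp x.2⟩
  invFun x := ⟨e⁻¹ * x * e, (he _).mpr (by
    have e1 : e * (e⁻¹ * x * e) * e⁻¹ = x := by group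
    rw [e1]
    exact x.2)⟩
  left_inv x := Subtype.ext (by
    change e⁻¹ * (e * x * e⁻¹) * e = x
    group)
  right_inv x := Subtype.ext (by
    change e * (e⁻¹ * x * e) * e⁻¹ = x
    group)
  map_mul' x w := Subtype.ext (by
    change e * (x * w) * e⁻¹ = e * x * e⁻¹ * (e * w * e⁻¹)
    group)

theorem eqv (lo : S_LOC) {χ : L → ℂ} {ψ : L' → ℂ} (g : RL p N H L L' c.hL z χ ψ)
    (σ : ℂ ≃+* ℂ) {e : Γ} (heH : e ∈ H) (he : ∀ x, x ∈ L ↔ e * x * e⁻¹ ∈ L)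
    {χ' : L → ℂ} {ψ' : L' → ℂ}
    (hχ : ∀ x x' : L, (x' : Γ) = e * x * e⁻¹ → χ' x = σ (χ x'))
    (hψ : ∀ x x' : L', (x' : Γ) = e * x * e⁻¹ → ψ' x = σ (ψ x')) :
    RL p N H L L' c.hL z χ' ψ' := by
  obtain ⟨P', d⟩ := c.loc lo
  obtain ⟨i, ε, g⟩ := g
  have al : Al (N.comap L.subtype) z (H.comap L.subtype) (cjL e he) := by
    refine ⟨fun x => ?_, fun x => ?_, ?_⟩
    · change e * x * e⁻¹ ∈ N ↔ (x : Γ) ∈ N
      constructor
      · intro h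
        have := hN.conj_mem _ h e⁻¹
        have e1 : e⁻¹ * (e * x * e⁻¹) * e⁻¹⁻¹ = x := by group
        rwa [e1] at this
      · intro h
        exact hN.conj_mem _ h e
    · change e * x * e⁻¹ ∈ H ↔ (x : Γ) ∈ H
      constructor
      · intro h
        have := H.mul_mem (H.mul_mem (H.inv_mem heH) h) heH
        have e1 : e⁻¹ * (e * x * e⁻¹) * e = x := by group
        rwa [e1] at this
      · intro h
        exact H.mul_mem (H.mul_mem heH h) (H.inv_mem heH)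
    · change (z : Γ)⁻¹ * (e * z * e⁻¹) ∈ N
      have h1 := KK_com c.d.hcen e z c.hzK
      have h2 := hN.conj_mem _ h1 (z : Γ)⁻¹
      have e1 : (z : Γ)⁻¹ * (e * z * e⁻¹ * (z : Γ)⁻¹) * (z : Γ)⁻¹⁻¹ =
          (z : Γ)⁻¹ * (e * z * e⁻¹) := by group
      rwa [e1] at h2
  have h1 := d.gr_equiv parts2 al σ g
  refine ⟨i, ε, ?_⟩
  have e1 : (fun x => σ (χ (cjL e he x))) = χ' := by
    funext x
    exact (hχ x _ rfl).symm
  have e2 : (fun x => σ ((fun h => ψ ((eL c.hL).symm h)) (al.rH x))) =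
      fun h => ψ' ((eL c.hL).symm h) := by
    funext x
    exact (hψ ((eL c.hL).symm x) ((eL c.hL).symm (al.rH x)) rfl).symm
  rw [e1, e2] at h1
  exact h1

end Cx

end Pool.Agent.Q17.DC
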