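import Pool.Agent.Q17.DC.E4
import Pool.Agent.Q17.DC.Cnt

/-!
# Comparison of the numbers for one subgroup
-/

set_option autoImplicit false

open scoped BigOperators Classical
open Pool.Agent.Helper884 Representation Pool.Agent.H254R3.IN Pool.Agent.Y62 Pool.Agent.Q21.CO
open Pool.Agent.Q17.TC

noncomputable section

namespace Pool.Agent.Q17.DC

lemma nu_iff_of_sub {O : ValuationSubring ℂ} {a b : ℂ} (h : a - b ∈ O.nonunits) :
    a ∈ O.nonunits ↔ b ∈ O.nonunits := by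
  have hneg : ∀ x : ℂ, x ∈ O.nonunits → -x ∈ O.nonunits := by
    intro x hx
    have := nu_mul (O.neg_mem _ O.one_mem) hx
    rwa [neg_one_mul] at this
  constructor
  · intro ha
    have h1 := nu_add ha (hneg _ h)
    have e1 : a + -(a - b) = b := by ring
    rwa [e1] at h1
  · intro hb
    have h1 := nu_add h hb
    have e1 : a - b + b = a := by ring
    rwa [e1] at h1

section ind

variable {Γ : Type} [Group Γ] [Finite Γ]

/-- no fusion -/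
lemma indc_fus {L L' H : Subgroup Γ} (hL : ∀ x, x ∈ L' ↔ x ∈ L ∧ x ∈ H) {ψ : L' → ℂ}
    (hψ : IsIrr ψ) (x : L') (h : ∀ g ∈ L, g * x * g⁻¹ ∈ H → g ∈ H) :
    indc L L' ψ (x : Γ) = omega ψ x := by
  have : Fintype L' := Fintype.ofFinite _
  unfold indc omega
  have h1 : ∀ v : {v : L' // ∃ g ∈ L, g * (x : Γ) * g⁻¹ = v}, ψ v.1 / ψ 1 = ψ x / ψ 1 := by
    rintro ⟨v, g, hg, hv⟩
    have hgH : g ∈ H := h g hg (by
      rw [hv]
      exact ((hL v).mp v.2).2)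
    have h2 : IsConj x v := isConj_iff.mpr ⟨⟨g, (hL g).mpr ⟨hg, hgH⟩⟩, Subtype.ext hv⟩
    change ψ v / ψ 1 = _
    rw [hψ.isConj h2]
  rw [finsum_congr h1, finsum_eq_sum_of_fintype, Finset.sum_const, Finset.card_univ,
    nsmul_eq_mul, mul_div_assoc]
  congr 2
  rw [← Nat.card_eq_fintype_card]
  refine Nat.card_congr (Equiv.subtypeEquivRight fun v => ?_)
  constructor
  · rintro ⟨g, hg, hv⟩
    have hgH : g ∈ H := h g hg (by
      rw [hv]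
      exact ((hL v).mp v.2).2)
    exact isConj_iff.mpr ⟨⟨g, (hL g).mpr ⟨hg, hgH⟩⟩, Subtype.ext hv⟩
  · intro hv
    obtain ⟨g, hg⟩ := isConj_iff.mp hv
    exact ⟨g, ((hL g).mp g.2).1, congrArg Subtype.val hg⟩

end ind

variable {Γ : Type} [Group Γ] [Fintype Γ] {D : Dt Γ} [hN : D.N.Normal] [hp : Fact D.p.Prime]
  {y : Γ} {H : Subgroup Γ} {P : Sylow D.p Γ} {L L' R R' : Subgroup Γ} {z : L}

/-- the hypotheses -/
structure Hy (D : Dt Γ) [D.N.Normal] (y : Γ) (H : Subgroup Γ) (P : Sylow D.p Γ)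
    (L L' R R' : Subgroup Γ) (z : L) : Prop where
  c : Cx D.p D.N y H P L L' z
  hK : D.K = KK D.N y
  hO : (D.p : ℂ) ∈ D.O.nonunits
  hLG : L ≤ D.G
  hG : D.G.Normal
  hZ : ∀ c ∈ D.Z₁, ∀ g ∈ D.G, c * g = g * c
  hR' : R' ≤ R
  hRH : R' ≤ H
  hRL : ∀ e ∈ R, ∀ x, x ∈ L ↔ e * x * e⁻¹ ∈ L
  hR : ∀ e ∈ R, ∃ l ∈ L, e * l ∈ R'
  hab : D.a ∨ D.b
  hT : D.a ∨ ∀ m n, D.T m n
  hT' : ∀ k n l m : ℕ, k ≠ 0 → n ≠ 0 → l ≠ 0 → m ≠ 0 →
    k.factorization D.p + m.factorization D.p =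
    l.factorization D.p + n.factorization D.p → (∃ δ : ℤ, (δ = 1 ∨ δ = -1) ∧
      ((pPrimePart D.p k * pPrimePart D.p m : ℕ) : ℤ) ≡
        δ * ((pPrimePart D.p l * pPrimePart D.p n : ℕ) : ℤ) [ZMOD D.p]) → (D.T k n ↔ D.T l m)

namespace Hy

variable (h : Hy D y H P L L' R R' z) (lo : S_LOC) (bl : S_BLKC)

include h

lemma fus {x : Γ} (hxH : x ∈ H) (hx : Sec D.p D.N D.K x) {g : Γ} (hg : g * x * g⁻¹ ∈ H) :
    g ∈ H := by
  rw [h.hK] at hx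
  have h1 : g⁻¹ ∈ H := sec_fus parts2.ti h.c.d (x := ⟨x, hxH⟩) hx (g := g⁻¹) (by
    rw [inv_inv]
    exact hg)
  exact H.inv_mem_iff.mp h1

include lo bl

/-- the central characters agree on the sections -/
lemma om {χ : L → ℂ} {ψ : L' → ℂ} (g : Cx.RL D.p D.N H L L' h.c.hL z χ ψ)
    (hn : ∃ x : L', Sec D.p D.N D.K (x : Γ) ∧ ψ x ≠ 0) {x : L} {x' : L'} (e : (x : Γ) = x')
    (hx : Sec D.p D.N D.K (x : Γ)) : omega χ x - omega ψ x' ∈ D.O.nonunits := by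
  obtain ⟨w, hw, hne⟩ := hn
  rw [h.hK] at hw
  have h1 := h.c.blk lo bl g hw hne h.hO x
  have h2 := (h.c.irr lo g).2
  rw [e, indc_fus h.c.hL h2 x' (fun g _ hg => h.fus ((h.c.hL x').mp x'.2).2 (by
    rw [← e]
    exact hx) hg)] at h1
  exact h1

/-- induced central characters agree -/
lemma ind (ts : S_TRS) {χ : L → ℂ} {ψ : L' → ℂ} (g : Cx.RL D.p D.N H L L' h.c.hL z χ ψ)
    (hn : ∃ x : L', Sec D.p D.N D.K (x : Γ) ∧ ψ x ≠ 0) (x : Γ) :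
    indc D.G L χ x - indc D.G L' ψ x ∈ D.O.nonunits := by
  obtain ⟨w, hw, hne⟩ := hn
  rw [h.hK] at hw
  obtain ⟨i1, i2⟩ := h.c.irr lo g
  exact ts Γ D.O D.G L L' h.hLG h.c.le χ i1 ψ i2 (fun x => h.c.blk lo bl g hw hne h.hO x) x

omit bl in
/-- stabilisers agree -/
lemma stb_eq {χ : L → ℂ} {ψ : L' → ℂ} (g : Cx.RL D.p D.N H L L' h.c.hL z χ ψ) :
    stb D.G R L χ = stb D.G R' L' ψ := by
  obtain ⟨i1, i2⟩ := h.c.irr lo g
  have hL'H : ∀ e ∈ R', ∀ x : L', e * x * e⁻¹ ∈ L' := by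
    intro e he x
    rw [h.c.hL]
    have h1 := (h.c.hL x).mp x.2
    exact ⟨(h.hRL e (h.hR' he) x).mp h1.1, H.mul_mem (H.mul_mem (h.hRH he) h1.2)
      (H.inv_mem (h.hRH he))⟩
  -- both sides for `e ∈ R'`
  have key : ∀ e ∈ R', ∀ τ : ℂ ≃+* ℂ,
      (∀ x x' : L, (x' : Γ) = e * x * e⁻¹ → χ x' = τ (χ x)) ↔
        ∀ x x' : L', (x' : Γ) = e * x * e⁻¹ → ψ x' = τ (ψ x) := by
    intro e he τ
    have hel := h.hRL e (h.hR' he)
    let χ₁ : L → ℂ := fun x => χ ⟨e * x * e⁻¹, (hel x).mp x.2⟩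
    let ψ₁ : L' → ℂ := fun x => ψ ⟨e * x * e⁻¹, hL'H e he x⟩
    let χ₂ : L → ℂ := fun x => τ (χ x)
    let ψ₂ : L' → ℂ := fun x => τ (ψ x)
    have g1 : Cx.RL D.p D.N H L L' h.c.hL z χ₁ ψ₁ := by
      refine h.c.eqv lo g (RingEquiv.refl ℂ) (h.hRH he) hel (fun x x' hx => ?_)
        (fun x x' hx => ?_)
      · have : x' = ⟨e * x * e⁻¹, (hel x).mp x.2⟩ := Subtype.ext hx
        rw [this]
        rfl
      · have : x' = ⟨e * x * e⁻¹, hL'H e he x⟩ := Subtype.ext hx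
        rw [this]
        rfl
    have g2 : Cx.RL D.p D.N H L L' h.c.hL z χ₂ ψ₂ := by
      refine h.c.eqv lo g τ (e := 1) H.one_mem (fun x => by
        rw [one_mul, inv_one, mul_one]) (fun x x' hx => ?_) (fun x x' hx => ?_)
      · have : x' = x := Subtype.ext (by rw [hx, one_mul, inv_one, mul_one])
        rw [this]
      · have : x' = x := Subtype.ext (by rw [hx, one_mul, inv_one, mul_one])
        rw [this]
    have h1 : (∀ x x' : L, (x' : Γ) = e * x * e⁻¹ → χ x' = τ (χ x)) ↔ χ₁ = χ₂ := by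
      constructor
      · intro h2
        funext x
        exact h2 x _ rfl
      · intro h2 x x' hx
        have h3 := congrFun h2 x
        have : x' = ⟨e * x * e⁻¹, (hel x).mp x.2⟩ := Subtype.ext hx
        rw [this]
        exact h3
    have h2 : (∀ x x' : L', (x' : Γ) = e * x * e⁻¹ → ψ x' = τ (ψ x)) ↔ ψ₁ = ψ₂ := by
      constructor
      · intro h2
        funext x
        exact h2 x _ rfl
      · intro h2 x x' hx
        have h3 := congrFun h2 x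
        have : x' = ⟨e * x * e⁻¹, hL'H e he x⟩ := Subtype.ext hx
        rw [this]
        exact h3
    rw [h1, h2]
    constructor
    · intro h3
      rw [← h3] at g2
      exact h.c.right lo g1 g2
    · intro h3
      rw [← h3] at g2
      exact h.c.left lo g1 g2
  ext ⟨w, τ⟩
  constructor
  · rintro ⟨u, hu, e, he, hw, hx⟩
    obtain ⟨l, hl, hel⟩ := h.hR e he
    have hG := h.hG
    refine ⟨u * (e * l⁻¹ * e⁻¹), D.G.mul_mem hu (hG.conj_mem _ (D.G.inv_mem (h.hLG hl)) e),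
      e * l, hel, ?_, ?_⟩
    · change w = _
      change w = u * e at hw
      rw [hw]
      group
    · refine (key (e * l) hel τ).mp fun x x' hxx => ?_
      have h1 : l * x * l⁻¹ ∈ L := L.mul_mem (L.mul_mem hl x.2) (L.inv_mem hl)
      have h2 := hx ⟨l * x * l⁻¹, h1⟩ x' (by
        rw [hxx]
        change e * l * x * (e * l)⁻¹ = e * (l * x * l⁻¹) * e⁻¹
        group)
      rw [h2]
      congr 1
      exact i1.conj x ⟨l, hl⟩
  · rintro ⟨u, hu, e, he, hw, hx⟩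
    exact ⟨u, hu, e, h.hR' he, hw, (key e he τ).mpr hx⟩

/-- degrees -/
lemma dgr (df : S_DEF) {χ : L → ℂ} {ψ : L' → ℂ} (g : Cx.RL D.p D.N H L L' h.c.hL z χ ψ)
    {x : L} (hxH : (x : Γ) ∈ H) (hx : Sec D.p D.N D.K (x : Γ)) (ho : omega χ x ∉ D.O.nonunits)
    (hn : ∃ x : L', Sec D.p D.N D.K (x : Γ) ∧ ψ x ≠ 0) {n m : ℕ} (hχ : (n : ℂ) = χ 1)
    (hψ : (m : ℂ) = ψ 1) : (Nat.card L).factorization D.p + m.factorization D.p =
      (Nat.card L').factorization D.p + n.factorization D.p ∧ ∃ δ : ℤ, (δ = 1 ∨ δ = -1) ∧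
      ((pPrimePart D.p (Nat.card L) * pPrimePart D.p m : ℕ) : ℤ) ≡
        δ * ((pPrimePart D.p (Nat.card L') * pPrimePart D.p n : ℕ) : ℤ) [ZMOD D.p] := by
  obtain ⟨i1, i2⟩ := h.c.irr lo g
  obtain ⟨δ, hδ, hv⟩ := h.c.val lo g
  have hx' : Sec D.p D.N (KK D.N y) (x : Γ) := by
    rw [← h.hK]
    exact hx
  set ψ₀ : H.comap L.subtype → ℂ := fun w => ψ ((eL h.c.hL).symm w) with hψ₀
  have i3 : IsIrr ψ₀ := irr_comp i2 (eL h.c.hL).symm
  have hfus : ∀ g : L, g⁻¹ * ((⟨x, hxH⟩ : H.comap L.subtype) : L) * g ∈ H.comap L.subtype →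
      g ∈ H.comap L.subtype := by
    intro g hg
    have h1 : (g : Γ)⁻¹ ∈ H := h.fus hxH hx (g := (g : Γ)⁻¹) (by
      rw [inv_inv]
      exact hg)
    exact H.inv_mem_iff.mp h1
  have h1 : χ ((⟨x, hxH⟩ : H.comap L.subtype) : L) = δ * ψ₀ ⟨x, hxH⟩ := hv x _ rfl hx'
  obtain ⟨w, hw, hne⟩ := hn
  rw [h.hK] at hw
  have h2 := h.c.blk lo bl g hw hne h.hO x
  have h3 : indc L L' ψ (x : Γ) = ∑ᶠ y : {y : H.comap L.subtype //
      IsConj ((⟨x, hxH⟩ : H.comap L.subtype) : L) (y : L)}, ψ₀ y / ψ₀ 1 := by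
    unfold indc
    refine finsum_eq_of_bijective (fun v => ⟨eL h.c.hL v.1, ?_⟩) ⟨?_, ?_⟩ ?_
    · obtain ⟨g, hg, hv⟩ := v.2
      exact isConj_iff.mpr ⟨⟨g, hg⟩, Subtype.ext hv⟩
    · intro a b hab
      apply Subtype.ext
      exact (eL h.c.hL).injective (congrArg Subtype.val hab)
    · rintro ⟨b, hb⟩
      obtain ⟨g, hg⟩ := isConj_iff.mp hb
      refine ⟨⟨(eL h.c.hL).symm b, g, g.2, ?_⟩, Subtype.ext ((eL h.c.hL).apply_symm_apply b)⟩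
      exact congrArg Subtype.val hg
    · intro v
      change ψ v.1 / ψ 1 = ψ ((eL h.c.hL).symm (eL h.c.hL v.1)) / ψ ((eL h.c.hL).symm 1)
      rw [MulEquiv.symm_apply_apply, map_one]
  rw [h3] at h2
  have h4 : (m : ℂ) = ψ₀ 1 := by
    rw [hψ, hψ₀]
    change ψ 1 = ψ ((eL h.c.hL).symm 1)
    rw [map_one]
  obtain ⟨-, h5, h6⟩ := df L (H.comap L.subtype) D.p D.O h.hO ⟨x, hxH⟩ hfus χ ψ₀ δ i1 i3 hδ h1 h2
    ho n m hχ h4
  have h7 : Nat.card (H.comap L.subtype) = Nat.card L' := Nat.card_congr (eL h.c.hL).symm.toEquiv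
  rw [h7] at h5 h6
  exact ⟨h5, δ, hδ, h6⟩

/-- an element of the sections of `L` is conjugate to an element of `H` -/
lemma toH {x : L} (hx : Sec D.p D.N D.K (x : Γ)) : ∃ g : L, ((g⁻¹ * x * g : L) : Γ) ∈ H ∧
    Sec D.p D.N D.K ((g⁻¹ * x * g : L) : Γ) := by
  have _ := bl
  obtain ⟨P', d⟩ := h.c.loc lo
  rw [h.hK] at hx
  obtain ⟨g, hg⟩ := sec_mem parts2.ti d (h.c.sec_L.mpr hx)
  refine ⟨g, hg, ?_⟩
  rw [h.hK]
  exact hx.conj hN h.c.d.nK (g : Γ)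

/-- the conditions are the same for corresponding characters -/
theorem rel_cn (ts : S_TRS) (df : S_DEF) {χ : L → ℂ} {ψ : L' → ℂ}
    (g : Cx.RL D.p D.N H L L' h.c.hL z χ ψ)
    (hn : ∃ x : L', Sec D.p D.N D.K (x : Γ) ∧ ψ x ≠ 0) : Cn D L R χ ↔ Cn D L' R' ψ := by
  obtain ⟨i1, i2⟩ := h.c.irr lo g
  have hind := h.ind lo bl ts g hn
  have hstb := h.stb_eq lo g
  have hn1 : ∃ x : L, Sec D.p D.N D.K (x : Γ) ∧ χ x ≠ 0 := by
    rw [h.hK]
    rw [h.hK] at hn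
    exact (h.c.nv lo g).mpr hn
  have hgod : (∃ x : L, (x : Γ) ∈ H ∧ Sec D.p D.N D.K (x : Γ) ∧ omega χ x ∉ D.O.nonunits) ↔
      ∃ x : L', Sec D.p D.N D.K (x : Γ) ∧ omega ψ x ∉ D.O.nonunits := by
    constructor
    · rintro ⟨x, hxH, hx, ho⟩
      refine ⟨⟨x, (h.c.hL _).mpr ⟨x.2, hxH⟩⟩, hx, ?_⟩
      rwa [← nu_iff_of_sub (h.om lo bl g hn (x := x) (x' := ⟨x, (h.c.hL _).mpr ⟨x.2, hxH⟩⟩)
        rfl hx)]
    · rintro ⟨x, hx, ho⟩
      obtain ⟨h1, h2⟩ := (h.c.hL x).mp x.2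
      refine ⟨⟨x, h1⟩, h2, hx, ?_⟩
      rwa [nu_iff_of_sub (h.om lo bl g hn (x := ⟨x, h1⟩) (x' := x) rfl hx)]
  have hgod' : (∃ x : L, Sec D.p D.N D.K (x : Γ) ∧ omega χ x ∉ D.O.nonunits) →
      ∃ x : L, (x : Γ) ∈ H ∧ Sec D.p D.N D.K (x : Γ) ∧ omega χ x ∉ D.O.nonunits := by
    rintro ⟨x, hx, ho⟩
    obtain ⟨g, hg, hg'⟩ := h.toH lo bl hx
    refine ⟨g⁻¹ * x * g, hg, hg', ?_⟩
    have h1 : IsConj x (g⁻¹ * x * g) := isConj_iff.mpr ⟨g⁻¹, by rw [inv_inv]⟩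
    rw [← i1.omega_congr h1]
    exact ho
  have hdeg : ∀ n m : ℕ, (n : ℂ) = χ 1 → (m : ℂ) = ψ 1 →
      (D.a → ∃ x : L, Sec D.p D.N D.K (x : Γ) ∧ omega χ x ∉ D.O.nonunits) →
      (D.T (Nat.card L) n ↔ D.T (Nat.card L') m) := by
    intro n m hn' hm' ha
    rcases h.hT with h1 | h1
    · obtain ⟨x, hxH, hx, ho⟩ := hgod' (ha h1)
      obtain ⟨h2, h3⟩ := h.dgr lo bl df g hxH hx ho hn hn' hm'
      exact h.hT' _ _ _ _ Nat.card_pos.ne' (fun h0 => i1.one_ne (by rw [← hn', h0, Nat.cast_zero]))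
        Nat.card_pos.ne' (fun h0 => i2.one_ne (by rw [← hm', h0, Nat.cast_zero])) h2 h3
    · exact ⟨fun _ => h1 _ _, fun _ => h1 _ _⟩
  constructor
  · intro hc
    refine ⟨i2, fun x hx => ?_, fun ha => ?_, fun _ => hn, fun c hc1 => ?_, ?_, ?_⟩
    · have h1 := nu_add (hc.blk x hx) (hind x)
      rwa [sub_add_sub_cancel] at h1
    · exact hgod.mp (hgod' (hc.god ha))
    · have h1 := (h.c.hL c).mp c.2
      obtain ⟨hw, h2⟩ := h.c.cen lo g (w := ⟨c, h1.1⟩) (fun x => Subtype.ext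
        (h.hZ c hc1 x (h.hLG x.2)))
      have h3 := hc.cen ⟨c, h1.1⟩ hc1
      rw [h3, mul_assoc] at h2
      have h4 := mul_left_cancel₀ i1.one_ne h2
      rw [mul_comm] at h4
      exact h4.symm
    · obtain ⟨n, hn', hT⟩ := hc.deg
      obtain ⟨m, -, hm'⟩ := i2.deg
      exact ⟨m, hm', (hdeg n m hn' hm' hc.god).mp hT⟩
    · rw [← hstb]
      exact hc.stb
  · intro hc
    refine ⟨i1, fun x hx => ?_, fun ha => ?_, fun _ => hn1, fun c hc1 => ?_, ?_, ?_⟩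
    · have h1 : indc D.G L' ψ x - indc D.G L χ x ∈ D.O.nonunits := by
        have := nu_mul (D.O.neg_mem _ D.O.one_mem) (hind x)
        have e1 : -1 * (indc D.G L χ x - indc D.G L' ψ x) =
          indc D.G L' ψ x - indc D.G L χ x := by ring
        rwa [e1] at this
      have h2 := nu_add (hc.blk x hx) h1
      rwa [sub_add_sub_cancel] at h2
    · obtain ⟨x, -, hx, ho⟩ := hgod.mpr (hc.god ha)
      exact ⟨x, hx, ho⟩
    · obtain ⟨hw, h2⟩ := h.c.cen lo g (w := c) (fun x => Subtype.ext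
        (h.hZ c hc1 x (h.hLG x.2)))
      have h3 := hc.cen ⟨c, hw⟩ hc1
      rw [h3] at h2
      have h4 : χ c * ψ 1 = χ 1 * D.mu c * ψ 1 := by
        rw [h2]
        ring
      exact mul_right_cancel₀ i2.one_ne h4
    · obtain ⟨m, hm', hT⟩ := hc.deg
      obtain ⟨n, -, hn'⟩ := i1.deg
      refine ⟨n, hn', (hdeg n m hn' hm' fun ha => ?_).mpr hT⟩
      obtain ⟨x, -, hx, ho⟩ := hgod.mpr (hc.god ha)
      exact ⟨x, hx, ho⟩
    · rw [hstb]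
      exact hc.stb

omit h lo bl in
lemma Cn.nv {L R : Subgroup Γ} {χ : L → ℂ} (hab : D.a ∨ D.b) (hc : Cn D L R χ) :
    ∃ x : L, Sec D.p D.N D.K (x : Γ) ∧ χ x ≠ 0 := by
  rcases hab with ha | hb
  · obtain ⟨x, hx, ho⟩ := hc.god ha
    refine ⟨x, hx, fun h0 => ho ?_⟩
    unfold omega
    rw [h0, mul_zero, zero_div]
    exact nu_iff.mpr ⟨D.O.zero_mem, red_zero⟩
  · exact hc.nvn hb

/-- **the numbers are equal** -/
theorem kn_eq (ts : S_TRS) (df : S_DEF) : kn D L R = kn D L' R' := by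
  have hab := h.hab
  have h1 : ∀ χ : {χ : L → ℂ // Cn D L R χ}, ∃ ψ : {ψ : L' → ℂ // Cn D L' R' ψ},
      Cx.RL D.p D.N H L L' h.c.hL z χ.1 ψ.1 := by
    rintro ⟨χ, hc⟩
    obtain ⟨x, hx, hne⟩ := Cn.nv hab hc
    rw [h.hK] at hx
    obtain ⟨ψ, g⟩ := h.c.ex lo hc.irr hx hne
    have hn := (h.c.nv lo g).mp ⟨x, hx, hne⟩
    rw [← h.hK] at hn
    exact ⟨⟨ψ, (h.rel_cn lo bl ts df g hn).mp hc⟩, g⟩
  have h2 : ∀ ψ : {ψ : L' → ℂ // Cn D L' R' ψ}, ∃ χ : {χ : L → ℂ // Cn D L R χ},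
      Cx.RL D.p D.N H L L' h.c.hL z χ.1 ψ.1 := by
    rintro ⟨ψ, hc⟩
    obtain ⟨x, hx, hne⟩ := Cn.nv hab hc
    have hn : ∃ x : L', Sec D.p D.N D.K (x : Γ) ∧ ψ x ≠ 0 := ⟨x, hx, hne⟩
    rw [h.hK] at hx
    obtain ⟨χ, g⟩ := h.c.ex' lo hc.irr hx hne
    exact ⟨⟨χ, (h.rel_cn lo bl ts df g hn).mpr hc⟩, g⟩
  choose f hf using h1
  choose f' hf' using h2
  unfold kn
  congr 1
  refine Nat.card_congr ⟨f, f', fun χ => ?_, fun ψ => ?_⟩
  · exact Subtype.ext (h.c.left lo (hf' (f χ)) (hf χ))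
  · exact Subtype.ext (h.c.right lo (hf (f' ψ)) (hf' ψ))

end Hy

end Pool.Agent.Q17.DC
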