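import Pool.Agent.Q17.DC.E5

/-!
# Comparison of the alternating sums
-/

set_option autoImplicit false

open scoped BigOperators Classical
open Pool.Agent.Helper884 Representation Pool.Agent.H254R3.IN Pool.Agent.Y62 Pool.Agent.Q21.CO
open Pool.Agent.Q17.TC Pool.Agent.Y63.KR

noncomputable section

namespace Pool.Agent.Q17.DC

section ns

variable {Γ : Type} [Group Γ]

lemma conjSub_self {X : Subgroup Γ} {g : Γ} (hg : g ∈ Subgroup.normalizer (X : Set Γ)) :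
    conjSub g X = X := conjSub_eq_iff.mpr hg

lemma conjSub_inf (g : Γ) (A B : Subgroup Γ) : conjSub g (A ⊓ B) = conjSub g A ⊓ conjSub g B := by
  ext x
  rw [Subgroup.mem_inf, mem_conjSub, mem_conjSub, mem_conjSub, Subgroup.mem_inf]

lemma Ns_conj {X : Subgroup Γ} {g : Γ} (hg : g ∈ Subgroup.normalizer (X : Set Γ))
    (σ : Set (Subgroup Γ)) : Ns X (conjSub g '' σ) = conjSub g (Ns X σ) := by
  unfold Ns
  rw [chainStabilizer_conj, conjSub_inf, conjSub_self hg]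

lemma stab_image {σ : Set (Subgroup Γ)} {e : Γ} (he : e ∈ chainStabilizer σ) :
    conjSub e '' σ = σ := by
  rw [mem_chainStabilizer] at he
  ext P
  constructor
  · rintro ⟨Q, hQ, rfl⟩
    rw [he Q hQ]
    exact hQ
  · intro hP
    exact ⟨P, hP, he P hP⟩

lemma Has.mono {p : ℕ} {N K M M' : Subgroup Γ} (h : Has p N K M) (hM : M ≤ M') :
    Has p N K M' := by
  obtain ⟨z, hz, h1⟩ := h
  exact ⟨z, hM hz, h1⟩

lemma Sec.has {p : ℕ} [hp : Fact p.Prime] {N K M : Subgroup Γ} {x : Γ} (hx : x ∈ M)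
    (h : Sec p N K x) : Has p N K M := by
  obtain ⟨z, s, rfl, hc, hz, hzN, hk, hs⟩ := h
  obtain ⟨⟨n, hn⟩, -⟩ := pow_parts hc hk hs
  refine ⟨z, ?_, hz, hzN, hk⟩
  rw [← hn]
  exact M.pow_mem hx n

end ns

variable {Γ : Type} [Group Γ] [Fintype Γ]

/-- the hypotheses -/
structure Gl (D : Dt Γ) [D.N.Normal] (y : Γ) (H : Subgroup Γ) (P : Sylow D.p Γ)
    (Z : Subgroup Γ) : Prop where
  d : TD D.p D.N y H P
  hK : D.K = KK D.N y
  hO : (D.p : ℂ) ∈ D.O.nonunits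
  hNG : D.N ≤ D.G
  hyG : y ∈ D.G
  hG : D.G.Normal
  hZn : Z.Normal
  hZG : Z ≤ D.G
  hZp : IsPGroup D.p Z
  hZ : ∀ c ∈ D.Z₁, ∀ g ∈ D.G, c * g = g * c
  hab : D.a ∨ D.b
  hT : D.a ∨ ∀ m n, D.T m n
  hT' : ∀ k n l m : ℕ, k ≠ 0 → n ≠ 0 → l ≠ 0 → m ≠ 0 →
    k.factorization D.p + m.factorization D.p =
    l.factorization D.p + n.factorization D.p → (∃ δ : ℤ, (δ = 1 ∨ δ = -1) ∧
      ((pPrimePart D.p k * pPrimePart D.p m : ℕ) : ℤ) ≡
        δ * ((pPrimePart D.p l * pPrimePart D.p n : ℕ) : ℤ) [ZMOD D.p]) → (D.T k n ↔ D.T l m)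

variable {D : Dt Γ} [hN : D.N.Normal] [hp : Fact D.p.Prime] {y : Γ} {H : Subgroup Γ}
  {P : Sylow D.p Γ} {Z : Subgroup Γ}

/-- the number for a chain -/
def wn (D : Dt Γ) (X M : Subgroup Γ) (σ : Set (Subgroup Γ)) : ℤ := kn D (Ns X σ) (Ns M σ)

lemma kn_has {L R : Subgroup Γ} (hab : D.a ∨ D.b) (h : kn D L R ≠ 0) :
    Has D.p D.N D.K L := by
  unfold kn at h
  have h1 : Nat.card {χ : L → ℂ // Cn D L R χ} ≠ 0 := by exact_mod_cast h
  obtain ⟨⟨χ, hc⟩⟩ : Nonempty {χ : L → ℂ // Cn D L R χ} := by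
    by_contra hn
    rw [not_nonempty_iff] at hn
    exact h1 (@Nat.card_of_isEmpty _ hn)
  obtain ⟨x, hx, -⟩ := Hy.Cn.nv hab hc
  exact hx.has x.2

namespace Gl

variable (h : Gl D y H P Z)

include h

lemma nK : D.K.Normal := by
  rw [h.hK]
  exact h.d.nK

/-- **comparison of the alternating sums** -/
theorem alt_eq (lo : S_LOC) (bl : S_BLKC) (ts : S_TRS) (df : S_DEF) (chi : S_CHI)
    (chs : S_CHS) (cnj : S_CNJ) :
    altX D.p D.G Z (wn D D.G ⊤) = altX D.p (D.G ⊓ H) Z (wn D (D.G ⊓ H) H) := by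
  have hG := h.hG
  have hZn := h.hZn
  have hK := h.nK
  obtain ⟨c1, c2, c3, -⟩ := chi parts2.ti Γ D.p D.N D.G y H P h.d h.hNG h.hyG Z h.hZG h.hZp
  rw [← h.hK] at c1 c2 c3
  have hnorm : ∀ (X : Subgroup Γ) {g : Γ}, g ∈ X → g ∈ Subgroup.normalizer (X : Set Γ) :=
    fun X g hg => Subgroup.le_normalizer hg
  refine chs Γ D.p D.G (D.G ⊓ H) Z (wn D D.G ⊤) (wn D (D.G ⊓ H) H)
    (fun σ => Has D.p D.N D.K (Ns D.G σ)) (fun σ => Has D.p D.N D.K (Ns (D.G ⊓ H) σ))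
    inf_le_left ?_ ?_ ?_ ?_ ?_ ?_ ?_
  · intro σ _ g hg
    unfold wn
    rw [Ns_conj (hnorm _ hg), Ns_conj (hnorm _ (Subgroup.mem_top g))]
    exact cnj Γ D hG hN hK h.hZ _ _ inf_le_left g hg
  · intro σ _ g hg
    unfold wn
    rw [Ns_conj (hnorm _ hg), Ns_conj (hnorm _ hg.2)]
    exact cnj Γ D hG hN hK h.hZ _ _ (inf_le_left.trans inf_le_left) g hg.1
  · intro σ _ hw
    exact kn_has h.hab hw
  · intro σ _ hw
    exact kn_has h.hab hw
  · intro σ hσ hz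
    exact c1 σ hσ hz
  · intro σ hσ hz
    have hσG : Ch D.p D.G Z σ := ⟨hσ.chain, hσ.isp, fun Q hQ => (hσ.le Q hQ).trans inf_le_left,
      hσ.lt⟩
    have hle : Ns (D.G ⊓ H) σ ≤ Ns D.G σ := inf_le_inf_right _ inf_le_left
    refine ⟨hσG, hz.mono hle, ?_⟩
    obtain ⟨z, hzL, hzK, hzN, k, hk⟩ := id hz
    have hy : Hy D y H P (Ns D.G σ) (Ns (D.G ⊓ H) σ) (Ns ⊤ σ) (Ns H σ) ⟨z, hle hzL⟩ :=
      { c := ⟨h.d, fun x => ?_, hzL.1.2, by
            rw [← h.hK]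
            exact hzK, hzN, k, by rw [Subgroup.orderOf_mk, hk]⟩
        hK := h.hK
        hO := h.hO
        hLG := inf_le_left
        hG := hG
        hZ := h.hZ
        hR' := inf_le_inf_right _ le_top
        hRH := inf_le_left
        hRL := fun e he x => ?_
        hR := fun e he => ?_
        hab := h.hab
        hT := h.hT
        hT' := h.hT' }
    · exact hy.kn_eq lo bl ts df
    · unfold Ns
      rw [Subgroup.mem_inf, Subgroup.mem_inf, Subgroup.mem_inf]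
      tauto
    · have he' : e ∈ chainStabilizer σ := he.2
      unfold Ns
      rw [Subgroup.mem_inf, Subgroup.mem_inf]
      constructor
      · rintro ⟨h1, h2⟩
        exact ⟨hG.conj_mem _ h1 e, Subgroup.mul_mem _ (Subgroup.mul_mem _ he' h2)
          (Subgroup.inv_mem _ he')⟩
      · rintro ⟨h1, h2⟩
        have e1 : e⁻¹ * (e * x * e⁻¹) * e = x := by group
        have h3 := hG.conj_mem _ h1 e⁻¹
        rw [inv_inv, e1] at h3
        have h4 := Subgroup.mul_mem _ (Subgroup.mul_mem _ (Subgroup.inv_mem _ he') h2) he'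
        rw [e1] at h4
        exact ⟨h3, h4⟩
    · have he' : e ∈ chainStabilizer σ := he.2
      obtain ⟨l, hl, hel⟩ := c3 σ e hz (by
        rw [stab_image he']
        exact hz)
      exact ⟨l, hl, hel, Subgroup.mul_mem _ he' hl.2⟩
  · intro σ hσ hz g hg _ hz'
    obtain ⟨l, hl, hgl⟩ := c3 σ g hz hz'
    refine ⟨g * l, ⟨D.G.mul_mem hg hl.1, hgl⟩, ?_⟩
    have e1 : conjSub (g * l) '' σ = conjSub g '' (conjSub l '' σ) := by
      rw [← Set.image_comp]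
      congr 1
      exact funext fun P => conjSub_mul g l P
    rw [e1, stab_image hl.2]

/-- the alternating sum for `H` vanishes if `H` normalises a `p`-subgroup not contained in `Z` -/
theorem alt_zero (cnj : S_CNJ) (con : S_CON) (chi : S_CHI) {Q : Subgroup Γ}
    (hQ : IsPGroup D.p Q) (hQG : Q ≤ D.G) (hQH : Q ≤ H)
    (hHQ : H ≤ Subgroup.normalizer (Q : Set Γ)) (hQZ : ¬ Q ≤ Z) :
    altX D.p (D.G ⊓ H) Z (wn D (D.G ⊓ H) H) = 0 := by
  have hG := h.hG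
  have hZn := h.hZn
  have hK := h.nK
  obtain ⟨-, -, -, c4⟩ := chi parts2.ti Γ D.p D.N D.G y H P h.d h.hNG h.hyG Z h.hZG h.hZp
  refine con Γ D.p (D.G ⊓ H) H Z Q (kn D) inf_le_right ?_ hHQ (le_inf h.hZG c4)
    (le_inf hQG hQH) h.hZp hQ hQZ ?_
  · rw [Subgroup.normalizer_eq_top]
    exact le_top
  · intro σ _ g hg
    exact cnj Γ D hG hN hK h.hZ _ _ (inf_le_left.trans inf_le_left) g hg.1

end Gl

omit hN in
/-- the block sees the sections -/
lemma good_cn (gdt : S_GDT) (hN : D.N.Normal) (hK : D.K.Normal) {x : Γ} (hxG : x ∈ D.G)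
    (hx : Sec D.p D.N D.K x) (hl : D.lam x ∉ D.O.nonunits) {L : Subgroup Γ} (hL : L ≤ D.G)
    {χ : L → ℂ} (hχ : IsIrr χ) (hb : ∀ x ∈ D.G, D.lam x - indc D.G L χ x ∈ D.O.nonunits) :
    ∃ x : L, Sec D.p D.N D.K (x : Γ) ∧ omega χ x ∉ D.O.nonunits := by
  obtain ⟨v, ⟨g, hg, hv⟩, ho⟩ := gdt Γ D.O D.G L hL χ hχ x (fun h1 => hl (by
    rw [nu_iff_of_sub (hb x hxG)]
    exact h1))
  refine ⟨v, ?_, ho⟩
  rw [← hv]
  have := hx.conj hN hK g⁻¹
  rwa [inv_inv] at this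

end Pool.Agent.Q17.DC
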