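import Pool.Agent.Q17.DC.Stm
import Pool.Agent.Q17.DC.Cnt

/-!
# Further statements for project DC: induced blocks exist
-/

set_option autoImplicit false

open scoped BigOperators Classical
open Pool.Agent.H254R3.IN Pool.Agent.Y63.KR Pool.Agent.Q17.TC

noncomputable section

namespace Pool.Agent.Q17.DC

/-- EXI. Brauer: a character `θ` of the normaliser `L'` in `L` of a `p`-subgroup `D` of `L` lies in a
block which induces a block of `L`. Proof: very close to `t_BRD` in `Pool.Agent.Q176.DC.BRD` (its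
auxiliary results `rs`, `rs_cl`, `rs_mem`, `red_Om_congr`, `rs_conv`, `cl_shift`, `Om_shift`,
`conv_shift`, `conv_idem` can be used; there `φ` is a character of the centraliser). Work in the group
`L` (as a type), with `D` and `L'` as subgroups of it. For a class function `u` of `L` with values in
`O` let `h u = Om (rs L' u) θ`, for `u = ind x` this is `indc L L' θ x`. (1) By `red_Om` and `lam_zero`
(`H254R3.IN.Normal`: `red O (omega θ v) = 0` if `v ∉ C(D)`, as `D` is normal in `L'`) `red O (h u)`
depends only on the residues of the values of `u` on `C = C_L(D) ≤ L'`. (2)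
`red O (h (conv u v)) = red O (h u) * red O (h v)`: by `rs_conv` for `D` in `L` and for `D` in `L'` the
functions `rs L' (conv u v)` and `conv (rs L' u) (rs L' v)` have the same residues on `C`; then (1) and
`Om_conv`. (3) `h dl = 1` and `dl` is the sum of the `blockCoeff B` over the blocks (see the proof of
`S_PRT` in `Pool.Agent.Q111.DC.PRT`), so there is a block `B` with `red O (h (blockCoeff B)) ≠ 0`.
(4) As in `t_BRD`: for `T ⊆ B` there is `P` with `Om P χ' = ∏_{ψ ∈ T} (omega χ' x - omega ψ x)`, for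
`T = B` one has `conv P (blockCoeff B) = 0`, so `red O (h P) = 0`, and `red O (h P)` is the product of
the `red O (h (ind x)) - red O (omega ψ x)`. -/
def S_EXI : Prop := ∀ (Γ : Type) [Group Γ] [Fintype Γ] (p : ℕ) [Fact p.Prime]
  (O : ValuationSubring ℂ), (p : ℂ) ∈ O.nonunits → ∀ L L' D : Subgroup Γ, D ≤ L →
  IsPGroup p D → (∀ x, x ∈ L' ↔ x ∈ L ∧ x ∈ Subgroup.normalizer (D : Set Γ)) →
  ∀ θ : L' → ℂ, IsIrr θ → ∃ B : Set (L → ℂ), IsBlock O B ∧ ∀ χ ∈ B, ∀ x : L,
    omega χ x - indc L L' θ (x : Γ) ∈ O.nonunits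

/-- EXC. Knörr and Robinson: the block of a character of the stabiliser of a chain induces a block.
Hypotheses of the theorem to be proved: `S_EXI`, `S_TRS` (`t_EXC : S_EXI → S_TRS → S_EXC`). Proof by
induction on `σ.ncard`. If `σ = ∅` then `Ns X σ = X` and the block of `θ` will do (`indc X X θ x` is
`omega θ x`; in Lean: `Ns X ∅ = X`, transport `θ`). Otherwise let `D` be the least member of the finite
chain `σ` and `τ = σ \ {D}`, a chain again. `D ≤ Ns X τ` since `D ≤ P` for all `P ∈ τ`, and
`x ∈ Ns X σ` iff `x ∈ Ns X τ` and `x` normalises `D`. `S_EXI` for `L = Ns X τ`, `L' = Ns X σ` gives a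
block `B'` of `Ns X τ`; let `χ' ∈ B'` (`IsBlock.nonempty`, `IsBlock.irr`). The induction hypothesis
gives a block `B` of `X` for `χ'`, and `S_TRS` (with `G = X`, `L`, `L'`, `χ = χ'`, `ψ = θ`) shows that
the central characters induced by `χ'` and `θ` are congruent; add the two congruences
(`nu_add`). -/
def S_EXC : Prop := ∀ (Γ : Type) [Group Γ] [Fintype Γ] (p : ℕ) [Fact p.Prime]
  (O : ValuationSubring ℂ), (p : ℂ) ∈ O.nonunits → ∀ (X Z : Subgroup Γ)
  (σ : Set (Subgroup Γ)), Ch p X Z σ → ∀ θ : Ns X σ → ℂ, IsIrr θ → ∃ B : Set (X → ℂ),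
    IsBlock O B ∧ ∀ χ ∈ B, ∀ x : X, omega χ x - indc X (Ns X σ) θ (x : Γ) ∈ O.nonunits

/-- DEC. Decomposition of the number of characters of `L` according to the blocks of `X`, if all
characters of `L` are in blocks which induce blocks of `X`. Hypothesis of the theorem to be proved:
`S_TRS` (`t_DEC : S_TRS → S_DEC`). Proof: there are finitely many irreducible characters (`IC.Irr`,
`mem_Irr`) and blocks. Every `θ` which is counted on the left satisfies the second condition of the
right hand side for exactly one block `b` of `X` (existence by hypothesis; if `ψ ∈ b`, `ψ' ∈ b'` have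
central characters congruent to the one induced by `θ` then `b = b'` by the definition of
`IsBlock`), and `b` satisfies the condition of the index set by `S_TRS` (for `ψ ∈ b`:
`indc G X ψ x - indc G L θ x ∈ O.nonunits`). Conversely a `θ` counted for such a `b` is counted on the
left, again by `S_TRS`. -/
def S_DEC : Prop := ∀ (Γ : Type) [Group Γ] [Fintype Γ] (O : ValuationSubring ℂ)
  (G X L : Subgroup Γ), L ≤ X → X ≤ G → (∀ θ : L → ℂ, IsIrr θ → ∃ b : Set (X → ℂ),
    IsBlock O b ∧ ∀ ψ ∈ b, ∀ x : X, omega ψ x - indc X L θ (x : Γ) ∈ O.nonunits) →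
  ∀ (lam : Γ → ℂ) (Φ : (L → ℂ) → Prop),
  (Nat.card {θ : L → ℂ // IsIrr θ ∧ (∀ x ∈ G, lam x - indc G L θ x ∈ O.nonunits) ∧ Φ θ} : ℤ) =
  ∑ᶠ b : {b : Set (X → ℂ) // IsBlock O b ∧
      ∀ ψ ∈ b, ∀ x ∈ G, lam x - indc G X ψ x ∈ O.nonunits},
    (Nat.card {θ : L → ℂ // IsIrr θ ∧
      (∀ ψ ∈ b.1, ∀ x : X, omega ψ x - indc X L θ (x : Γ) ∈ O.nonunits) ∧ Φ θ} : ℤ)

/-- TRP. Chains of `p`-subgroups of the subgroup `X` of `Γ` and chains of `p`-subgroups of the group `X`
(the type `↥X`). Proof: `e σ = Subgroup.map X.subtype '' σ` is a bijection from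
`{σ // Ch p ⊤ (Z.subgroupOf X) σ}` onto `{σ // Ch p X Z σ}` (inverse: `subgroupOf X`), it respects
conjugacy under `X` (`conjSub (g : Γ) (P.map X.subtype) = (conjSub g P).map X.subtype`), so it induces a
bijection of the quotients; lengths agree (`Set.ncard_image_of_injective`) and the values of `w` at
two representatives of the same class agree by hypothesis. Use `finsum_eq_of_bijective` or
`Fintype.sum_bijective`; `Quotient.exact (Quotient.out_eq _)`. -/
def S_TRP : Prop := ∀ (Γ : Type) [Group Γ] [Fintype Γ] (p : ℕ) (X Z : Subgroup Γ), Z ≤ X →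
  ∀ w : Set (Subgroup Γ) → ℤ, (∀ σ, Ch p X Z σ → ∀ g ∈ X, w (conjSub g '' σ) = w σ) →
  altX p X Z w = altX p (⊤ : Subgroup X) (Z.subgroupOf X)
    fun σ => w (Subgroup.map X.subtype '' σ)

end Pool.Agent.Q17.DC
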