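import Pool.Agent.Q17.DC.E6
import Pool.Agent.Q17.DC.Stm2

/-!
# Decomposition of the alternating sums according to the blocks of a subgroup
-/

set_option autoImplicit false

open scoped BigOperators Classical
open Pool.Agent.Helper884 Representation Pool.Agent.H254R3.IN Pool.Agent.Q17.TC Pool.Agent.Y63.KR

noncomputable section

namespace Pool.Agent.Q17.DC

section fin

variable {A : Type} [Group A] [Finite A]

lemma finite_irr : Finite {χ : A → ℂ // IsIrr χ} := by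
  have : Fintype A := Fintype.ofFinite A
  have h1 : {χ : A → ℂ | IsIrr χ} ⊆ (IC.Irr A : Set (A → ℂ)) := fun χ hχ => mem_Irr.2 hχ
  exact ((IC.Irr A).finite_toSet.subset h1).to_subtype

lemma finite_bl (O : ValuationSubring ℂ) : Set.Finite {b : Set (A → ℂ) | IsBlock O b} := by
  have := finite_irr (A := A)
  refine (Set.finite_range fun χ₀ : {χ : A → ℂ // IsIrr χ} =>
    {χ : A → ℂ | IsIrr χ ∧ ∀ x : A, omega χ x - omega χ₀.1 x ∈ O.nonunits}).subset ?_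
  rintro b ⟨χ₀, h1, rfl⟩
  exact ⟨⟨χ₀, h1⟩, rfl⟩

lemma finite_bl' (O : ValuationSubring ℂ) (q : Set (A → ℂ) → Prop) :
    Finite {b : Set (A → ℂ) // IsBlock O b ∧ q b} :=
  ((finite_bl (A := A) O).subset fun _ h => h.1).to_subtype

end fin

variable {Γ : Type} [Group Γ]

lemma altX_congr {p : ℕ} {X Z : Subgroup Γ} {w w' : Set (Subgroup Γ) → ℤ}
    (h : ∀ σ, Ch p X Z σ → w σ = w' σ) : altX p X Z w = altX p X Z w' :=
  finsum_congr fun c => by rw [h _ (Quotient.out c).2]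

lemma altX_finsum [Finite Γ] {p : ℕ} {X Z : Subgroup Γ} {β : Type} [Finite β]
    (w : β → Set (Subgroup Γ) → ℤ) :
    altX p X Z (fun σ => ∑ᶠ b, w b σ) = ∑ᶠ b, altX p X Z (w b) := by
  have : Fintype β := Fintype.ofFinite β
  have : Finite (Quotient (chX p X Z)) := inferInstance
  have : Fintype (Quotient (chX p X Z)) := Fintype.ofFinite _
  unfold altX
  rw [finsum_eq_sum_of_fintype, finsum_eq_sum_of_fintype]
  have h1 : ∀ c : Quotient (chX p X Z), (-1 : ℤ) ^ (Quotient.out c).1.ncard *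
      ∑ᶠ b, w b (Quotient.out c).1 = ∑ b, (-1 : ℤ) ^ (Quotient.out c).1.ncard *
        w b (Quotient.out c).1 := by
    intro c
    rw [finsum_eq_sum_of_fintype, Finset.mul_sum]
  rw [Finset.sum_congr rfl fun c _ => h1 c, Finset.sum_comm]
  refine Finset.sum_congr rfl fun b _ => ?_
  rw [finsum_eq_sum_of_fintype]

lemma altX_add [Finite Γ] {p : ℕ} {X Z : Subgroup Γ} (w w' : Set (Subgroup Γ) → ℤ) :
    altX p X Z (fun σ => w σ + w' σ) = altX p X Z w + altX p X Z w' := by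
  have : Fintype (Quotient (chX p X Z)) := Fintype.ofFinite _
  unfold altX
  rw [finsum_eq_sum_of_fintype, finsum_eq_sum_of_fintype, finsum_eq_sum_of_fintype,
    ← Finset.sum_add_distrib]
  exact Finset.sum_congr rfl fun c _ => mul_add _ _ _

/-- the remaining conditions on the characters which are counted -/
def Rst (D : Dt Γ) (L R : Subgroup Γ) (θ : L → ℂ) : Prop :=
  (D.a → ∃ x : L, Sec D.p D.N D.K (x : Γ) ∧ omega θ x ∉ D.O.nonunits) ∧
  (D.b → ∃ x : L, Sec D.p D.N D.K (x : Γ) ∧ θ x ≠ 0) ∧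
  (∀ c : L, (c : Γ) ∈ D.Z₁ → θ c = θ 1 * D.mu c) ∧
  (∃ n : ℕ, (n : ℂ) = θ 1 ∧ D.T (Nat.card L) n) ∧
  D.S (stb D.G R L θ)

lemma cn_iff {D : Dt Γ} {L R : Subgroup Γ} {θ : L → ℂ} : Cn D L R θ ↔
    IsIrr θ ∧ (∀ x ∈ D.G, D.lam x - indc D.G L θ x ∈ D.O.nonunits) ∧ Rst D L R θ := by
  constructor
  · rintro ⟨h1, h2, h3, h4, h5, h6, h7⟩
    exact ⟨h1, h2, h3, h4, h5, h6, h7⟩
  · rintro ⟨h1, h2, h3, h4, h5, h6, h7⟩
    exact ⟨h1, h2, h3, h4, h5, h6, h7⟩

/-- the number of the characters of `L` which are counted and lie in blocks inducing the block `b` of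
`X` -/
def kb (D : Dt Γ) {X : Subgroup Γ} (b : Set (X → ℂ)) (L R : Subgroup Γ) : ℤ :=
  (Nat.card {θ : L → ℂ // IsIrr θ ∧
    (∀ ψ ∈ b, ∀ x : X, omega ψ x - indc X L θ (x : Γ) ∈ D.O.nonunits) ∧ Rst D L R θ} : ℤ)

/-- `b` is a block of `X` which induces the block with central character `lam` -/
def Bs (D : Dt Γ) (X : Subgroup Γ) : Type :=
  {b : Set (X → ℂ) // IsBlock D.O b ∧ ∀ ψ ∈ b, ∀ x ∈ D.G, D.lam x - indc D.G X ψ x ∈ D.O.nonunits}

instance {D : Dt Γ} {X : Subgroup Γ} [Finite Γ] : Finite (Bs D X) := finite_bl' D.O _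

variable [Fintype Γ]

/-- **decomposition** -/
theorem alt_dec (exc : S_EXC) (dec : S_DEC) {D : Dt Γ} (hp : Fact D.p.Prime)
    (hO : (D.p : ℂ) ∈ D.O.nonunits) {X : Subgroup Γ} (hX : X ≤ D.G) (Z M : Subgroup Γ) :
    altX D.p X Z (wn D X M) =
      ∑ᶠ b : Bs D X, altX D.p X Z fun σ => kb D b.1 (Ns X σ) (Ns M σ) := by
  rw [← altX_finsum (p := D.p) (X := X) (Z := Z)
    (fun (b : Bs D X) σ => kb D b.1 (Ns X σ) (Ns M σ))]
  refine altX_congr fun σ hσ => ?_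
  unfold wn kn kb Bs
  rw [← dec Γ D.O D.G X (Ns X σ) inf_le_left hX
    (fun θ hθ => exc Γ D.p D.O hO X Z σ hσ θ hθ) D.lam (Rst D (Ns X σ) (Ns M σ))]
  congr 1
  exact Nat.card_congr (Equiv.subtypeEquivRight fun θ => cn_iff)

variable {D : Dt Γ} [hN : D.N.Normal] [hp : Fact D.p.Prime] {y : Γ} {H : Subgroup Γ}
  {P : Sylow D.p Γ} {Z : Subgroup Γ}

/-- **comparison of the alternating sums**, second form -/
theorem Gl.alt_dec (h : Gl D y H P Z) (lo : S_LOC) (bl : S_BLKC) (ts : S_TRS) (df : S_DEF)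
    (chi : S_CHI) (chs : S_CHS) (cnj : S_CNJ) (exc : S_EXC) (dec : S_DEC) {X : Subgroup Γ}
    (hX : X = D.G ⊓ H) :
    altX D.p D.G Z (wn D D.G ⊤) =
      ∑ᶠ b : Bs D X, altX D.p X Z fun σ => kb D b.1 (Ns X σ) (Ns H σ) := by
  subst hX
  rw [h.alt_eq lo bl ts df chi chs cnj]
  exact Pool.Agent.Q17.DC.alt_dec exc dec hp h.hO inf_le_left Z H

/-- the alternating sum vanishes if `H` normalises a `p`-subgroup not contained in `Z` -/
theorem Gl.alt_zero' (h : Gl D y H P Z) (lo : S_LOC) (bl : S_BLKC) (ts : S_TRS) (df : S_DEF)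
    (chi : S_CHI) (chs : S_CHS) (cnj : S_CNJ) (con : S_CON) {Q : Subgroup Γ}
    (hQ : IsPGroup D.p Q) (hQG : Q ≤ D.G) (hQH : Q ≤ H)
    (hHQ : H ≤ Subgroup.normalizer (Q : Set Γ)) (hQZ : ¬ Q ≤ Z) :
    altX D.p D.G Z (wn D D.G ⊤) = 0 := by
  rw [h.alt_eq lo bl ts df chi chs cnj]
  exact h.alt_zero cnj con chi hQ hQG hQH hHQ hQZ

end Pool.Agent.Q17.DC
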