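import Pool.Agent.Q17.DC.Pkg
import Pool.Agent.Q17.DC.Stm4

/-!
# Preparations for the comparison of the numbers of Brauer characters
-/

set_option autoImplicit false

open scoped BigOperators Classical
open Pool.Agent.Helper884 Representation Pool.Agent.H254R3.IN Pool.Agent.Q17.TC Pool.Agent.Y63.KR
  Pool.Agent.Y62

noncomputable section

namespace Pool.Agent.Q17.DC

/-- sums over the classes of a group and of a subgroup -/
lemma sum_quot_eq {G : Type} [Group G] [Fintype G] (H : Subgroup G) (w : G → ℕ) (w' : H → ℕ)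
    (R : H → Prop) (hw : ∀ u v, IsConj u v → w u = w v)
    (hw' : ∀ u v : H, IsConj u v → w' u = w' v)
    (h1 : ∀ u, w u ≠ 0 → ∃ v : H, IsConj u (v : G) ∧ R v) (h2 : ∀ v, w' v ≠ 0 → R v)
    (h3 : ∀ v, R v → w v = w' v)
    (h4 : ∀ v v' : H, R v → R v' → IsConj (v : G) (v' : G) → IsConj v v') :
    ∑ᶠ c : Quotient (IsConj.setoid G), w c.out = ∑ᶠ c : Quotient (IsConj.setoid H), w' c.out := by
  have : Fintype (Quotient (IsConj.setoid G)) := Fintype.ofFinite _
  have : Fintype (Quotient (IsConj.setoid H)) := Fintype.ofFinite _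
  rw [finsum_eq_sum_of_fintype, finsum_eq_sum_of_fintype]
  have hG : ∀ u : G, IsConj (Quotient.mk (IsConj.setoid G) u).out u := fun u =>
    Quotient.exact (s := IsConj.setoid G) (Quotient.out_eq _)
  have hH : ∀ u : H, IsConj (Quotient.mk (IsConj.setoid H) u).out u := fun u =>
    Quotient.exact (s := IsConj.setoid H) (Quotient.out_eq _)
  symm
  refine Finset.sum_bij_ne_zero
    (fun c _ _ => Quotient.mk (IsConj.setoid G) ((c.out : H) : G))
    (fun _ _ _ => Finset.mem_univ _) ?_ ?_ ?_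
  · intro c₁ _ n₁ c₂ _ n₂ h
    have h5 : IsConj ((c₁.out : H) : G) ((c₂.out : H) : G) := Quotient.exact h
    have h6 := h4 _ _ (h2 _ n₁) (h2 _ n₂) h5
    rw [← Quotient.out_eq c₁, ← Quotient.out_eq c₂]
    exact Quotient.sound h6
  · intro c _ hc
    obtain ⟨v, hv, hR⟩ := h1 _ hc
    have h5 : w' (Quotient.mk (IsConj.setoid H) v).out ≠ 0 := by
      rw [hw' _ _ (hH v), ← h3 v hR, ← hw _ _ hv]
      exact hc
    refine ⟨Quotient.mk (IsConj.setoid H) v, Finset.mem_univ _, h5, ?_⟩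
    have h6 : IsConj (((Quotient.mk (IsConj.setoid H) v).out : H) : G) c.out := by
      obtain ⟨g, hg⟩ := isConj_iff.mp (hH v)
      refine (isConj_iff.mpr ⟨(g : G), ?_⟩ : IsConj _ (v : G)).trans hv.symm
      exact congrArg Subtype.val hg
    exact (Quotient.sound h6).trans (Quotient.out_eq c)
  · intro c _ hc
    rw [hw _ _ (hG _), h3 _ (h2 _ hc)]

lemma finsum_sub {X : Type} [Fintype X] (P : X → Prop) (f : X → ℂ) :
    ∑ᶠ v : {v : X // P v}, f v = ∑ v ∈ Finset.univ.filter P, f v := by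
  rw [finsum_eq_sum_of_fintype, ← Finset.sum_subtype (p := P) (Finset.univ.filter P) (by simp) f]

lemma conj_hom {X Y : Type} [Group X] [Group Y] (i : X →* Y) {x x' : X} (h : IsConj x x') :
    IsConj (i x) (i x') := by
  obtain ⟨g, rfl⟩ := isConj_iff.mp h
  exact isConj_iff.mpr ⟨i g, by rw [map_mul, map_mul, map_inv]⟩

section trj

variable {X Y Z : Type} [Group X] [Group Y] [Group Z] [Fintype X] [Fintype Y] (i : X →* Y)
  (j : Y →* Z) {O : ValuationSubring ℂ}

lemma ind_cls {ψ : Y → ℂ} (hψ : IsIrr ψ) (z : Z) :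
    ∑ᶠ y : {y : Y // IsConj z (j y)}, ψ y / ψ 1 =
      ∑ K ∈ Finset.univ.filter (fun K : ConjClasses Y => IsConj z (j (rep K))),
        omega ψ (rep K) := by
  rw [finsum_sub (fun y : Y => IsConj z (j y)) (fun y => ψ y / ψ 1)]
  exact sum_pred (fun y : Y => IsConj z (j y))
    (fun y y' h => ⟨fun h' => h'.trans (conj_hom j h), fun h' => h'.trans (conj_hom j h).symm⟩) hψ

lemma ind_stages (θ : X → ℂ) (z : Z) :
    ∑ K ∈ Finset.univ.filter (fun K : ConjClasses Y => IsConj z (j (rep K))),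
      ∑ᶠ v : {v : X // IsConj (rep K) (i v)}, θ v / θ 1 =
    ∑ᶠ v : {v : X // IsConj z (j (i v))}, θ v / θ 1 := by
  rw [finsum_sub (fun v : X => IsConj z (j (i v))) (fun v => θ v / θ 1)]
  have h1 : ∀ K ∈ Finset.univ.filter (fun K : ConjClasses Y => IsConj z (j (rep K))),
      ∑ᶠ v : {v : X // IsConj (rep K) (i v)}, θ v / θ 1 =
      ∑ v ∈ Finset.univ.filter (fun v : X => IsConj z (j (i v))),
        if IsConj (rep K) (i v) then θ v / θ 1 else 0 := by
    intro K hK
    rw [finsum_sub (fun v : X => IsConj (rep K) (i v)) (fun v => θ v / θ 1), Finset.sum_filter,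
      Finset.sum_filter]
    refine Finset.sum_congr rfl fun v _ => ?_
    by_cases h2 : IsConj (rep K) (i v)
    · rw [if_pos h2, if_pos ((Finset.mem_filter.mp hK).2.trans (conj_hom j h2))]
    · rw [if_neg h2, ite_self]
  rw [Finset.sum_congr rfl h1, Finset.sum_comm]
  refine Finset.sum_congr rfl fun v hv => ?_
  have hv' := (Finset.mem_filter.mp hv).2
  rw [Finset.sum_eq_single (ConjClasses.mk (i v))]
  · rw [if_pos (rep_mk _)]
  · intro K _ hne
    rw [if_neg]
    intro hc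
    exact hne ((mk_eq_iff _ _).mpr hc).symm
  · intro hn
    exfalso
    apply hn
    exact Finset.mem_filter.mpr ⟨Finset.mem_univ _, hv'.trans (conj_hom j (rep_mk (i v))).symm⟩

/-- induction of blocks in stages -/
lemma trj {ψ : Y → ℂ} (hψ : IsIrr ψ) {θ : X → ℂ}
    (h : ∀ y : Y, omega ψ y - ∑ᶠ v : {v : X // IsConj y (i v)}, θ v / θ 1 ∈ O.nonunits) (z : Z) :
    ∑ᶠ y : {y : Y // IsConj z (j y)}, ψ y / ψ 1 -
      ∑ᶠ v : {v : X // IsConj z (j (i v))}, θ v / θ 1 ∈ O.nonunits := by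
  rw [ind_cls j hψ, ← ind_stages i j, ← Finset.sum_sub_distrib]
  exact sum_mem fun K _ => h (rep K)

/-- a character of `Y` in a block which sees the class of `z` -/
lemma gdj {ψ : Y → ℂ} (hψ : IsIrr ψ) {z : Z}
    (h : ∑ᶠ y : {y : Y // IsConj z (j y)}, ψ y / ψ 1 ∉ O.nonunits) :
    ∃ y : Y, IsConj z (j y) ∧ omega ψ y ∉ O.nonunits := by
  rw [ind_cls j hψ] at h
  by_contra hn
  push Not at hn
  apply h
  exact sum_mem fun K hK => hn (rep K) (Finset.mem_filter.mp hK).2

end trj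

section cen

variable {G : Type} [Group G] [Fintype G]

omit [Fintype G] in
lemma cen_scalar {χ : G → ℂ} (hχ : IsIrr χ) {u : G} (hu : ∀ g, u * g = g * u) :
    ∃ c : ℂ, c ≠ 0 ∧ ∀ s, χ (u * s) = c * χ s := by
  obtain ⟨V, _, _, _, ρ, hr, rfl⟩ := hχ
  obtain ⟨c, hc⟩ := schur ρ hr (ρ u) (fun h v => by
    rw [← Module.End.mul_apply, ← Module.End.mul_apply, ← map_mul, ← map_mul, hu])
  refine ⟨c, ?_, fun s => ?_⟩
  · rintro rfl
    rw [zero_smul] at hc
    have hV := irr_nontrivial ρ hr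
    obtain ⟨v, hv⟩ := exists_ne (0 : V)
    apply hv
    have h1 : ρ u⁻¹ (ρ u v) = v := by
      rw [← Module.End.mul_apply, ← map_mul, inv_mul_cancel, map_one, Module.End.one_apply]
    rw [← h1, hc, LinearMap.zero_apply, map_zero]
  · change LinearMap.trace ℂ V (ρ (u * s)) = c * LinearMap.trace ℂ V (ρ s)
    rw [map_mul, hc, smul_mul_assoc, map_smul, smul_eq_mul]
    rfl

omit [Fintype G] in
lemma inS_cen {p : ℕ} {u : G} (hu : ∀ g, u * g = g * u) (hup : ∃ k, orderOf u = p ^ k) (s : G) :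
    InS p u (u * s) ↔ ¬ p ∣ orderOf s := by
  constructor
  · rintro ⟨z, t, h1, -, -, h2, h3⟩
    obtain ⟨g, hg⟩ := isConj_iff.mp h3
    have h4 : z = u := by
      rw [← hg, ← hu g, mul_assoc, mul_inv_cancel, mul_one]
    rw [h4] at h1
    rw [mul_left_cancel h1]
    exact h2
  · intro h
    exact ⟨u, s, rfl, hu s, hup, h, IsConj.refl u⟩

omit [Fintype G] in
/-- the section of a central element -/
lemma dS_cen {p : ℕ} {u : G} (hu : ∀ g, u * g = g * u) (hup : ∃ k, orderOf u = p ^ k)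
    {B : Set (G → ℂ)} (hB : ∀ χ ∈ B, IsIrr χ) : dS p u B = lB p B := by
  unfold dS lB
  let T : (G → ℂ) ≃ₗ[ℂ] (G → ℂ) := LinearEquiv.funCongrLeft ℂ ℂ (Equiv.mulLeft u)
  have hT : ∀ (f : G → ℂ) (x : G), T f x = f (u * x) := fun f x => rfl
  rw [← LinearEquiv.finrank_map_eq T, Submodule.map_span]
  have key : Submodule.span ℂ ((T : (G → ℂ) →ₗ[ℂ] (G → ℂ)) '' {f : G → ℂ | ∃ χ ∈ B, ∀ x : G,
      f x = if InS p u x then χ x else 0}) = Submodule.span ℂ {f : G → ℂ | ∃ χ ∈ B, ∀ x : G,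
      f x = if p ∣ orderOf x then 0 else χ x} := ?_
  · rw [key]
  apply le_antisymm
  · rw [Submodule.span_le]
    rintro _ ⟨f, ⟨χ, hχ, hf⟩, rfl⟩
    obtain ⟨c, -, hc⟩ := cen_scalar (hB χ hχ) hu
    have h1 : T f = c • fun x => if p ∣ orderOf x then 0 else χ x := by
      funext x
      change f (u * x) = c * (if p ∣ orderOf x then 0 else χ x)
      rw [hf]
      by_cases h2 : p ∣ orderOf x
      · rw [if_pos h2, if_neg (fun h => (inS_cen hu hup x).mp h h2), mul_zero]
      · rw [if_neg h2, if_pos ((inS_cen hu hup x).mpr h2), hc]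
    change T f ∈ Submodule.span ℂ _
    rw [h1]
    exact Submodule.smul_mem _ _ (Submodule.subset_span ⟨χ, hχ, fun _ => rfl⟩)
  · rw [Submodule.span_le]
    rintro f ⟨χ, hχ, hf⟩
    obtain ⟨c, hc0, hc⟩ := cen_scalar (hB χ hχ) hu
    have h1 : f = c⁻¹ • T (fun x => if InS p u x then χ x else 0) := by
      funext x
      change f x = c⁻¹ * (if InS p u (u * x) then χ (u * x) else 0)
      rw [hf]
      by_cases h2 : p ∣ orderOf x
      · rw [if_pos h2, if_neg (fun h => (inS_cen hu hup x).mp h h2), mul_zero]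
      · rw [if_neg h2, if_pos ((inS_cen hu hup x).mpr h2), hc, ← mul_assoc,
          inv_mul_cancel₀ hc0, one_mul]
    change f ∈ Submodule.span ℂ _
    rw [h1]
    exact Submodule.smul_mem _ _ (Submodule.subset_span ⟨_, ⟨χ, hχ, fun _ => rfl⟩, rfl⟩)

omit [Fintype G] in
lemma inS_congr {p : ℕ} {u v : G} (h : IsConj u v) (x : G) : InS p u x ↔ InS p v x := by
  constructor
  · rintro ⟨z, t, h1, h2, h3, h4, h5⟩
    exact ⟨z, t, h1, h2, h3, h4, h.symm.trans h5⟩
  · rintro ⟨z, t, h1, h2, h3, h4, h5⟩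
    exact ⟨z, t, h1, h2, h3, h4, h.trans h5⟩

omit [Fintype G] in
lemma dS_congr {p : ℕ} {u v : G} (h : IsConj u v) (B : Set (G → ℂ)) : dS p u B = dS p v B := by
  unfold dS
  have key : ∀ u v : G, IsConj u v → {f : G → ℂ | ∃ χ ∈ B, ∀ x, f x = if InS p u x then χ x else 0}
      ⊆ {f : G → ℂ | ∃ χ ∈ B, ∀ x, f x = if InS p v x then χ x else 0} := by
    rintro u v h f ⟨χ, hχ, hf⟩
    refine ⟨χ, hχ, fun x => ?_⟩
    rw [hf]
    by_cases h1 : InS p u x
    · rw [if_pos h1, if_pos ((inS_congr h x).mp h1)]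
    · rw [if_neg h1, if_neg fun h2 => h1 ((inS_congr h x).mpr h2)]
  rw [Set.Subset.antisymm (key u v h) (key v u h.symm)]

end cen

end Pool.Agent.Q17.DC
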