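import Pool.Agent.Q17.DC.LB1

/-!
# Comparison of the numbers of Brauer characters
-/

set_option autoImplicit false

open scoped BigOperators Classical
open Pool.Agent.Helper884 Representation Pool.Agent.H254R3.IN Pool.Agent.Q17.TC Pool.Agent.Y63.KR
  Pool.Agent.Y62

noncomputable section

namespace Pool.Agent.Q17.DC

/-- the standard data -/
def stdQ {A : Type} [Group A] (p : ℕ) (O : ValuationSubring ℂ) (N K : Subgroup A) : Pt A :=
  ⟨p, O, N, K, ⊥, fun _ => 1, True, False, fun _ _ => True, fun _ => True⟩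

/-- the block `B` sees the coset -/
def Gd {A : Type} [Group A] (p : ℕ) (O : ValuationSubring ℂ) (N K : Subgroup A)
    (B : Set (A → ℂ)) : Prop :=
  ∃ x, Sec p N K x ∧ ∀ χ ∈ B, omega χ x ∉ O.nonunits

variable {A : Type} [Group A] [Fintype A] {p : ℕ} [hp : Fact p.Prime] {O : ValuationSubring ℂ}
  {N : Subgroup A} [hN : N.Normal] {y : A} {H : Subgroup A} {P : Sylow p A}

omit hp in
/-- the hypotheses in the standard form -/
lemma std_pl (d : TD p N y H P) (hO : (p : ℂ) ∈ O.nonunits) :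
    @Pl A _ (stdQ p O N (KK N y)) _ hN y H P ⊥ := by
  have hN' : (stdQ p O N (KK N y)).N.Normal := hN
  exact
  { d := d
    hK := rfl
    hO := hO
    hZn := inferInstance
    hZp := IsPGroup.of_bot
    hZ := fun c hc g => by
      rw [Subgroup.mem_bot.mp hc, one_mul, mul_one] }

omit [Fintype A] hp hN in
lemma std_pc {K : Subgroup A} : Pc (stdQ p O N K) :=
  ⟨Or.inl trivial, Or.inl trivial, fun _ _ _ _ _ _ _ _ _ _ => Iff.rfl⟩

lemma gd_res (d : TD p N y H P) {B : Set (A → ℂ)} (hB : IsBlock O B) (hg : Gd p O N (KK N y) B)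
    {X : Subgroup A} {b : Set (X → ℂ)} (hb : IsBlock O b) (hi : IndB O B b) :
    Gd p O (N.subgroupOf X) ((KK N y).subgroupOf X) b :=
  @good_res A _ _ (stdQ p O N (KK N y)) hN hp prt.gdt d.nK B hB hg X b hb hi

lemma uniq (d : TD p N y H P) (hO : (p : ℂ) ∈ O.nonunits) {B : Set (A → ℂ)} (hB : IsBlock O B)
    (hg : Gd p O N (KK N y) B) {b b' : Set (H → ℂ)} (hb : IsBlock O b) (hi : IndB O B b)
    (hb' : IsBlock O b') (hi' : IndB O B b') : b = b' :=
  @Pl.unique_good A _ _ (stdQ p O N (KK N y)) hp hN y H P ⊥ (std_pl d hO) prt2 B hB hg b b' hb hi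
    hb' hi'

lemma exi (d : TD p N y H P) (hO : (p : ℂ) ∈ O.nonunits) {B : Set (A → ℂ)} (hB : IsBlock O B)
    (hg : Gd p O N (KK N y) B) : ∃ b : Set (H → ℂ), IsBlock O b ∧ IndB O B b := by
  have hm : Mts (stdQ p O N (KK N y)) B := @mts_of_good A _ _ (stdQ p O N (KK N y)) hp hN prt2 hO
    d.nK B hB hg
  obtain ⟨b, hb, hi, -⟩ := @Pl.exists_block A _ _ (stdQ p O N (KK N y)) hp hN y H P ⊥
    (std_pl d hO) prt2 B hB hm
  exact ⟨b, hb, hi⟩

/-- the numbers of characters -/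
lemma card_eq (d : TD p N y H P) (hO : (p : ℂ) ∈ O.nonunits) {B : Set (A → ℂ)}
    (hB : IsBlock O B) (hg : Gd p O N (KK N y) B) {b : Set (H → ℂ)} (hb : IsBlock O b)
    (hi : IndB O B b) : Nat.card B = Nat.card b := by
  have hgb := gd_res d hB hg hb hi
  have hm : Mts ((stdQ p O N (KK N y)).res H) b :=
    @mts_of_good H _ _ ((stdQ p O N (KK N y)).res H) hp (hN.subgroupOf H) prt2 hO
      (d.nK.subgroupOf H) b hb hgb
  have h1 := @Pl.single' A _ _ (stdQ p O N (KK N y)) hN hp y H P ⊥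
    (std_pl d hO) std_pc prt2 B hB b hb hi hm
  have h2 := ct_god (Q := stdQ p O N (KK N y)) hB
    (fun c hc => Subgroup.mem_bot.mp hc) rfl hg id
  have h3 := ct_god (Q := (stdQ p O N (KK N y)).res H) hb
    (fun c hc => Subtype.ext (Subgroup.mem_bot.mp hc)) rfl hgb id
  have h4 := Int.ofNat_inj.mp (h2.symm.trans (h1.trans h3))
  have h5 : ∀ {A : Type} [Group A] [Fintype A] (B : Set (A → ℂ)), IsBlock O B →
      Nat.card {χ : A → ℂ // χ ∈ B ∧ (∃ n : ℕ, (n : ℂ) = χ 1 ∧ True) ∧ True} = Nat.card B := by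
    intro A _ _ B hB
    refine Nat.card_congr (Equiv.subtypeEquivRight fun χ => ⟨fun h => h.1, fun h => ?_⟩)
    obtain ⟨n, hn⟩ := irr_deg_nat (hB.irr χ h)
    exact ⟨h, ⟨n, hn, trivial⟩, trivial⟩
  rw [← h5 B hB, ← h5 b hb]
  exact h4

/-- the `p`-subgroups which contain a `p`-element of the coset -/
lemma psub_le (d : TD p N y H P) {z : A} (hz : z ∈ H) (hzK : z ∈ KK N y) (hzN : z ∉ N)
    {D : Subgroup A} (hD : IsPGroup p D) (hzD : z ∈ D) : D ≤ H := by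
  have hzp : IsPGroup p (Subgroup.zpowers z) := hD.to_le (Subgroup.zpowers_le.mpr hzD)
  obtain ⟨P', d'⟩ := d.sub parts.ti hzp (Subgroup.zpowers_le.mpr hz) (Subgroup.mem_zpowers z) hzK
    hzN
  exact d'.D_le parts.ti hD hzD

omit hN in
/-- central elements are in `H` -/
lemma cenH_mem (d : TD p N y H P) {c : A} (hc : ∀ g, c * g = g * c) : c ∈ H := by
  refine (parts.ti A p N y H P d).1 c y d.hyH y_mem d.hyN ?_
  have h3 : c⁻¹ * y * c = y := by
    rw [mul_assoc, ← hc y]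
    group
  rw [h3]
  exact d.hyH

omit hp in
/-- a block of the centraliser of `u` (identified by `j`) which induces a good block -/
lemma has_of_ind {X Y : Type} [Group X] [Fintype X] [Group Y] (j : X →* Y) {K' N' : Subgroup Y}
    (hN' : N'.Normal) (hK' : K'.Normal) {B : Set (Y → ℂ)} (hg : Gd p O N' K' B)
    {χ : Y → ℂ} (hχ : χ ∈ B) {φ : X → ℂ} (hφ : IsIrr φ)
    (h : ∀ x : Y, omega χ x - ∑ᶠ v : {v : X // IsConj x (j v)}, φ v / φ 1 ∈ O.nonunits) :
    ∃ v : X, Sec p N' K' (j v) ∧ omega φ v ∉ O.nonunits := by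
  obtain ⟨x, hx, hx'⟩ := hg
  have h1 : ∑ᶠ v : {v : X // IsConj x (j v)}, φ v / φ 1 ∉ O.nonunits := by
    intro h2
    apply hx' χ hχ
    have h3 := nu_add (h x) h2
    rwa [sub_add_cancel] at h3
  obtain ⟨v, hv, ho⟩ := gdj j hφ h1
  obtain ⟨g, hg⟩ := isConj_iff.mp hv
  refine ⟨v, ?_, ho⟩
  rw [← hg]
  have h3 := hx.conj hN' hK' g⁻¹
  rwa [inv_inv] at h3

omit [Fintype A] hp hN in
/-- members of the same block induce the same central character -/
lemma ind_blk {X : Type} [Group X] [Fintype X] (j : X →* A) {β : Set (X → ℂ)}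
    (hβ : IsBlock O β) {θ θ' : X → ℂ} (hθ : θ ∈ β) (hθ' : θ' ∈ β) (x : A) :
    ∑ᶠ v : {v : X // IsConj x (j v)}, θ v / θ 1 -
      ∑ᶠ v : {v : X // IsConj x (j v)}, θ' v / θ' 1 ∈ O.nonunits := by
  rw [ind_cls j (hβ.irr θ hθ), ind_cls j (hβ.irr θ' hθ'), ← Finset.sum_sub_distrib]
  refine sum_mem fun K _ => ?_
  obtain ⟨χ₁, h1, rfl⟩ := hβ
  have h2 := hθ.2 (rep K)
  have h3 := hθ'.2 (rep K)
  have h4 : -(omega θ' (rep K) - omega χ₁ (rep K)) ∈ O.nonunits := by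
    have := nu_mul (O.neg_mem _ O.one_mem) h3
    rwa [neg_one_mul] at this
  have h5 := nu_add h2 h4
  have e1 : omega θ (rep K) - omega χ₁ (rep K) + -(omega θ' (rep K) - omega χ₁ (rep K)) =
      omega θ (rep K) - omega θ' (rep K) := by ring
  rwa [e1] at h5

/-- two blocks with congruent central characters are equal -/
lemma blk_eq {B B' : Set (A → ℂ)} (hB : IsBlock O B) (hB' : IsBlock O B') {χ χ' : A → ℂ}
    (hχ : χ ∈ B) (hχ' : χ' ∈ B') (h : ∀ x, omega χ x - omega χ' x ∈ O.nonunits) : B = B' := by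
  have h1 : χ' ∈ B := (mem_iff_ind (Q := stdQ 0 O (⊥ : Subgroup A) ⊥) hB).mpr
    ⟨hB'.irr χ' hχ', fun ψ hψ x => (blk_iff hB hχ x (omega χ' x)).mpr (h x) ψ hψ⟩
  obtain ⟨χ₁, h2, rfl⟩ := hB
  obtain ⟨χ₂, h3, rfl⟩ := hB'
  have key : ∀ {χ₁ χ₂ : A → ℂ}, (∀ x, omega χ' x - omega χ₁ x ∈ O.nonunits) →
      (∀ x, omega χ' x - omega χ₂ x ∈ O.nonunits) →
      {χ : A → ℂ | IsIrr χ ∧ ∀ x : A, omega χ x - omega χ₁ x ∈ O.nonunits} ⊆
      {χ : A → ℂ | IsIrr χ ∧ ∀ x : A, omega χ x - omega χ₂ x ∈ O.nonunits} := by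
    rintro χ₁ χ₂ h4 h5 ψ ⟨h6, h7⟩
    refine ⟨h6, fun x => ?_⟩
    have h8 := nu_mul (O.neg_mem _ O.one_mem) (h4 x)
    have h9 := nu_add (nu_add (h7 x) h8) (h5 x)
    have e1 : omega ψ x - omega χ₁ x + -1 * (omega χ' x - omega χ₁ x) +
        (omega χ' x - omega χ₂ x) = omega ψ x - omega χ₂ x := by ring
    rwa [e1] at h9
  exact Set.Subset.antisymm (key h1.2 hχ'.2) (key hχ'.2 h1.2)

end Pool.Agent.Q17.DC
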