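import Pool.Agent.Q17.DC.LB2

/-!
# Comparison of the numbers of Brauer characters: the induction step
-/

set_option autoImplicit false

open scoped BigOperators Classical
open Pool.Agent.Helper884 Representation Pool.Agent.H254R3.IN Pool.Agent.Q17.TC Pool.Agent.Y63.KR
  Pool.Agent.Y62

noncomputable section

namespace Pool.Agent.Q17.DC

variable {A : Type} [Group A]

/-- the embedding of `H ∩ C`, as a subgroup of `C`, into `H` -/
def jH (H C : Subgroup A) : (H.subgroupOf C) →* H where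
  toFun x := ⟨(x : C), x.2⟩
  map_one' := rfl
  map_mul' _ _ := rfl

lemma jH_coe {H C : Subgroup A} (x : H.subgroupOf C) : ((jH H C x : H) : A) = ((x : C) : A) := rfl

lemma jH_inj (H C : Subgroup A) : Function.Injective (jH H C) := fun x y h =>
  Subtype.ext (Subtype.ext (congrArg (fun v : H => (v : A)) h))

lemma mem_cen {u g : A} : g ∈ Subgroup.centralizer ({u} : Set A) ↔ Commute u g := by
  rw [Subgroup.mem_centralizer_iff]
  constructor
  · intro h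
    exact h u rfl
  · intro h w hw
    rw [Set.mem_singleton_iff.mp hw]
    exact h

lemma jH_range {H : Subgroup A} {v : H} (v' : H.subgroupOf (Subgroup.centralizer ({(v : A)} : Set A)))
    (hv : jH H _ v' = v) (g : H) : Commute (jH H _ v') g ↔
      g ∈ (jH H (Subgroup.centralizer ({(v : A)} : Set A))).range := by
  rw [hv]
  constructor
  · intro h
    exact ⟨⟨⟨g, mem_cen.mpr (congrArg Subtype.val h.eq)⟩, g.2⟩, rfl⟩
  · rintro ⟨w, rfl⟩
    exact Subtype.ext (mem_cen.mp w.1.2)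

lemma sub_range {u : A} (u' : Subgroup.centralizer ({u} : Set A)) (hu : (u' : A) = u) (g : A) :
    Commute ((Subgroup.centralizer ({u} : Set A)).subtype u') g ↔
      g ∈ (Subgroup.centralizer ({u} : Set A)).subtype.range := by
  rw [Subgroup.range_subtype]
  change Commute (u' : A) g ↔ _
  rw [hu, mem_cen]

/-- the statement for the induction -/
def LEQ (A : Type) [Group A] [Fintype A] : Prop := ∀ (p : ℕ) [Fact p.Prime]
  (O : ValuationSubring ℂ), (p : ℂ) ∈ O.nonunits → ∀ (N : Subgroup A) [N.Normal] (y : A)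
  (H : Subgroup A) (P : Sylow p A), TD p N y H P → ∀ B : Set (A → ℂ), IsBlock O B →
  Gd p O N (KK N y) B → ∀ b : Set (H → ℂ), IsBlock O b → IndB O B b → lB p B = lB p b

variable [Fintype A] {p : ℕ} [hp : Fact p.Prime] {O : ValuationSubring ℂ}
  {N : Subgroup A} [hN : N.Normal] {y : A} {H : Subgroup A} {P : Sylow p A}

/-- **the comparison for a subgroup `C`** -/
theorem stepC (ibl : S_IBL) (d : TD p N y H P)
    (hO : (p : ℂ) ∈ O.nonunits) {B : Set (A → ℂ)} (hB : IsBlock O B)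
    (hg : Gd p O N (KK N y) B) {b : Set (H → ℂ)} (hb : IsBlock O b) (hi : IndB O B b)
    {C : Subgroup A} {z : A} (hzC : z ∈ C) (hzH : z ∈ H) (hzK : z ∈ KK N y)
    (hzN : z ∉ N) (hzp : ∃ k, orderOf z = p ^ k)
    (hex : ∀ θ : H.subgroupOf C → ℂ, IsIrr θ → ∃ b' : Set (H → ℂ), IsBlock O b' ∧
      ∀ χ ∈ b', ∀ x : H, omega χ x -
        ∑ᶠ v : {v : H.subgroupOf C // IsConj x (jH H C v)}, θ v / θ 1 ∈ O.nonunits)
    (ih : LEQ C) : ∑ᶠ γ : Bj O C.subtype B, lB p γ.1 = ∑ᶠ γ : Bj O (jH H C) b, lB p γ.1 := by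
  -- the data for the subgroup
  have cx : Cx p N y H P C (C ⊓ H) ⟨z, hzC⟩ :=
    ⟨d, fun x => Subgroup.mem_inf, hzH, hzK, hzN, by
      obtain ⟨k, hk⟩ := hzp
      exact ⟨k, by rw [Subgroup.orderOf_mk, hk]⟩⟩
  obtain ⟨P', d'⟩ := cx.loc prt.lo
  have hKK : KK (N.subgroupOf C) ⟨z, hzC⟩ = (KK N y).subgroupOf C := cx.KK_eq
  have hNC : (N.subgroupOf C).Normal := hN.subgroupOf C
  have hKn : (KK N y).Normal := d.nK
  have hgb := gd_res d hB hg hb hi
  obtain ⟨χ₀, hχ₀⟩ := hB.nonempty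
  obtain ⟨ψ₀, hψ₀⟩ := hb.nonempty
  -- blocks of `C ∩ H` which induce `b` induce blocks of `C` which induce `B`
  have key1 : ∀ γ' : Bj O (jH H C) b, ∃ γ : Bj O C.subtype B, IndB O γ.1 γ'.1 := by
    rintro ⟨γ', hγ', hγi⟩
    obtain ⟨θ, hθ⟩ := hγ'.nonempty
    have hθi := hγ'.irr θ hθ
    -- `γ'` is good
    obtain ⟨w, hw, hwo⟩ := has_of_ind (jH H C) (hN.subgroupOf H) (hKn.subgroupOf H) hgb hψ₀ hθi
      (hγi ψ₀ hψ₀ θ hθ)
    have hw' : Sec p N (KK N y) (((w : H.subgroupOf C) : C) : A) :=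
      (@sec_res _ _ H p hp N (KK N y) _).mp hw
    have hgd : @good (H.subgroupOf C) _ ((stdQ p O (N.subgroupOf C)
        ((KK N y).subgroupOf C)).res (H.subgroupOf C)) γ' := by
      refine ⟨w, ?_, fun χ hχ => ?_⟩
      · refine (@sec_res _ _ (H.subgroupOf C) p hp (N.subgroupOf C) ((KK N y).subgroupOf C) _).mpr ?_
        exact (@sec_res _ _ C p hp N (KK N y) _).mpr hw'
      · intro h1
        apply hwo
        have h2 := (blk_iff hγ' hθ w 0).mp (fun φ hφ => (blk_iff hγ' hχ w 0).mpr (by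
          rwa [sub_zero]) φ hφ)
        rwa [sub_zero] at h2
    have hmt := @mts_of_good (H.subgroupOf C) _ _ ((stdQ p O (N.subgroupOf C)
      ((KK N y).subgroupOf C)).res (H.subgroupOf C)) hp (hNC.subgroupOf _) prt2 hO
      ((hKn.subgroupOf C).subgroupOf _) γ' hγ' hgd
    obtain ⟨E, hE, e, he, heK, heN⟩ := hmt
    obtain ⟨γ, hγ, hγγ⟩ := ibl C p O hO (N.subgroupOf C) ⟨z, hzC⟩ (H.subgroupOf C) P' d' γ' hγ' E hE
      ⟨e, he, by rw [hKK]; exact heK, heN⟩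
    obtain ⟨φ₀, hφ₀⟩ := hγ.nonempty
    refine ⟨⟨γ, hγ, fun χ hχ φ hφ x => ?_⟩, hγγ⟩
    -- stages
    have t1 := trj (jH H C) H.subtype (hb.irr ψ₀ hψ₀) (hγi ψ₀ hψ₀ θ hθ) x
    have t2 := trj (H.subgroupOf C).subtype C.subtype (hγ.irr φ hφ) (fun y => hγγ φ hφ θ hθ y) x
    have t3 := hi χ hχ ψ₀ hψ₀ x
    have t4 := nu_add t3 t1
    have t5 := nu_mul (O.neg_mem _ O.one_mem) t2
    have t6 := nu_add t4 t5
    have e1 : ∀ a b c d : ℂ, a - b + (b - c) + -1 * (d - c) = a - d := fun a b c d => by ring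
    have t7 := t6
    erw [e1] at t7
    exact t7
  -- goodness of the blocks of `C`
  have hgd : ∀ γ : Bj O C.subtype B, Gd p O (N.subgroupOf C) (KK (N.subgroupOf C) ⟨z, hzC⟩) γ.1 := by
    rintro ⟨γ, hγ, hγi⟩
    rw [hKK]
    exact gd_res d hB hg hγ (fun χ hχ φ hφ x => hγi χ hχ φ hφ x)
  -- and conversely
  have key2 : ∀ γ : Bj O C.subtype B, ∃ γ' : Bj O (jH H C) b, IndB O γ.1 γ'.1 := by
    intro γ
    obtain ⟨γ', hγ', hγγ⟩ := exi d' hO γ.2.1 (hgd γ)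
    obtain ⟨γ, hγ, hγi⟩ := γ
    obtain ⟨φ, hφ⟩ := hγ.nonempty
    obtain ⟨θ, hθ⟩ := hγ'.nonempty
    obtain ⟨b'', hb'', hbi⟩ := hex θ (hγ'.irr θ hθ)
    have hib : IndB O B b'' := by
      intro χ hχ ψ hψ x
      have t1 := trj (jH H C) H.subtype (hb''.irr ψ hψ) (hbi ψ hψ) x
      have t2 := trj (H.subgroupOf C).subtype C.subtype (hγ.irr φ hφ)
        (fun y => hγγ φ hφ θ hθ y) x
      have t3 := hγi χ hχ φ hφ x
      have t4 := nu_add (nu_add t3 t2) (nu_mul (O.neg_mem _ O.one_mem) t1)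
      have e1 : ∀ a b c d : ℂ, a - b + (b - c) + -1 * (d - c) = a - d := fun a b c d => by ring
      have t7 := t4
      erw [e1] at t7
      exact t7
    have hbb : b'' = b := uniq d hO hB hg hb'' hib hb hi
    rw [hbb] at hbi
    refine ⟨⟨γ', hγ', fun χ hχ θ' hθ' x => ?_⟩, hγγ⟩
    have t1 := nu_add (hbi χ hχ x) (ind_blk (jH H C) hγ' hθ hθ' x)
    rwa [sub_add_sub_cancel] at t1
  choose f hf using key1
  refine (finsum_eq_of_bijective f ⟨fun a a' haa => ?_, fun γ => ?_⟩ fun γ' => ?_).symm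
  · refine Subtype.ext (uniq d' hO (f a).2.1 (hgd (f a)) a.2.1 (hf a) a'.2.1 ?_)
    rw [haa]
    exact hf a'
  · obtain ⟨γ', hγγ⟩ := key2 γ
    refine ⟨γ', Subtype.ext ?_⟩
    obtain ⟨θ, hθ⟩ := γ'.2.1.nonempty
    obtain ⟨φ, hφ⟩ := γ.2.1.nonempty
    obtain ⟨φ', hφ'⟩ := (f γ').2.1.nonempty
    refine blk_eq (f γ').2.1 γ.2.1 hφ' hφ fun x => ?_
    have t1 := hf γ' φ' hφ' θ hθ x
    have t2 := nu_mul (O.neg_mem _ O.one_mem) (hγγ φ hφ θ hθ x)
    have t3 := nu_add t1 t2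
    have e1 : ∀ a b c : ℂ, a - c + -1 * (b - c) = a - b := fun a b c => by ring
    rwa [e1] at t3
  · exact (ih p O hO (N.subgroupOf C) ⟨z, hzC⟩ (H.subgroupOf C) P' d' (f γ').1 (f γ').2.1
      (hgd (f γ')) γ'.1 γ'.2.1 (hf γ')).symm

/-- **the step**: the contributions of a section -/
theorem step (spb : S_SPB) (exz : S_EXZ) (ibl : S_IBL) (d : TD p N y H P)
    (hO : (p : ℂ) ∈ O.nonunits) {B : Set (A → ℂ)} (hB : IsBlock O B)
    (hg : Gd p O N (KK N y) B) {b : Set (H → ℂ)} (hb : IsBlock O b) (hi : IndB O B b)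
    {v : H} (hvp : ∃ k, orderOf v = p ^ k) {z : A} (hzH : z ∈ H) (hzK : z ∈ KK N y)
    (hzN : z ∉ N) (hzp : ∃ k, orderOf z = p ^ k) (hzv : Commute (v : A) z)
    (ih : LEQ (Subgroup.centralizer ({(v : A)} : Set A))) : dS p (v : A) B = dS p v b := by
  obtain ⟨C, hC⟩ : ∃ C, C = Subgroup.centralizer ({(v : A)} : Set A) := ⟨_, rfl⟩
  have hvC : (v : A) ∈ C := by
    rw [hC]
    exact mem_cen.mpr (Commute.refl _)
  have hzC : z ∈ C := by
    rw [hC]
    exact mem_cen.mpr hzv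
  -- the two sums
  have hvC' : orderOf (⟨v, hvC⟩ : C) = orderOf v := by
    rw [Subgroup.orderOf_mk, Subgroup.orderOf_coe]
  have hvv : (⟨(v : A), hvC⟩ : C) ∈ H.subgroupOf C := Subgroup.mem_subgroupOf.mpr v.2
  have hvo : orderOf (⟨⟨(v : A), hvC⟩, hvv⟩ : H.subgroupOf C) = orderOf v := by
    rw [Subgroup.orderOf_mk, hvC']
  have hr : ∀ g : H, Commute (jH H C ⟨⟨(v : A), hvC⟩, hvv⟩) g ↔ g ∈ (jH H C).range := by
    subst hC
    exact jH_range (v := v) ⟨⟨(v : A), hvC⟩, hvv⟩ rfl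
  have s1 : dS p (v : A) B = ∑ᶠ γ : Bj O C.subtype B, lB p γ.1 := by
    have h1 := spb C A C.subtype p O C.subtype_injective hO ⟨v, hvC⟩ (by rw [hvC']; exact hvp)
      (by
        subst hC
        exact sub_range (u := (v : A)) ⟨(v : A), hvC⟩ rfl) B hB
    exact h1
  have s2 : dS p v b = ∑ᶠ γ : Bj O (jH H C) b, lB p γ.1 := by
    have h1 := spb (H.subgroupOf C) H (jH H C) p O (jH_inj H C) hO ⟨⟨v, hvC⟩, hvv⟩ (by
      rw [hvo]
      exact hvp) hr b hb
    exact h1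
  rw [s1, s2]
  refine stepC ibl d hO hB hg hb hi hzC hzH hzK hzN hzp (fun θ hθ => ?_) (by
    subst hC
    exact ih)
  exact exz (H.subgroupOf C) H (jH H C) p O (jH_inj H C) hO ⟨⟨v, hvC⟩, hvv⟩ (by
    rw [hvo]
    exact hvp) hr θ hθ

end Pool.Agent.Q17.DC
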