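import Pool.Agent.Q17.DC.LB3

/-!
# Comparison of the numbers of Brauer characters: the theorem
-/

set_option autoImplicit false

open scoped BigOperators Classical
open Pool.Agent.Helper884 Representation Pool.Agent.H254R3.IN Pool.Agent.Q17.TC Pool.Agent.Y63.KR
  Pool.Agent.Y62

noncomputable section

namespace Pool.Agent.Q17.DC

lemma ordConj {X : Type} [Group X] {u v : X} (h : IsConj u v) : orderOf u = orderOf v := by
  obtain ⟨g, rfl⟩ := isConj_iff.mp h
  exact (MulEquiv.orderOf_eq (MulAut.conj g) u).symm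

lemma sum_spl {X : Type} [Group X] [Finite X] (F a r : X → ℕ) (l : ℕ)
    (h : ∀ u, F u = a u * l + r u) : ∑ᶠ c : Quotient (IsConj.setoid X), F c.out =
      (∑ᶠ c : Quotient (IsConj.setoid X), a c.out) * l +
        ∑ᶠ c : Quotient (IsConj.setoid X), r c.out := by
  have : Fintype (Quotient (IsConj.setoid X)) := Fintype.ofFinite _
  rw [finsum_eq_sum_of_fintype, finsum_eq_sum_of_fintype, finsum_eq_sum_of_fintype,
    Finset.sum_mul, ← Finset.sum_add_distrib]
  exact Finset.sum_congr rfl fun c _ => h _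

variable {A : Type} [Group A] [Fintype A] {p : ℕ} [hp : Fact p.Prime] {O : ValuationSubring ℂ}
  {N : Subgroup A} [hN : N.Normal] {y : A} {H : Subgroup A} {P : Sylow p A}

omit hN in
/-- a `p`-subgroup and Sylow's theorem -/
lemma sylow_conj (P : Sylow p A) {D : Subgroup A} (hD : IsPGroup p D) :
    ∃ g : A, ∀ x ∈ D, g * x * g⁻¹ ∈ P := by
  obtain ⟨R, hR⟩ := hD.exists_le_sylow
  obtain ⟨g, hg⟩ := MulAction.exists_smul_eq A R P
  refine ⟨g, fun x hx => ?_⟩
  rw [← hg]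
  change g * x * g⁻¹ ∈ ((g • R : Sylow p A) : Set A)
  rw [Sylow.coe_smul, Set.mem_smul_set]
  exact ⟨x, hR hx, rfl⟩

omit [Fintype A] hN in
lemma isp_of_ord {z : A} (hz : ∃ k, orderOf z = p ^ k) : IsPGroup p (Subgroup.zpowers z) := by
  obtain ⟨k, hk⟩ := hz
  exact IsPGroup.of_card (n := k) (by rw [Nat.card_zpowers, hk])

/-- fusion of elements centralised by elements of the coset -/
lemma fus_cen (d : TD p N y H P) {v v' z z' g : A}
    (hz : z ∈ H) (hzK : z ∈ KK N y) (hzN : z ∉ N) (hzp : ∃ k, orderOf z = p ^ k)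
    (hz' : z' ∈ H) (hzK' : z' ∈ KK N y) (hzN' : z' ∉ N) (hzp' : ∃ k, orderOf z' = p ^ k)
    (hvz : Commute v z) (hvz' : Commute v' z') (hg : g * v * g⁻¹ = v') :
    ∃ h ∈ H, h * v * h⁻¹ = v' := by
  obtain ⟨C, hC⟩ : ∃ C, C = Subgroup.centralizer ({v'} : Set A) := ⟨_, rfl⟩
  have hmem : ∀ c ∈ C, Commute v' c := by
    intro c hc
    rw [hC] at hc
    exact mem_cen.mp hc
  have hzC' : z' ∈ C := by
    rw [hC]
    exact mem_cen.mpr hvz'
  have hzC : g * z * g⁻¹ ∈ C := by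
    rw [hC]
    refine mem_cen.mpr ?_
    rw [← hg]
    change g * v * g⁻¹ * (g * z * g⁻¹) = g * z * g⁻¹ * (g * v * g⁻¹)
    have h1 : g * v * g⁻¹ * (g * z * g⁻¹) = g * (v * z) * g⁻¹ := by group
    rw [h1, hvz.eq]
    group
  have hp1 : IsPGroup p (Subgroup.zpowers (⟨z', hzC'⟩ : C)) := isp_of_ord (by
    obtain ⟨k, hk⟩ := hzp'
    exact ⟨k, by rw [Subgroup.orderOf_mk, hk]⟩)
  have hp2 : IsPGroup p (Subgroup.zpowers (⟨g * z * g⁻¹, hzC⟩ : C)) := isp_of_ord (by
    obtain ⟨k, hk⟩ := hzp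
    refine ⟨k, ?_⟩
    rw [Subgroup.orderOf_mk, ← hk]
    exact (ordConj (isConj_iff.mpr ⟨g, rfl⟩)).symm)
  obtain ⟨S, hS⟩ := hp1.exists_le_sylow
  obtain ⟨c, hc⟩ := sylow_conj S hp2
  have hD : IsPGroup p ((S : Subgroup C).map C.subtype) := S.isPGroup'.map _
  have hDH := psub_le d hz' hzK' hzN' hD ⟨⟨z', hzC'⟩, hS (Subgroup.mem_zpowers _), rfl⟩
  have h1 : (c : A) * (g * z * g⁻¹) * (c : A)⁻¹ ∈ H :=
    hDH ⟨c * ⟨g * z * g⁻¹, hzC⟩ * c⁻¹, hc _ (Subgroup.mem_zpowers _), rfl⟩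
  have h2 : ((c : A) * g)⁻¹ ∈ H := by
    refine (parts.ti A p N y H P d).1 _ z hz hzK hzN ?_
    have e1 : ((c : A) * g)⁻¹⁻¹ * z * ((c : A) * g)⁻¹ = (c : A) * (g * z * g⁻¹) * (c : A)⁻¹ := by
      group
    rw [e1]
    exact h1
  refine ⟨(c : A) * g, H.inv_mem_iff.mp h2, ?_⟩
  have h3 : Commute v' (c : A) := hmem _ c.2
  have e2 : (c : A) * g * v * ((c : A) * g)⁻¹ = (c : A) * (g * v * g⁻¹) * (c : A)⁻¹ := by group
  rw [e2, hg, ← h3.eq, mul_inv_cancel_right]

/-- an element whose centraliser contains an element of the coset -/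
lemma conj_into (d : TD p N y H P) {u z : A} (hu : ∃ k, orderOf u = p ^ k)
    (hzK : z ∈ KK N y) (hzN : z ∉ N) (hzp : ∃ k, orderOf z = p ^ k) (hc : Commute u z) :
    ∃ g : A, g * u * g⁻¹ ∈ H ∧ g * z * g⁻¹ ∈ H := by
  obtain ⟨C, hC⟩ : ∃ C, C = Subgroup.centralizer ({u} : Set A) := ⟨_, rfl⟩
  have hmem : ∀ c ∈ C, Commute u c := by
    intro c hc
    rw [hC] at hc
    exact mem_cen.mp hc
  have huC : u ∈ C := by
    rw [hC]
    exact mem_cen.mpr (Commute.refl _)
  have hzC : z ∈ C := by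
    rw [hC]
    exact mem_cen.mpr hc
  have hn : (Subgroup.zpowers (⟨u, huC⟩ : C)).Normal := by
    refine ⟨fun w hw c => ?_⟩
    obtain ⟨i, rfl⟩ := Subgroup.mem_zpowers_iff.mp hw
    have h1 : Commute c (⟨u, huC⟩ : C) := Subtype.ext (hmem _ c.2).symm.eq
    have h3 : c * (⟨u, huC⟩ : C) ^ i * c⁻¹ = (⟨u, huC⟩ : C) ^ i := by
      rw [(h1.zpow_right i).eq, mul_inv_cancel_right]
    rw [h3]
    exact Subgroup.zpow_mem _ (Subgroup.mem_zpowers _) i
  have hp1 : IsPGroup p (Subgroup.zpowers (⟨u, huC⟩ : C)) := isp_of_ord (by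
    obtain ⟨k, hk⟩ := hu
    exact ⟨k, by rw [Subgroup.orderOf_mk, hk]⟩)
  have hp2 : IsPGroup p (Subgroup.zpowers (⟨z, hzC⟩ : C)) := isp_of_ord (by
    obtain ⟨k, hk⟩ := hzp
    exact ⟨k, by rw [Subgroup.orderOf_mk, hk]⟩)
  have hp3 := hp2.to_sup_of_normal_right hp1
  obtain ⟨g, hg⟩ := sylow_conj P (hp3.map C.subtype)
  exact ⟨g, d.hPH (hg u ⟨⟨u, huC⟩, Subgroup.mem_sup_right (Subgroup.mem_zpowers _), rfl⟩),
    d.hPH (hg z ⟨⟨z, hzC⟩, Subgroup.mem_sup_left (Subgroup.mem_zpowers _), rfl⟩)⟩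

/-- elements with a nonzero contribution are centralised by an element of the coset -/
lemma has_of_ne (spb : S_SPB) (hO : (p : ℂ) ∈ O.nonunits) {K : Subgroup A} (hK : K.Normal)
    {B : Set (A → ℂ)} (hB : IsBlock O B) (hg : Gd p O N K B) {u : A}
    (hu : ∃ k, orderOf u = p ^ k) (h : dS p u B ≠ 0) :
    ∃ z : A, z ∈ K ∧ z ∉ N ∧ (∃ k, orderOf z = p ^ k) ∧ Commute u z := by
  obtain ⟨C, hC⟩ : ∃ C, C = Subgroup.centralizer ({u} : Set A) := ⟨_, rfl⟩
  have huC : u ∈ C := by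
    rw [hC]
    exact mem_cen.mpr (Commute.refl _)
  have h1 := spb C A C.subtype p O C.subtype_injective hO ⟨u, huC⟩ (by
    rw [Subgroup.orderOf_mk]
    exact hu) (by
      subst hC
      exact sub_range (u := u) ⟨u, huC⟩ rfl) B hB
  obtain ⟨χ₀, hχ₀⟩ := hB.nonempty
  by_cases hne : Nonempty (Bj O C.subtype B)
  · obtain ⟨γ, hγ, hγi⟩ := hne
    obtain ⟨φ, hφ⟩ := hγ.nonempty
    obtain ⟨v, hv, -⟩ := has_of_ind C.subtype hN hK hg hχ₀ (hγ.irr φ hφ) (hγi χ₀ hχ₀ φ hφ)
    obtain ⟨z, s, h2, h3, h4, h5, h6, h7⟩ := hv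
    obtain ⟨⟨n, hn⟩, -⟩ := pow_parts h3 h6 h7
    refine ⟨z, h4, h5, h6, ?_⟩
    have h8 : z ∈ C := by
      rw [← hn, ← h2]
      exact C.pow_mem v.2 n
    rw [hC] at h8
    exact mem_cen.mp h8
  · rw [not_nonempty_iff] at hne
    exfalso
    apply h
    change dS p (C.subtype ⟨u, huC⟩) B = 0
    rw [h1]
    exact finsum_of_isEmpty _

/-- **equality of the numbers of Brauer characters** -/
theorem leq_all (spa : S_SPA) (spb : S_SPB) (exz : S_EXZ) (ibl : S_IBL) (n : ℕ) :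
    ∀ (A : Type) [Group A] [Fintype A], Nat.card A = n → LEQ A := by
  induction n using Nat.strong_induction_on with
  | _ n ih =>
  intro A _ _ hn p hp O hO N hN y H P d B hB hg b hb hi
  have hKn : (KK N y).Normal := d.nK
  have hgb := gd_res d hB hg hb hi
  have hcard := card_eq d hO hB hg hb hi
  -- the functions
  obtain ⟨C0, hC0⟩ : ∃ C0 : A → Prop, ∀ u, C0 u ↔ ∀ g, u * g = g * u := ⟨_, fun _ => Iff.rfl⟩
  obtain ⟨PE, hPE⟩ : ∃ PE : A → Prop, ∀ u, PE u ↔ ∃ k, orderOf u = p ^ k :=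
    ⟨_, fun _ => Iff.rfl⟩
  have hPE' : ∀ v : H, (∃ k, orderOf v = p ^ k) ↔ PE v := fun v => by
    rw [hPE, Subgroup.orderOf_coe]
  have hC0c : ∀ {u v : A}, IsConj u v → C0 u → v = u := by
    intro u v h hu
    obtain ⟨g, rfl⟩ := isConj_iff.mp h
    rw [← (hC0 u).mp hu g, mul_inv_cancel_right]
  have hC0i : ∀ {u v : A}, IsConj u v → (C0 u ↔ C0 v) := by
    intro u v h
    constructor
    · intro hu
      rw [hC0c h hu]
      exact hu
    · intro hv
      rw [hC0c h.symm hv]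
      exact hv
  have hPEi : ∀ {u v : A}, IsConj u v → (PE u ↔ PE v) := by
    intro u v h
    rw [hPE, hPE, ordConj h]
  have hHc : ∀ {u v : H}, IsConj u v → IsConj (u : A) (v : A) := fun h =>
    conj_hom H.subtype h
  -- the splitting
  have sG := sum_spl (X := A) (fun u => if ∃ k, orderOf u = p ^ k then dS p u B else 0)
    (fun u => if C0 u ∧ PE u then 1 else 0)
    (fun u => if C0 u then 0 else if PE u then dS p u B else 0) (lB p B) (by
      intro u
      by_cases h1 : PE u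
      · rw [if_pos ((hPE u).mp h1), if_pos h1]
        by_cases h2 : C0 u
        · rw [if_pos ⟨h2, h1⟩, if_pos h2, one_mul, add_zero]
          exact dS_cen ((hC0 u).mp h2) ((hPE u).mp h1) hB.irr
        · rw [if_neg (fun h => h2 h.1), if_neg h2, zero_mul, zero_add]
      · rw [if_neg (fun h => h1 ((hPE u).mpr h)), if_neg h1, if_neg (fun h => h1 h.2), zero_mul,
          ite_self])
  have sH := sum_spl (X := H) (fun u => if ∃ k, orderOf u = p ^ k then dS p u b else 0)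
    (fun u => if C0 u ∧ PE u then 1 else 0)
    (fun u => if C0 u then 0 else if PE u then dS p u b else 0) (lB p b) (by
      intro u
      by_cases h1 : PE u
      · rw [if_pos ((hPE' u).mpr h1), if_pos h1]
        by_cases h2 : C0 u
        · rw [if_pos ⟨h2, h1⟩, if_pos h2, one_mul, add_zero]
          exact dS_cen (fun g => Subtype.ext ((hC0 u).mp h2 g)) ((hPE' u).mpr h1) hb.irr
        · rw [if_neg (fun h => h2 h.1), if_neg h2, zero_mul, zero_add]
      · rw [if_neg (fun h => h1 ((hPE' u).mp h)), if_neg h1, if_neg (fun h => h1 h.2), zero_mul,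
          ite_self])
  have kG := spa A p O hO B hB
  have kH := spa H p O hO b hb
  -- the sum for the central elements
  have e0 := sum_quot_eq H (fun u => if C0 u ∧ PE u then 1 else 0)
    (fun u : H => if C0 u ∧ PE u then 1 else 0) (fun v => C0 v ∧ PE v)
    (fun u v h => by simp only [hC0i h, hPEi h])
    (fun u v h => by simp only [hC0i (hHc h), hPEi (hHc h)])
    (fun u hu => by
      have h1 : C0 u ∧ PE u := by
        by_contra h2
        exact hu (if_neg h2)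
      exact ⟨⟨u, cenH_mem d ((hC0 u).mp h1.1)⟩, IsConj.refl u, h1⟩)
    (fun v hv => by
      by_contra h2
      exact hv (if_neg h2))
    (fun v hv => by rw [if_pos hv])
    (fun v v' hv _ h => by
      rw [Subtype.ext (hC0c h hv.1)])
  -- the sum for the other elements
  have e1 := sum_quot_eq H (fun u => if C0 u then 0 else if PE u then dS p u B else 0)
    (fun u : H => if C0 u then 0 else if PE u then dS p u b else 0)
    (fun v => ¬ C0 v ∧ PE v ∧ ∃ z ∈ H, z ∈ KK N y ∧ z ∉ N ∧ (∃ k, orderOf z = p ^ k) ∧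
      Commute (v : A) z)
    (fun u v h => by simp only [hC0i h, hPEi h, dS_congr h])
    (fun u v h => by simp only [hC0i (hHc h), hPEi (hHc h), dS_congr h])
    (fun u hu => by
      have h1 : ¬ C0 u := fun h2 => hu (if_pos h2)
      have h2 : PE u := by
        by_contra h2
        apply hu
        rw [if_neg h1, if_neg h2]
      have h3 : dS p u B ≠ 0 := by
        intro h3
        apply hu
        rw [if_neg h1, if_pos h2, h3]
      obtain ⟨z, hzK, hzN, hzp, hzc⟩ := has_of_ne spb hO hKn hB hg ((hPE u).mp h2) h3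
      obtain ⟨g, hgu, hgz⟩ := conj_into d ((hPE u).mp h2) hzK hzN hzp hzc
      have hcj : IsConj u (g * u * g⁻¹) := isConj_iff.mpr ⟨g, rfl⟩
      refine ⟨⟨g * u * g⁻¹, hgu⟩, hcj, fun h => h1 ((hC0i hcj).mpr h), (hPEi hcj).mp h2,
        g * z * g⁻¹, hgz, hKn.conj_mem _ hzK g, fun h => hzN ?_, ?_, ?_⟩
      · have h4 := hN.conj_mem _ h g⁻¹
        have e1 : g⁻¹ * (g * z * g⁻¹) * g⁻¹⁻¹ = z := by group
        rwa [e1] at h4
      · obtain ⟨k, hk⟩ := hzp
        refine ⟨k, ?_⟩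
        rw [← hk]
        exact (ordConj (isConj_iff.mpr ⟨g, rfl⟩)).symm
      · change g * u * g⁻¹ * (g * z * g⁻¹) = g * z * g⁻¹ * (g * u * g⁻¹)
        have h5 : g * u * g⁻¹ * (g * z * g⁻¹) = g * (u * z) * g⁻¹ := by group
        rw [h5, hzc.eq]
        group)
    (fun v hv => by
      have h1 : ¬ C0 v := fun h2 => hv (if_pos h2)
      have h2 : PE v := by
        by_contra h2
        apply hv
        rw [if_neg h1, if_neg h2]
      have h3 : dS p v b ≠ 0 := by
        intro h3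
        apply hv
        rw [if_neg h1, if_pos h2, h3]
      obtain ⟨z, hzK, hzN, ⟨k, hzp⟩, hzc⟩ := @has_of_ne H _ _ p hp O (N.subgroupOf H)
        (hN.subgroupOf H) spb hO _ (hKn.subgroupOf H) b hb hgb v ((hPE' v).mpr h2) h3
      exact ⟨h1, h2, z, z.2, hzK, hzN, ⟨k, by rw [Subgroup.orderOf_coe, hzp]⟩,
        congrArg Subtype.val hzc.eq⟩)
    (fun v hv => by
      obtain ⟨h1, h2, z, hzH, hzK, hzN, hzp, hzc⟩ := hv
      rw [if_neg h1, if_neg h1, if_pos h2, if_pos h2]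
      refine step spb exz ibl d hO hB hg hb hi ((hPE' v).mpr h2) hzH hzK hzN hzp hzc
        (ih (Nat.card (Subgroup.centralizer ({(v : A)} : Set A))) ?_ _ rfl)
      by_contra hlt
      apply h1
      have h3 : Subgroup.centralizer ({(v : A)} : Set A) = ⊤ := by
        refine Subgroup.eq_top_of_le_card _ ?_
        rw [hn]
        omega
      rw [hC0]
      intro g
      have h4 : g ∈ Subgroup.centralizer ({(v : A)} : Set A) := by
        rw [h3]
        exact Subgroup.mem_top g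
      exact (mem_cen.mp h4).eq)
    (fun v v' hv hv' h => by
      obtain ⟨h1, h2, z, hzH, hzK, hzN, hzp, hzc⟩ := hv
      obtain ⟨h1', h2', z', hzH', hzK', hzN', hzp', hzc'⟩ := hv'
      obtain ⟨g, hg⟩ := isConj_iff.mp h
      obtain ⟨k, hk, hkv⟩ := fus_cen d hzH hzK hzN hzp hzH' hzK' hzN' hzp' hzc hzc' hg
      exact isConj_iff.mpr ⟨⟨k, hk⟩, Subtype.ext hkv⟩)
  -- the conclusion
  have hpos : ∑ᶠ c : Quotient (IsConj.setoid A), (if C0 c.out ∧ PE c.out then 1 else 0) ≠ 0 := by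
    have : Fintype (Quotient (IsConj.setoid A)) := Fintype.ofFinite _
    rw [finsum_eq_sum_of_fintype]
    intro h
    have h1 := (Finset.sum_eq_zero_iff.mp h) (Quotient.mk (IsConj.setoid A) 1) (Finset.mem_univ _)
    have h2 : IsConj (1 : A) (Quotient.mk (IsConj.setoid A) (1 : A)).out :=
      (Quotient.exact (s := IsConj.setoid A) (Quotient.out_eq _) :
        IsConj (Quotient.mk (IsConj.setoid A) (1 : A)).out (1 : A)).symm
    have h3 : C0 (1 : A) := (hC0 1).mpr fun g => by rw [one_mul, mul_one]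
    have h4 : PE (1 : A) := (hPE 1).mpr ⟨0, by rw [orderOf_one, pow_zero]⟩
    rw [if_pos ⟨(hC0i h2).mp h3, (hPEi h2).mp h4⟩] at h1
    exact one_ne_zero h1
  rw [← kG] at sG
  rw [← kH] at sH
  rw [hcard, sH, ← e0, ← e1] at sG
  have h5 := Nat.add_right_cancel sG
  exact (Nat.eq_of_mul_eq_mul_left (Nat.pos_of_ne_zero hpos) h5).symm

end Pool.Agent.Q17.DC
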