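import Pool.Agent.Q17.DC.LB4
import Pool.Agent.Q222.TC.TBC

/-!
# The numbers of Brauer characters of the blocks of stabilisers of chains
-/

set_option autoImplicit false

open scoped BigOperators Classical
open Pool.Agent.Helper884 Representation Pool.Agent.H254R3.IN Pool.Agent.Q17.TC Pool.Agent.Y63.KR
  Pool.Agent.Y62

noncomputable section

namespace Pool.Agent.Q17.DC

section transport

open Pool.Agent.Q222.TC (tb tb_block)

variable {L K : Type} [Group L] [Group K]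

lemma lB_tb (e : L ≃* K) (p : ℕ) (β : Set (K → ℂ)) : lB p (tb e β) = lB p β := by
  unfold lB
  let T : (K → ℂ) ≃ₗ[ℂ] (L → ℂ) := LinearEquiv.funCongrLeft ℂ ℂ e.toEquiv
  have hT : ∀ (f : K → ℂ) (x : L), T f x = f (e x) := fun f x => rfl
  have ho : ∀ x : L, orderOf (e x) = orderOf x := fun x => MulEquiv.orderOf_eq e x
  rw [← LinearEquiv.finrank_map_eq T, Submodule.map_span]
  have key : {f : L → ℂ | ∃ χ ∈ tb e β, ∀ x, f x = if p ∣ orderOf x then 0 else χ x} =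
      (T : (K → ℂ) →ₗ[ℂ] (L → ℂ)) '' {f : K → ℂ | ∃ χ ∈ β, ∀ x,
        f x = if p ∣ orderOf x then 0 else χ x} := by
    ext f
    constructor
    · rintro ⟨_, ⟨θ₀, hθ₀, rfl⟩, hf⟩
      refine ⟨fun x => if p ∣ orderOf x then 0 else θ₀ x, ⟨θ₀, hθ₀, fun _ => rfl⟩, ?_⟩
      funext x
      change (if p ∣ orderOf (e x) then 0 else θ₀ (e x)) = f x
      rw [hf x, ho]
    · rintro ⟨f₀, ⟨θ₀, hθ₀, hf⟩, rfl⟩
      refine ⟨fun x => θ₀ (e x), ⟨θ₀, hθ₀, rfl⟩, fun x => ?_⟩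
      change f₀ (e x) = _
      rw [hf, ho]
  rw [key]

variable {A : Type} [Group A] {O : ValuationSubring ℂ}

lemma bj_tb (e : L ≃* K) {i : L →* A} {j : K →* A} {B : Set (A → ℂ)}
    (hij : ∀ l, IsConj (i l) (j (e l))) {β : Set (K → ℂ)} (h : IsBlock O β ∧ ∀ χ ∈ B, ∀ φ ∈ β,
      ∀ x : A, omega χ x - ∑ᶠ v : {v : K // IsConj x (j v)}, φ v / φ 1 ∈ O.nonunits) :
    IsBlock O (tb e β) ∧ ∀ χ ∈ B, ∀ φ ∈ tb e β, ∀ x : A,
      omega χ x - ∑ᶠ v : {v : L // IsConj x (i v)}, φ v / φ 1 ∈ O.nonunits := by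
  refine ⟨tb_block e h.1, ?_⟩
  rintro χ hχ _ ⟨θ₀, hθ₀, rfl⟩ x
  have h1 := h.2 χ hχ θ₀ hθ₀ x
  have h2 : ∑ᶠ v : {v : L // IsConj x (i v)}, θ₀ (e v) / θ₀ (e 1) =
      ∑ᶠ v : {v : K // IsConj x (j v)}, θ₀ v / θ₀ 1 := by
    rw [map_one]
    refine finsum_eq_of_bijective (fun v => ⟨e v.1, v.2.trans (hij v.1)⟩) ⟨?_, ?_⟩ fun _ => rfl
    · intro v w hvw
      exact Subtype.ext (e.injective (congrArg Subtype.val hvw))
    · rintro ⟨w, hw⟩
      refine ⟨⟨e.symm w, hw.trans ?_⟩, Subtype.ext (e.apply_symm_apply w)⟩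
      have h3 := (hij (e.symm w)).symm
      rwa [e.apply_symm_apply] at h3
  change omega χ x - ∑ᶠ v : {v : L // IsConj x (i v)}, θ₀ (e v) / θ₀ (e 1) ∈ O.nonunits
  rw [h2]
  exact h1

lemma tb_tb (e : L ≃* K) (β : Set (K → ℂ)) : tb e.symm (tb e β) = β := by
  ext θ
  constructor
  · rintro ⟨_, ⟨θ₀, hθ₀, rfl⟩, rfl⟩
    have h1 : (fun x => θ₀ (e (e.symm x))) = θ₀ := by
      funext x
      rw [e.apply_symm_apply]
    rw [h1]
    exact hθ₀
  · intro hθ
    refine ⟨fun x => θ (e x), ⟨θ, hθ, rfl⟩, ?_⟩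
    funext x
    change θ x = θ (e (e.symm x))
    rw [e.apply_symm_apply]

/-- transport of the sums -/
lemma sum_tb (e : L ≃* K) {i : L →* A} {j : K →* A} (p : ℕ) (B : Set (A → ℂ))
    (hij : ∀ l, IsConj (i l) (j (e l))) :
    ∑ᶠ γ : Bj O i B, lB p γ.1 = ∑ᶠ γ : Bj O j B, lB p γ.1 := by
  symm
  have hji : ∀ k, IsConj (j k) (i (e.symm k)) := fun k => by
    have h3 := (hij (e.symm k)).symm
    rwa [e.apply_symm_apply] at h3
  refine finsum_eq_of_bijective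
    (fun γ : Bj O j B => (⟨tb e γ.1, bj_tb e hij γ.2⟩ : Bj O i B)) ⟨?_, ?_⟩ fun γ => ?_
  · intro γ γ' h
    have h1 : tb e γ.1 = tb e γ'.1 := congrArg Subtype.val h
    refine Subtype.ext ?_
    rw [← tb_tb e γ.1, ← tb_tb e γ'.1, h1]
  · intro γ
    refine ⟨⟨tb e.symm γ.1, bj_tb e.symm hji γ.2⟩, Subtype.ext ?_⟩
    exact tb_tb e.symm γ.1
  · exact (lB_tb e p γ.1).symm

end transport

/-- `l(B_L)`: the number of the irreducible Brauer characters in the blocks of `L` which induce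
`B` -/
def lC {A : Type} [Group A] (p : ℕ) (O : ValuationSubring ℂ) (B : Set (A → ℂ))
    (L : Subgroup A) : ℤ := ((∑ᶠ γ : Bj O L.subtype B, lB p γ.1 : ℕ) : ℤ)

section chains

variable {A : Type} [Group A]

lemma lC_conj (p : ℕ) (O : ValuationSubring ℂ) (B : Set (A → ℂ)) (L : Subgroup A) (g : A) :
    lC p O B (conjSub g L) = lC p O B L := by
  unfold lC
  congr 1
  refine (sum_tb ((MulAut.conj g).subgroupMap L) p B fun l => ?_).symm
  exact isConj_iff.mpr ⟨g, rfl⟩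

/-- the chain of `H` given by a chain of `A` -/
def cmp (H : Subgroup A) (σ : Set (Subgroup A)) : Set (Subgroup H) :=
  {D | D.map H.subtype ∈ σ}

lemma cmp_map (H : Subgroup A) (τ : Set (Subgroup H)) :
    cmp H (Subgroup.map H.subtype '' τ) = τ := by
  ext D
  constructor
  · rintro ⟨E, hE, h⟩
    rwa [← Subgroup.map_injective H.subtype_injective h]
  · intro hD
    exact ⟨D, hD, rfl⟩

variable [Fintype A] {p : ℕ} [hp : Fact p.Prime] {O : ValuationSubring ℂ}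
  {N : Subgroup A} [hN : N.Normal] {y : A} {H : Subgroup A} {P : Sylow p A}

/-- the numbers for a chain of `H` -/
theorem lC_eq (leq : ∀ (A : Type) [Group A] [Fintype A], LEQ A) (ibl : S_IBL)
    (d : TD p N y H P) (hO : (p : ℂ) ∈ O.nonunits) {B : Set (A → ℂ)} (hB : IsBlock O B)
    (hg : Gd p O N (KK N y) B) {b : Set (H → ℂ)} (hb : IsBlock O b) (hi : IndB O B b)
    {Z : Subgroup A} {τ : Set (Subgroup H)} (hτ : Ch p H Z (Subgroup.map H.subtype '' τ))
    (hh : Has p N (KK N y) (Ns H (Subgroup.map H.subtype '' τ))) :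
    lC p O B (Ns ⊤ (Subgroup.map H.subtype '' τ)) = lC p O b (Ns ⊤ τ) := by
  obtain ⟨z, hz, hzK, hzN, hzp⟩ := hh
  obtain ⟨C, hC⟩ : ∃ C, C = Ns ⊤ (Subgroup.map H.subtype '' τ) := ⟨_, rfl⟩
  have hmem : ∀ x : A, x ∈ C ∧ x ∈ H ↔ x ∈ (Ns ⊤ τ).map H.subtype := by
    intro x
    rw [← Ns_map, hC]
    unfold Ns
    rw [Subgroup.mem_inf, Subgroup.mem_inf]
    constructor
    · rintro ⟨⟨-, h1⟩, h2⟩
      exact ⟨h2, h1⟩
    · rintro ⟨h1, h2⟩
      exact ⟨⟨Subgroup.mem_top x, h2⟩, h1⟩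
  have hmem2 : ∀ x ∈ Ns H (Subgroup.map H.subtype '' τ), x ∈ C := by
    intro x hx
    rw [Ns_map] at hx
    exact ((hmem x).mpr hx).1
  -- the isomorphisms
  let e : H.subgroupOf C ≃* Ns ⊤ τ :=
    { toFun := fun x => ⟨jH H C x, by
        obtain ⟨w, hw, hwx⟩ := (hmem _).mp ⟨x.1.2, x.2⟩
        have h1 : jH H C x = w := Subtype.ext hwx.symm
        rw [h1]
        exact hw⟩
      invFun := fun w => ⟨⟨(w : H), ((hmem _).mpr ⟨w, w.2, rfl⟩).1⟩, w.1.2⟩
      left_inv := fun _ => rfl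
      right_inv := fun _ => rfl
      map_mul' := fun _ _ => rfl }
  let e₂ : H.subgroupOf C ≃* Ns H (Subgroup.map H.subtype '' τ) :=
    { toFun := fun x => ⟨(x : C), by
        rw [Ns_map]
        exact (hmem _).mp ⟨x.1.2, x.2⟩⟩
      invFun := fun w => ⟨⟨(w : A), hmem2 _ w.2⟩, w.2.1⟩
      left_inv := fun _ => rfl
      right_inv := fun _ => rfl
      map_mul' := fun _ _ => rfl }
  have hzC : z ∈ C ∧ z ∈ H := by
    refine (hmem z).mpr ?_
    rw [← Ns_map]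
    exact hz
  have h1 := stepC ibl d hO hB hg hb hi hzC.1 hzC.2 hzK hzN hzp (fun θ hθ => ?_) (leq C)
  · rw [← hC]
    unfold lC
    rw [h1]
    congr 1
    exact sum_tb e p b fun l => IsConj.refl _
  · obtain ⟨b', hb', hb'i⟩ := prt.exc A p O hO H Z _ hτ (fun w => θ (e₂.symm w))
      (irr_comp hθ e₂.symm)
    refine ⟨b', hb', fun χ hχ x => ?_⟩
    have h2 := hb'i χ hχ x
    have h3 : indc H (Ns H (Subgroup.map H.subtype '' τ)) (fun w => θ (e₂.symm w)) (x : A) =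
        ∑ᶠ v : {v : H.subgroupOf C // IsConj x (jH H C v)}, θ v / θ 1 := by
      symm
      unfold indc
      refine finsum_eq_of_bijective (fun v => ⟨e₂ v.1, by
        obtain ⟨g, hg⟩ := isConj_iff.mp v.2
        exact ⟨g, g.2, congrArg Subtype.val hg⟩⟩) ⟨?_, ?_⟩ fun v => ?_
      · intro v w hvw
        exact Subtype.ext (e₂.injective (congrArg Subtype.val hvw))
      · rintro ⟨w, g, hg, hw⟩
        refine ⟨⟨e₂.symm w, isConj_iff.mpr ⟨⟨g, hg⟩, Subtype.ext hw⟩⟩, Subtype.ext ?_⟩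
        exact e₂.apply_symm_apply w
      · change θ v.1 / θ 1 = θ (e₂.symm (e₂ v.1)) / θ (e₂.symm 1)
        rw [e₂.symm_apply_apply, map_one]
    rw [h3] at h2
    exact h2

/-- a nonzero number gives an element of the coset -/
lemma has_of_lC {K : Subgroup A} (hK : K.Normal) {B : Set (A → ℂ)}
    (hB : IsBlock O B) (hg : Gd p O N K B) {L : Subgroup A} (h : lC p O B L ≠ 0) :
    Has p N K L := by
  obtain ⟨χ₀, hχ₀⟩ := hB.nonempty
  by_cases hne : Nonempty (Bj O L.subtype B)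
  · obtain ⟨γ, hγ, hγi⟩ := hne
    obtain ⟨φ, hφ⟩ := hγ.nonempty
    obtain ⟨v, hv, -⟩ := has_of_ind L.subtype hN hK hg hχ₀ (hγ.irr φ hφ) (hγi χ₀ hχ₀ φ hφ)
    exact Sec.has v.2 hv
  · rw [not_nonempty_iff] at hne
    exfalso
    apply h
    unfold lC
    rw [finsum_of_isEmpty]
    rfl

/-- **comparison of the alternating sums of the numbers of Brauer characters** -/
theorem lsum (leq : ∀ (A : Type) [Group A] [Fintype A], LEQ A) (ibl : S_IBL)
    (d : TD p N y H P) (hO : (p : ℂ) ∈ O.nonunits) {B : Set (A → ℂ)} (hB : IsBlock O B)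
    (hg : Gd p O N (KK N y) B) {b : Set (H → ℂ)} (hb : IsBlock O b) (hi : IndB O B b)
    {Z : Subgroup A} (hZn : Z.Normal) (hZp : IsPGroup p Z) :
    altX p ⊤ Z (fun σ => lC p O B (Ns ⊤ σ)) =
      altX p ⊤ (Z.subgroupOf H) (fun τ => lC p O b (Ns ⊤ τ)) := by
  have hKn : (KK N y).Normal := d.nK
  have hgb := gd_res d hB hg hb hi
  obtain ⟨c1, c2, c3, hZH⟩ := prt.chi parts2.ti A p N ⊤ y H P d le_top (Subgroup.mem_top _) Z
    le_top hZp
  rw [top_inf_eq] at c1 c2 c3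
  have hcmp : ∀ (σ : Set (Subgroup A)), (∀ D ∈ σ, D ≤ H) →
      Subgroup.map H.subtype '' (cmp H σ) = σ := by
    intro σ hσ
    ext D
    constructor
    · rintro ⟨E, hE, rfl⟩
      exact hE
    · intro hD
      have h1 : (D.subgroupOf H).map H.subtype = D := Subgroup.map_subgroupOf_eq_of_le (hσ D hD)
      refine ⟨D.subgroupOf H, ?_, h1⟩
      change (D.subgroupOf H).map H.subtype ∈ σ
      rw [h1]
      exact hD
  have hinv : ∀ σ, Ch p H Z σ → ∀ g ∈ H, lC p O b (Ns ⊤ (cmp H (conjSub g '' σ))) =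
      lC p O b (Ns ⊤ (cmp H σ)) := by
    intro σ hσ g hgH
    have h1 := hcmp σ hσ.le
    have h2 : conjSub g '' σ = Subgroup.map H.subtype '' (conjSub (⟨g, hgH⟩ : H) '' cmp H σ) := by
      rw [← conj_map', h1]
    rw [h2, cmp_map, Ns_conj (Subgroup.le_normalizer (Subgroup.mem_top _)), lC_conj]
  have h0 := prt.chs A p ⊤ H Z (fun σ => lC p O B (Ns ⊤ σ)) (fun σ => lC p O b (Ns ⊤ (cmp H σ)))
    (fun σ => Has p N (KK N y) (Ns ⊤ σ)) (fun σ => Has p N (KK N y) (Ns H σ)) le_top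
    (fun σ _ g _ => by
      change lC p O B (Ns ⊤ (conjSub g '' σ)) = lC p O B (Ns ⊤ σ)
      rw [Ns_conj (Subgroup.le_normalizer (Subgroup.mem_top _)), lC_conj])
    hinv
    (fun σ _ hw => has_of_lC hKn hB hg hw)
    (fun σ hσ hw => by
      obtain ⟨z, hz, hzK, hzN, k, hzp⟩ := @has_of_lC H _ _ p hp O (N.subgroupOf H)
        (hN.subgroupOf H) _ (hKn.subgroupOf H) b hb hgb _ hw
      refine ⟨z, ?_, hzK, hzN, k, by rw [Subgroup.orderOf_coe, hzp]⟩
      have h1 := hcmp σ hσ.le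
      rw [← h1, Ns_map]
      exact ⟨z, hz, rfl⟩)
    (fun σ hσ hh => by
      obtain ⟨g, hg, h1, h2⟩ := c1 σ hσ hh
      exact ⟨g, hg, h1, h2⟩)
    (fun σ hσ hh => by
      have h1 := hcmp σ hσ.le
      refine ⟨⟨hσ.chain, hσ.isp, fun _ _ => le_top, hσ.lt⟩,
        hh.mono (inf_le_inf_right _ le_top), ?_⟩
      change lC p O B (Ns ⊤ σ) = lC p O b (Ns ⊤ (cmp H σ))
      have h2 := lC_eq leq ibl d hO hB hg hb hi (Z := Z) (τ := cmp H σ) (by rw [h1]; exact hσ)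
        (by rw [h1]; exact hh)
      rw [h1] at h2
      exact h2)
    (fun σ hσ hh g _ _ hh' => by
      obtain ⟨l, hl, hgl⟩ := c3 σ g hh hh'
      refine ⟨g * l, hgl, ?_⟩
      have e1 : conjSub (g * l) '' σ = conjSub g '' (conjSub l '' σ) := by
        rw [← Set.image_comp]
        congr 1
        exact funext fun P => conjSub_mul g l P
      rw [e1, stab_image hl.2])
  rw [h0, prt.trp A p H Z hZH _ hinv]
  refine altX_congr fun τ _ => ?_
  rw [cmp_map]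

omit hN in
/-- the sum is zero if `H` has a normal `p`-subgroup not contained in `Z` -/
theorem lsum_zero {B : Set (A → ℂ)} {Z : Subgroup A} (hZn : Z.Normal) (hZp : IsPGroup p Z)
    {Q : Subgroup A} (hQn : Q.Normal) (hQp : IsPGroup p Q) (hQZ : ¬ Q ≤ Z) :
    altX p ⊤ Z (fun σ => lC p O B (Ns ⊤ σ)) = 0 := by
  refine prt.con A p ⊤ ⊤ Z Q (fun L _ => lC p O B L) le_rfl ?_ ?_ le_top le_top hZp hQp hQZ ?_
  · rw [Subgroup.normalizer_eq_top]
  · rw [Subgroup.normalizer_eq_top]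
  · intro σ _ g _
    exact lC_conj p O B _ g

end chains

end Pool.Agent.Q17.DC
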