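import Pool.Agent.Q17.DC.Typ3

/-!
# The numbers of characters of a block
-/

set_option autoImplicit false

open scoped BigOperators Classical
open Pool.Agent.Helper884 Representation Pool.Agent.H254R3.IN Pool.Agent.Q17.TC Pool.Agent.Y63.KR
  Pool.Agent.Y62

noncomputable section

namespace Pool.Agent.Q17.DC

variable {A : Type} [Group A] [Fintype A]

omit [Fintype A] in
lemma topComp_bij : Function.Bijective
    (fun (χ : A → ℂ) (x : (⊤ : Subgroup A)) => χ (x : A)) := by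
  refine ⟨fun χ χ' h => funext fun x => congrFun h ⟨x, Subgroup.mem_top x⟩, fun θ => ?_⟩
  exact ⟨fun x => θ ⟨x, Subgroup.mem_top x⟩, rfl⟩

/-- `Ct` for the whole group -/
lemma ct_top_iff {Q : Pt A} {B : Set (A → ℂ)} (hB : IsBlock Q.O B) {χ : A → ℂ} :
    Ct Q B ⊤ (fun x : (⊤ : Subgroup A) => χ x) ↔ χ ∈ B ∧
      (Q.a → ∃ x : A, Sec Q.p Q.N Q.K x ∧ omega χ x ∉ Q.O.nonunits) ∧
      (Q.b → ∃ x : A, Sec Q.p Q.N Q.K x ∧ χ x ≠ 0) ∧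
      (∀ c ∈ Q.Z₁, χ c = χ 1 * Q.mu c) ∧ (∃ n : ℕ, (n : ℂ) = χ 1 ∧ Q.T (Nat.card A) n) ∧
      Q.U {τ | ∀ x, τ (χ x) = χ x} := by
  have hirr : IsIrr (fun x : (⊤ : Subgroup A) => χ x) ↔ IsIrr χ := by
    constructor
    · intro h
      exact irr_comp h Subgroup.topEquiv.symm
    · intro h
      exact irr_comp h Subgroup.topEquiv
  have hcard : Nat.card (⊤ : Subgroup A) = Nat.card A := Nat.card_congr Subgroup.topEquiv.toEquiv
  have hom : ∀ x : A, omega (fun x : (⊤ : Subgroup A) => χ x) ⟨x, Subgroup.mem_top x⟩ =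
      omega χ x := by
    intro x
    have := Pool.Agent.Q239.DC.omega_equiv (Subgroup.topEquiv : (⊤ : Subgroup A) ≃* A) χ
      ⟨x, Subgroup.mem_top x⟩
    exact this
  have hst : {τ : ℂ ≃+* ℂ | ∀ x : (⊤ : Subgroup A), τ (χ x) = χ x} =
      {τ | ∀ x, τ (χ x) = χ x} := by
    ext τ
    exact ⟨fun h x => h ⟨x, Subgroup.mem_top x⟩, fun h x => h x⟩
  have hind : IsIrr χ → ∀ x : A, ∑ᶠ y : {y : (⊤ : Subgroup A) // IsConj x (y : A)},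
      χ (y.1 : A) / χ 1 = omega χ x := by
    intro hχ x
    have h2 : ∀ y : {y : (⊤ : Subgroup A) // IsConj x (y : A)}, χ (y.1 : A) / χ 1 =
        χ x / χ 1 := fun y => by rw [hχ.isConj y.2]
    rw [finsum_congr h2, finsum_eq_sum_of_fintype, Finset.sum_const, Finset.card_univ,
      nsmul_eq_mul]
    unfold omega
    rw [mul_div_assoc]
    congr 2
    rw [← Nat.card_eq_fintype_card]
    exact Nat.card_congr (Subgroup.topEquiv.toEquiv.subtypeEquiv fun y => Iff.rfl)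
  constructor
  · rintro ⟨h1, h2, h3, h4, h5, h6, h7⟩
    have h1' := hirr.mp h1
    refine ⟨mem_iff_ind (Q := Q) hB |>.mpr ⟨h1', fun ψ hψ x => ?_⟩, fun ha => ?_, fun hb => ?_,
      fun c hc => h5 ⟨c, Subgroup.mem_top c⟩ hc, ?_, ?_⟩
    · have h8 := h2 ψ hψ x
      change omega ψ x - ∑ᶠ y : {y : (⊤ : Subgroup A) // IsConj x (y : A)},
        χ (y.1 : A) / χ 1 ∈ Q.O.nonunits at h8
      rwa [hind h1'] at h8
    · obtain ⟨x, hx, ho⟩ := h3 ha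
      refine ⟨x, hx, ?_⟩
      rw [← hom]
      exact ho
    · obtain ⟨x, hx, ho⟩ := h4 hb
      exact ⟨x, hx, ho⟩
    · rw [hcard] at h6
      exact h6
    · rw [hst] at h7
      exact h7
  · rintro ⟨h2, h3, h4, h5, h6, h7⟩
    obtain ⟨h1, h2'⟩ := (mem_iff_ind (Q := Q) hB).mp h2
    refine ⟨hirr.mpr h1, fun ψ hψ x => ?_, fun ha => ?_, fun hb => ?_, fun c hc => h5 c hc, ?_, ?_⟩
    · change omega ψ x - ∑ᶠ y : {y : (⊤ : Subgroup A) // IsConj x (y : A)},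
        χ (y.1 : A) / χ 1 ∈ Q.O.nonunits
      rw [hind h1]
      exact h2' ψ hψ x
    · obtain ⟨x, hx, ho⟩ := h3 ha
      refine ⟨⟨x, Subgroup.mem_top x⟩, hx, ?_⟩
      rw [hom]
      exact ho
    · obtain ⟨x, hx, ho⟩ := h4 hb
      exact ⟨⟨x, Subgroup.mem_top x⟩, hx, ho⟩
    · rw [hcard]
      exact h6
    · rw [hst]
      exact h7

/-- `ct` for the whole group -/
lemma ct_top {Q : Pt A} {B : Set (A → ℂ)} (hB : IsBlock Q.O B) :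
    ct Q B ⊤ = (Nat.card {χ : A → ℂ // χ ∈ B ∧
      (Q.a → ∃ x : A, Sec Q.p Q.N Q.K x ∧ omega χ x ∉ Q.O.nonunits) ∧
      (Q.b → ∃ x : A, Sec Q.p Q.N Q.K x ∧ χ x ≠ 0) ∧
      (∀ c ∈ Q.Z₁, χ c = χ 1 * Q.mu c) ∧ (∃ n : ℕ, (n : ℂ) = χ 1 ∧ Q.T (Nat.card A) n) ∧
      Q.U {τ | ∀ x, τ (χ x) = χ x}} : ℤ) := by
  unfold ct
  congr 1
  symm
  exact Nat.card_congr (Equiv.subtypeEquiv (Equiv.ofBijective _ topComp_bij) fun χ =>
    (ct_top_iff hB).symm)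

omit [Fintype A] in
lemma irr_deg_nat {χ : A → ℂ} (hχ : IsIrr χ) : ∃ n : ℕ, (n : ℂ) = χ 1 := by
  obtain ⟨V, _, _, _, ρ, -, rfl⟩ := hχ
  exact ⟨Module.finrank ℂ V, (Representation.char_one ρ).symm⟩

/-- `ct` for the whole group, good blocks -/
lemma ct_god {Q : Pt A} {B : Set (A → ℂ)} (hB : IsBlock Q.O B) (hZ : ∀ c ∈ Q.Z₁, c = 1)
    (hmu : Q.mu 1 = 1) (hg : good Q B) (hb : ¬ Q.b) :
    ct Q B ⊤ = (Nat.card {χ : A → ℂ // χ ∈ B ∧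
      (∃ n : ℕ, (n : ℂ) = χ 1 ∧ Q.T (Nat.card A) n) ∧ Q.U {τ | ∀ x, τ (χ x) = χ x}} : ℤ) := by
  rw [ct_top hB]
  congr 1
  refine Nat.card_congr (Equiv.subtypeEquivRight fun χ => ?_)
  constructor
  · rintro ⟨h1, -, -, -, h5, h6⟩
    exact ⟨h1, h5, h6⟩
  · rintro ⟨h1, h5, h6⟩
    refine ⟨h1, fun _ => ?_, fun h => (hb h).elim, fun c hc => ?_, h5, h6⟩
    · obtain ⟨x, hx, h⟩ := hg
      exact ⟨x, hx, h χ h1⟩
    · rw [hZ c hc, hmu, mul_one]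

/-- `ct` for the whole group, nonvanishing characters -/
lemma ct_nvn {Q : Pt A} {B : Set (A → ℂ)} (hB : IsBlock Q.O B) (hZ : ∀ c ∈ Q.Z₁, c = 1)
    (hmu : Q.mu 1 = 1) (ha : ¬ Q.a) (hb : Q.b) (hT : ∀ m n, Q.T m n) :
    ct Q B ⊤ = (Nat.card {χ : A → ℂ // χ ∈ B ∧ (∃ x : A, Sec Q.p Q.N Q.K x ∧ χ x ≠ 0) ∧
      Q.U {τ | ∀ x, τ (χ x) = χ x}} : ℤ) := by
  rw [ct_top hB]
  congr 1
  refine Nat.card_congr (Equiv.subtypeEquivRight fun χ => ?_)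
  constructor
  · rintro ⟨h1, -, h3, -, -, h6⟩
    exact ⟨h1, h3 hb, h6⟩
  · rintro ⟨h1, h3, h6⟩
    obtain ⟨n, hn⟩ := irr_deg_nat (hB.irr χ h1)
    refine ⟨h1, fun h => (ha h).elim, fun _ => h3, fun c hc => ?_, ⟨n, hn, hT _ _⟩, h6⟩
    rw [hZ c hc, hmu, mul_one]

end Pool.Agent.Q17.DC
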