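import Pool.Agent.Q17.DC.All
import Pool.Agent.Q17.DC.Stm3

/-!
# Uniqueness of the block of `H`
-/

set_option autoImplicit false

open scoped BigOperators Classical
open Pool.Agent.Helper884 Representation Pool.Agent.H254R3.IN Pool.Agent.Q17.TC Pool.Agent.Y63.KR
  Pool.Agent.Y62

noncomputable section

namespace Pool.Agent.Q17.DC

/-- the second group of parts -/
structure Prt2 : Prop where
  mmx : S_MMX
  dzp : S_DZP
  unq : S_UNQ

variable {A : Type} [Group A]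

/-- some defect group of `B` meets `K` outside `N` -/
def Mts (Q : Pt A) (B : Set (A → ℂ)) : Prop :=
  ∃ D : Subgroup A, IsDefectGroup Q.p Q.O B D ∧ ∃ z ∈ D, z ∈ Q.K ∧ z ∉ Q.N

variable [Fintype A] {Q : Pt A} [hp : Fact Q.p.Prime]

/-- a block inducing `B` with a character which does not vanish on the sections -/
lemma mts_of (r : Prt2) (hO : (Q.p : ℂ) ∈ Q.O.nonunits) (hN : Q.N.Normal) (hK : Q.K.Normal)
    {B : Set (A → ℂ)} (hB : IsBlock Q.O B) {L : Subgroup A} {θ : L → ℂ} (hθ : IsIrr θ)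
    (hi : ∀ ψ ∈ B, ∀ x : A,
      omega ψ x - ∑ᶠ y : {y : L // IsConj x (y : A)}, θ y / θ 1 ∈ Q.O.nonunits) {x : L}
    (hx : Sec Q.p Q.N Q.K (x : A)) (hne : θ x ≠ 0) : Mts Q B := by
  obtain ⟨D, hD⟩ := (r.mmx A Q.p Q.O hO B hB).1
  obtain ⟨z, s, rfl, hc, hzK, hzN, hk, hs⟩ := hx.parts
  obtain ⟨g, hg⟩ := r.dzp A Q.p Q.O hO L θ hθ z s hc hk hs hne B hB hi D hD
  refine ⟨D, hD, _, hg, hK.conj_mem _ hzK g, fun h => hzN ?_⟩
  have h1 := hN.conj_mem _ h g⁻¹
  have e1 : g⁻¹ * (g * (z : A) * g⁻¹) * g⁻¹⁻¹ = z := by group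
  rwa [e1] at h1

/-- `IsDefectGroup` is invariant under conjugation -/
lemma def_conj {p : ℕ} {O : ValuationSubring ℂ} {B : Set (A → ℂ)} (hB : IsBlock O B)
    (hp : Fact p.Prime) {D : Subgroup A} (hD : IsDefectGroup p O B D) (g : A) :
    IsDefectGroup p O B (conjSub g D) := by
  obtain ⟨x, ⟨R, hR⟩, h2, h3⟩ := hD
  have hR' : IsPGroup p D := by
    rw [hR]
    exact R.isPGroup'.map _
  have hle : ∀ d ∈ D, Commute x d := by
    intro d hd
    rw [hR] at hd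
    obtain ⟨e, -, rfl⟩ := hd
    exact Subgroup.mem_centralizer_iff.mp e.2 x rfl
  refine ⟨g * x * g⁻¹, ?_, fun χ hχ => ?_, ?_⟩
  · -- the Sylow subgroup
    let e : Subgroup.centralizer ({x} : Set A) ≃*
        Subgroup.centralizer ({g * x * g⁻¹} : Set A) :=
      { toFun := fun c => ⟨g * c * g⁻¹, by
          rw [Subgroup.mem_centralizer_iff]
          intro w hw
          rw [Set.mem_singleton_iff.mp hw]
          have h4 := Subgroup.mem_centralizer_iff.mp c.2 x rfl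
          calc g * x * g⁻¹ * (g * c * g⁻¹) = g * (x * c) * g⁻¹ := by group
            _ = g * (c * x) * g⁻¹ := by rw [h4]
            _ = g * c * g⁻¹ * (g * x * g⁻¹) := by group⟩
        invFun := fun c => ⟨g⁻¹ * c * g, by
          rw [Subgroup.mem_centralizer_iff]
          intro w hw
          rw [Set.mem_singleton_iff.mp hw]
          have h4 := Subgroup.mem_centralizer_iff.mp c.2 _ rfl
          calc x * (g⁻¹ * c * g) = g⁻¹ * (g * x * g⁻¹ * c) * g := by group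
            _ = g⁻¹ * (c * (g * x * g⁻¹)) * g := by rw [h4]
            _ = g⁻¹ * c * g * x := by group⟩
        left_inv := fun c => Subtype.ext (by
          change g⁻¹ * (g * c * g⁻¹) * g = c
          group)
        right_inv := fun c => Subtype.ext (by
          change g * (g⁻¹ * c * g) * g⁻¹ = c
          group)
        map_mul' := fun a b => Subtype.ext (by
          change g * (a * b) * g⁻¹ = g * a * g⁻¹ * (g * b * g⁻¹)
          group) }
    have hsur : Function.Surjective e.toMonoidHom := e.surjective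
    refine ⟨R.mapSurjective hsur, ?_⟩
    rw [Sylow.coe_mapSurjective]
    ext w
    rw [mem_conjSub, hR]
    constructor
    · rintro ⟨v, hv, hvw⟩
      refine ⟨e v, ⟨v, hv, rfl⟩, ?_⟩
      change g * (v : A) * g⁻¹ = w
      have h4 : (v : A) = g⁻¹ * w * g := hvw
      rw [h4]
      group
    · rintro ⟨_, ⟨v, hv, rfl⟩, rfl⟩
      refine ⟨v, hv, ?_⟩
      change (v : A) = g⁻¹ * (g * v * g⁻¹) * g
      group
  · rw [← (hB.irr χ hχ).omega_congr (isConj_iff.mpr ⟨g, rfl⟩)]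
    exact h2 χ hχ
  · rw [blockCoeff_cl hB.irr x g]
    exact h3

variable [hN : Q.N.Normal] {y : A} {H : Subgroup A} {P : Sylow Q.p A} {Z : Subgroup A}

/-- existence of the block of `H` -/
theorem Pl.exists_block (h : Pl Q y H P Z) (r : Prt2) {B : Set (A → ℂ)} (hB : IsBlock Q.O B)
    (hm : Mts Q B) : ∃ b : Set (H → ℂ), IsBlock Q.O b ∧ IndB Q.O B b ∧ Mts (Q.res H) b := by
  obtain ⟨D, hD, z, hz, hzK, hzN⟩ := hm
  have hDp : IsPGroup Q.p D := by
    obtain ⟨w, ⟨P', hP'⟩, -⟩ := hD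
    rw [hP']
    exact P'.isPGroup'.map _
  have hKn : Q.K.Normal := by
    rw [h.hK]
    exact h.d.nK
  obtain ⟨R, hR⟩ := hDp.exists_le_sylow
  obtain ⟨g, hg⟩ := MulAction.exists_smul_eq A R P
  have hDH : conjSub g D ≤ H := by
    intro x hx
    apply h.d.hPH
    rw [mem_conjSub] at hx
    rw [← hg]
    change x ∈ ((g • R : Sylow Q.p A) : Set A)
    rw [Sylow.coe_smul, Set.mem_smul_set]
    refine ⟨g⁻¹ * x * g, hR hx, ?_⟩
    change g * (g⁻¹ * x * g) * g⁻¹ = x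
    group
  have hD' := def_conj hB hp hD g
  have hz' : g * z * g⁻¹ ∈ conjSub g D := by
    rw [mem_conjSub]
    have e1 : g⁻¹ * (g * z * g⁻¹) * g = z := by group
    rw [e1]
    exact hz
  have hzK' := hKn.conj_mem _ hzK g
  have hzN' : g * z * g⁻¹ ∉ Q.N := fun h1 => hzN (by
    have h2 := hN.conj_mem _ h1 g⁻¹
    have e1 : g⁻¹ * (g * z * g⁻¹) * g⁻¹⁻¹ = z := by group
    rwa [e1] at h2)
  obtain ⟨b, hb⟩ := (r.unq A Q.p Q.O h.hO Q.N y H P h.d B hB).1 (conjSub g D) hDH hD'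
    ⟨_, hz', by rw [← h.hK]; exact hzK', hzN'⟩
  exact ⟨b.1, b.2.1, fun χ hχ ψ hψ x => b.2.2 χ hχ ψ hψ x, _, hb, ⟨_, hDH hz'⟩, hz', hzK', hzN'⟩

/-- uniqueness of the block of `H` -/
theorem Pl.unique_block (h : Pl Q y H P Z) (r : Prt2) {B : Set (A → ℂ)} (hB : IsBlock Q.O B)
    {b b' : Set (H → ℂ)} (hb : IsBlock Q.O b) (hi : IndB Q.O B b) (hm : Mts (Q.res H) b)
    (hb' : IsBlock Q.O b') (hi' : IndB Q.O B b') (hm' : Mts (Q.res H) b') : b = b' := by
  obtain ⟨D, hD, z, hz, hzK, hzN⟩ := hm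
  obtain ⟨D', hD', z', hz', hzK', hzN'⟩ := hm'
  have h1 := (r.unq A Q.p Q.O h.hO Q.N y H P h.d B hB).2.1
    ⟨b, hb, fun χ hχ ψ hψ x => hi χ hχ ψ hψ x⟩ ⟨b', hb', fun χ hχ ψ hψ x => hi' χ hχ ψ hψ x⟩
    D D' hD hD' ⟨z, hz, by rw [← h.hK]; exact hzK, hzN⟩ ⟨z', hz', by rw [← h.hK]; exact hzK', hzN'⟩
  exact congrArg Subtype.val h1

/-- the seeing sums are zero for the other blocks -/
theorem Pl.ct_zero (h : Pl Q y H P Z) (c : Pc Q) (r : Prt2) {b : Set (H → ℂ)}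
    (hb : IsBlock Q.O b) (hm : ¬ Mts (Q.res H) b) (L : Subgroup H) : ct (Q.res H) b L = 0 := by
  unfold ct
  have hKn : Q.K.Normal := by
    rw [h.hK]
    exact h.d.nK
  have : IsEmpty {θ : L → ℂ // Ct (Q.res H) b L θ} := by
    refine ⟨fun ⟨θ, hθ⟩ => hm ?_⟩
    have h1 : ∃ x : L, Sec Q.p (Q.N.subgroupOf H) (Q.K.subgroupOf H) (x : H) ∧ θ x ≠ 0 := by
      rcases c.hab with ha | hb
      · obtain ⟨x, hx, ho⟩ := hθ.god ha
        refine ⟨x, hx, fun h0 => ho ?_⟩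
        unfold omega
        rw [h0, mul_zero, zero_div]
        exact (Q.res H).O.nonunits.zero_mem
      · exact hθ.nvn hb
    obtain ⟨x, hx, hne⟩ := h1
    exact @mts_of H _ _ (Q.res H) hp r h.hO (hN.subgroupOf H) (hKn.subgroupOf H) b hb L θ hθ.irr
      hθ.ind x hx hne
  rw [Nat.card_of_isEmpty]
  rfl

/-- **comparison of the alternating sums**, third form -/
theorem Pl.main2 (h : Pl Q y H P Z) (c : Pc Q) (r : Prt2) {B : Set (A → ℂ)}
    (hB : IsBlock Q.O B) {b : Set (H → ℂ)} (hb : IsBlock Q.O b) (hi : IndB Q.O B b)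
    (hm : Mts (Q.res H) b) : altX Q.p ⊤ Z (fun σ => ct Q B (Ns ⊤ σ)) =
      altX Q.p (⊤ : Subgroup H) (Z.subgroupOf H) (fun σ => ct (Q.res H) b (Ns ⊤ σ)) := by
  rw [h.main c prt hB]
  refine finsum_eq_single _ (⟨b, hb, hi⟩ : {b : Set (H → ℂ) // IsBlock Q.O b ∧ IndB Q.O B b}) ?_
  rintro ⟨b', hb', hi'⟩ hne
  have h1 : ¬ Mts (Q.res H) b' := fun hm' => hne (Subtype.ext
    (h.unique_block r hB hb' hi' hm' hb hi hm))
  have h2 : ∀ σ : Set (Subgroup H), ct (Q.res H) b' (Ns ⊤ σ) = 0 := fun σ =>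
    h.ct_zero c r hb' h1 _
  change altX Q.p (⊤ : Subgroup H) (Z.subgroupOf H) (fun σ => ct (Q.res H) b' (Ns ⊤ σ)) = 0
  unfold altX
  simp only [h2, mul_zero, finsum_zero]

omit hp hN in
/-- the restriction to `⊤` of a character -/
lemma top_comp {B : Set (A → ℂ)} {χ : A → ℂ} (hB : IsBlock Q.O B) (hχ : χ ∈ B) :
    IsIrr (fun x : (⊤ : Subgroup A) => χ x) ∧ ∀ ψ ∈ B, ∀ x : A,
      omega ψ x - ∑ᶠ y : {y : (⊤ : Subgroup A) // IsConj x (y : A)},
        χ (y.1 : A) / χ 1 ∈ Q.O.nonunits := by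
  refine ⟨irr_comp (hB.irr χ hχ) Subgroup.topEquiv, fun ψ hψ x => ?_⟩
  have h1 : ∑ᶠ y : {y : (⊤ : Subgroup A) // IsConj x (y : A)}, χ (y.1 : A) / χ 1 =
      omega χ x := by
    have h2 : ∀ y : {y : (⊤ : Subgroup A) // IsConj x (y : A)}, χ (y.1 : A) / χ 1 =
        χ x / χ 1 := fun y => by rw [(hB.irr χ hχ).isConj y.2]
    rw [finsum_congr h2, finsum_eq_sum_of_fintype, Finset.sum_const, Finset.card_univ,
      nsmul_eq_mul]
    unfold omega
    rw [mul_div_assoc]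
    congr 2
    rw [← Nat.card_eq_fintype_card]
    exact Nat.card_congr (Subgroup.topEquiv.toEquiv.subtypeEquiv fun y => Iff.rfl)
  rw [h1]
  have h3 := (blk_iff hB hχ x (omega χ x)).mpr (by
    rw [sub_self]
    exact Q.O.nonunits.zero_mem) ψ hψ
  exact h3

/-- a good block has a defect group which meets the coset -/
lemma mts_of_good (r : Prt2) (hO : (Q.p : ℂ) ∈ Q.O.nonunits) (hK : Q.K.Normal)
    {B : Set (A → ℂ)} (hB : IsBlock Q.O B) (hg : good Q B) : Mts Q B := by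
  obtain ⟨x, hx, ho⟩ := hg
  obtain ⟨χ, hχ⟩ := hB.nonempty
  obtain ⟨h1, h2⟩ := top_comp (Q := Q) hB hχ
  refine mts_of r hO hN hK hB h1 h2 (x := ⟨x, Subgroup.mem_top x⟩) hx fun h0 => ho χ hχ ?_
  unfold omega
  have h3 : χ x = 0 := h0
  rw [h3, mul_zero, zero_div]
  exact Q.O.nonunits.zero_mem

/-- if `B` is good then there is only one block of `H` which induces it -/
theorem Pl.unique_good (h : Pl Q y H P Z) (r : Prt2) {B : Set (A → ℂ)} (hB : IsBlock Q.O B)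
    (hg : good Q B) {b b' : Set (H → ℂ)} (hb : IsBlock Q.O b) (hi : IndB Q.O B b)
    (hb' : IsBlock Q.O b') (hi' : IndB Q.O B b') : b = b' := by
  have hKn : Q.K.Normal := by
    rw [h.hK]
    exact h.d.nK
  have key : ∀ c : Set (H → ℂ), IsBlock Q.O c → IndB Q.O B c → Mts (Q.res H) c := by
    intro c hc hic
    exact @mts_of_good H _ _ (Q.res H) hp (hN.subgroupOf H) r h.hO (hKn.subgroupOf H) c hc
      (good_res prt.gdt hKn hB hg hc hic)
  exact h.unique_block r hB hb hi (key b hb hi) hb' hi' (key b' hb' hi')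

end Pool.Agent.Q17.DC
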