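import Pool.Agent.Q17.DC.Typ2

/-!
# Comparison of the numbers of characters of `G` and of `H`
-/

set_option autoImplicit false

open scoped BigOperators Classical
open Pool.Agent.Helper884 Representation Pool.Agent.H254R3.IN Pool.Agent.Q17.TC Pool.Agent.Y63.KR
  Pool.Agent.Y62

noncomputable section

namespace Pool.Agent.Q17.DC

section

variable {Γ : Type} [Group Γ]

lemma Ns_empty (X : Subgroup Γ) : Ns X ∅ = X := by
  unfold Ns
  rw [inf_eq_left]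
  intro x _
  rw [mem_chainStabilizer]
  intro P hP
  exact hP.elim

lemma ch_empty (p : ℕ) (X Z : Subgroup Γ) : Ch p X Z ∅ :=
  ⟨fun _ h => h.elim, fun _ h => h.elim, fun _ h => h.elim, fun _ h => h.elim⟩

end

variable {Γ : Type} [Group Γ] [Fintype Γ]

/-- the numbers for `G` and `G ⊓ H` agree -/
theorem Gl.kn_single {D : Dt Γ} [hN : D.N.Normal] [hp : Fact D.p.Prime] {y : Γ} {H : Subgroup Γ}
    {P : Sylow D.p Γ} {Z : Subgroup Γ} (h : Gl D y H P Z) (r : Prt) :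
    kn D (Ns D.G ∅) (Ns ⊤ ∅) = kn D (Ns (D.G ⊓ H) ∅) (Ns H ∅) := by
  have hG := h.hG
  obtain ⟨k, hk⟩ := P.isPGroup' ⟨y, h.d.hyP⟩
  have hk' : y ^ D.p ^ k = 1 := congrArg Subtype.val hk
  obtain ⟨j, -, hj⟩ := (Nat.dvd_prime_pow hp.out).mp (orderOf_dvd_of_pow_eq_one hk')
  have hyH : y ∈ H := h.d.hPH h.d.hyP
  have hy : Hy D y H P (Ns D.G ∅) (Ns (D.G ⊓ H) ∅) (Ns ⊤ ∅) (Ns H ∅)
      ⟨y, by rw [Ns_empty]; exact h.hyG⟩ :=
    { c := ⟨h.d, fun x => by
            rw [Ns_empty, Ns_empty, Subgroup.mem_inf], hyH, y_mem, h.d.hyN, j, by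
            rw [Subgroup.orderOf_mk, hj]⟩
      hK := h.hK
      hO := h.hO
      hLG := inf_le_left
      hG := hG
      hZ := h.hZ
      hR' := inf_le_inf_right _ le_top
      hRH := inf_le_left
      hRL := fun e _ x => by
        rw [Ns_empty]
        constructor
        · exact fun hx => hG.conj_mem _ hx e
        · intro hx
          have h3 := hG.conj_mem _ hx e⁻¹
          have e1 : e⁻¹ * (e * x * e⁻¹) * e⁻¹⁻¹ = x := by group
          rwa [e1] at h3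
      hR := fun e _ => by
        rw [Ns_empty, Ns_empty]
        have h1 := h.d.hNH e
        obtain ⟨n, hn, k, hk, rfl⟩ := h1
        refine ⟨k⁻¹ * n⁻¹ * k, ?_, ?_⟩
        · have h2 := hN.conj_mem _ (Subgroup.inv_mem _ hn) k⁻¹
          rw [inv_inv] at h2
          exact h.hNG h2
        · have e1 : n * k * (k⁻¹ * n⁻¹ * k) = k := by group
          rw [e1]
          exact hk
      hab := h.hab
      hT := h.hT
      hT' := h.hT' }
  exact hy.kn_eq r.lo r.bl r.ts r.df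

variable {A : Type} [Group A] [Fintype A] {Q : Pt A} [hN : Q.N.Normal] [hp : Fact Q.p.Prime]
  {y : A} {H : Subgroup A} {P : Sylow Q.p A} {Z : Subgroup A}

/-- **comparison of the numbers of characters** -/
theorem Pl.single (h : Pl Q y H P Z) (c : Pc Q) (r : Prt) {B : Set (A → ℂ)}
    (hB : IsBlock Q.O B) : ct Q B ⊤ =
      ∑ᶠ b : {b : Set (H → ℂ) // IsBlock Q.O b ∧ IndB Q.O B b}, ct (Q.res H) b.1 ⊤ := by
  obtain ⟨χ₀, h₀⟩ := hB.nonempty
  have hgl := h.gl c χ₀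
  have h1 := @Gl.kn_single A _ _ (toD Q χ₀) hN hp y H P Z hgl r
  have h2 : kn (toD Q χ₀) (Ns (⊤ ⊓ H) ∅) (Ns H ∅) =
      ∑ᶠ b : Bs (toD Q χ₀) H, kb (toD Q χ₀) b.1 (Ns H ∅) (Ns H ∅) := by
    rw [top_inf_eq]
    unfold kn kb Bs
    rw [← r.dec A (toD Q χ₀).O (toD Q χ₀).G H (Ns H ∅) inf_le_left le_top
      (fun θ hθ => r.exc A Q.p Q.O h.hO H Z ∅ (ch_empty _ _ _) θ hθ) (toD Q χ₀).lam
      (Rst (toD Q χ₀) (Ns H ∅) (Ns H ∅))]
    congr 1
    exact Nat.card_congr (Equiv.subtypeEquivRight fun θ => cn_iff)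
  have key : ∀ b : Set (H → ℂ), kb (toD Q χ₀) b (Ns H ∅) (Ns H ∅) = ct (Q.res H) b (Ns ⊤ ∅) := by
    intro b
    have e1 : (∅ : Set (Subgroup A)) = Subgroup.map H.subtype '' ∅ := Set.image_empty _ |>.symm
    rw [e1, Ns_map]
    exact kb_res ((Ns ⊤ ∅).equivMapOfInjective H.subtype H.subtype_injective) (fun _ => rfl) hp
  have h3 : ct Q B ⊤ = kn (toD Q χ₀) (Ns ⊤ ∅) (Ns ⊤ ∅) := by
    rw [← kn_eq_ct hB h₀, Ns_empty]
  rw [h3]
  refine h1.trans (h2.trans ?_)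
  have h5 : ∀ b : Set (H → ℂ), (IsBlock (toD Q χ₀).O b ∧ ∀ ψ ∈ b, ∀ x ∈ (toD Q χ₀).G,
      (toD Q χ₀).lam x - indc (toD Q χ₀).G H ψ x ∈ (toD Q χ₀).O.nonunits) ↔
      IsBlock Q.O b ∧ IndB Q.O B b := by
    intro b
    refine and_congr_right fun _ => ?_
    constructor
    · intro h6 χ hχ ψ hψ x
      have h7 := h6 ψ hψ x (Subgroup.mem_top x)
      change omega χ₀ x - indc ⊤ H ψ x ∈ Q.O.nonunits at h7
      rw [indc_top] at h7
      exact (blk_iff hB h₀ x _).mpr h7 χ hχ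
    · intro h6 ψ hψ x _
      change omega χ₀ x - indc ⊤ H ψ x ∈ Q.O.nonunits
      rw [indc_top]
      exact h6 χ₀ h₀ ψ hψ x
  refine Eq.trans ?_ (finsum_comp_equiv (Equiv.subtypeEquivRight h5) (f := fun
    b : {b : Set (H → ℂ) // IsBlock Q.O b ∧ IndB Q.O B b} => ct (Q.res H) b.1 ⊤))
  refine finsum_congr fun b => ?_
  rw [key, Ns_empty]
  rfl

/-- **comparison of the numbers of characters**, second form -/
theorem Pl.single' (h : Pl Q y H P Z) (c : Pc Q) (r : Prt2) {B : Set (A → ℂ)}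
    (hB : IsBlock Q.O B) {b : Set (H → ℂ)} (hb : IsBlock Q.O b) (hi : IndB Q.O B b)
    (hm : Mts (Q.res H) b) : ct Q B ⊤ = ct (Q.res H) b ⊤ := by
  rw [h.single c prt hB]
  refine finsum_eq_single _ (⟨b, hb, hi⟩ : {b : Set (H → ℂ) // IsBlock Q.O b ∧ IndB Q.O B b}) ?_
  rintro ⟨b', hb', hi'⟩ hne
  have h1 : ¬ Mts (Q.res H) b' := fun hm' => hne (Subtype.ext
    (h.unique_block r hB hb' hi' hm' hb hi hm))
  exact h.ct_zero c r hb' h1 _

omit hN hp in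
/-- the members of a block -/
lemma mem_iff_ind {B : Set (A → ℂ)} (hB : IsBlock Q.O B) {χ : A → ℂ} :
    χ ∈ B ↔ IsIrr χ ∧ ∀ ψ ∈ B, ∀ x : A, omega ψ x - omega χ x ∈ Q.O.nonunits := by
  constructor
  · intro h
    exact ⟨hB.irr χ h, fun ψ hψ x => (blk_iff hB h x (omega χ x)).mpr (by
      rw [sub_self]
      exact Q.O.nonunits.zero_mem) ψ hψ⟩
  · rintro ⟨h1, h2⟩
    obtain ⟨χ₁, h3, rfl⟩ := hB
    have h4 : χ₁ ∈ {χ : A → ℂ | IsIrr χ ∧ ∀ x : A, omega χ x - omega χ₁ x ∈ Q.O.nonunits} :=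
      ⟨h3, fun x => by
        rw [sub_self]
        exact Q.O.nonunits.zero_mem⟩
    refine ⟨h1, fun x => ?_⟩
    have h5 := h2 χ₁ h4 x
    have h6 := nu_mul (Q.O.neg_mem _ Q.O.one_mem) h5
    have e1 : -1 * (omega χ₁ x - omega χ x) = omega χ x - omega χ₁ x := by ring
    rwa [e1] at h6

end Pool.Agent.Q17.DC
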